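import Pool.Agent.Lib_c1afad_aw.AvgDefs

/-!
# [AW-A7] The average gain at a state
-/

open Finset

namespace AW

open scoped Classical

noncomputable section

variable {S C A : Type} [Fintype S] [Fintype C] [Fintype A]

variable {𝒩 : Net S C} {f : C → A} {p L : ℕ} {W V : Type} [Fintype W] [Fintype V]
  {P : W → Finset S} {Y : V → Finset S}

/-- [AW-A7] The average gain at a state.  `gt ≥ ∑_e (1_{hit} - (1 / n) ∑_{e'} hv (s e ∈ ·) (s e' ∈ ·))`
(a cell `e'` in the block of `e` has `s e'` in the first set containing `s e`); use `Ex_hv` and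
`alpha_eq_kap`. -/
theorem Ex_gt (hW : Sys 𝒩 f p W P) (hpL : p * L = Fintype.card S) (hL : 1 ≤ L) (q : ℕ) (y : S) :
    (1 - Real.exp (-q)) * 𝒩.n * (1 - alpha 𝒩 L P y)
      ≤ Ex fun ω : Fin (L * q) → W => gt 𝒩 (fun j => P (ω j)) y := by
  have hWn := hW.ne
  have hn : (0 : ℝ) < 𝒩.n := by exact_mod_cast 𝒩.n_pos
  have hL' : (1 : ℝ) ≤ L := by exact_mod_cast hL
  have hL0 : (L : ℝ) ≠ 0 := by positivity
  have hpr : ∀ x : S, pr (fun w => x ∈ P w) = 1 / L := fun x => hW.pr_mem hpL x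
  set θ : ℝ := 1 - (1 - 1 / (L : ℝ)) ^ (L * q) with hθ
  have hθ1 : 1 - Real.exp (-q) ≤ θ := by
    have h1 : (1 - 1 / (L : ℝ)) ^ (L * q) ≤ Real.exp (-q) := by
      apply pow_le_exp
      · rw [sub_nonneg, div_le_one (by linarith)]
        exact hL'
      · rw [mul_one_div, div_self hL0]
    rw [hθ]
    linarith
  set E : Finset C := univ.filter fun e => 𝒩.t e = y with hE
  have hEn : (#E : ℝ) = 𝒩.n := by exact_mod_cast 𝒩.ct y
  -- pointwise bound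
  have hpt : ∀ ω : Fin (L * q) → W,
      ∑ e ∈ E, ((1 - (if fh (fun w => 𝒩.s e ∈ P w) ω = L * q then (1 : ℝ) else 0))
        - (∑ e' ∈ E, hv (fun w => 𝒩.s e ∈ P w) (fun w => if 𝒩.s e' ∈ P w then 1 else 0) ω) / 𝒩.n)
      ≤ gt 𝒩 (fun j => P (ω j)) y := by
    intro ω
    have hgt : gt 𝒩 (fun j => P (ω j)) y = ∑ e ∈ E, if fi (fun j => P (ω j)) (𝒩.s e) < L * q then
        (1 - (#{e' | 𝒩.t e' = y ∧ fi (fun j => P (ω j)) (𝒩.s e') = fi (fun j => P (ω j)) (𝒩.s e)} : ℝ) / 𝒩.n)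
        else 0 := by
      unfold gt
      rw [hE, ← sum_filter, filter_filter]
    rw [hgt]
    refine sum_le_sum fun e _ => ?_
    by_cases h : fh (fun w => 𝒩.s e ∈ P w) ω < L * q
    · have h' : fi (fun j => P (ω j)) (𝒩.s e) < L * q := h
      rw [if_pos h', if_neg h.ne, sub_zero]
      apply sub_le_sub_left
      apply div_le_div_of_nonneg_right _ hn.le
      have h2 : ∑ e' ∈ E, hv (fun w => 𝒩.s e ∈ P w) (fun w => if 𝒩.s e' ∈ P w then (1 : ℝ) else 0) ω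
          = (#(E.filter fun e' => 𝒩.s e' ∈ P (ω ⟨_, h⟩)) : ℝ) := by
        rw [card_filter]
        push_cast
        refine sum_congr rfl fun e' _ => ?_
        unfold hv
        rw [dif_pos h]
      rw [h2]
      have h3 : #{e' | 𝒩.t e' = y ∧ fi (fun j => P (ω j)) (𝒩.s e') = fi (fun j => P (ω j)) (𝒩.s e)}
          ≤ #(E.filter fun e' => 𝒩.s e' ∈ P (ω ⟨_, h⟩)) := by
        refine card_le_card fun e' he' => ?_
        obtain ⟨h4, h5⟩ := (mem_filter.1 he').2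
        refine mem_filter.2 ⟨mem_filter.2 ⟨mem_univ _, h4⟩, ?_⟩
        have h6 : fi (fun j => P (ω j)) (𝒩.s e') < L * q := h5 ▸ h'
        have h7 := fi_mem h6
        have h8 : (⟨fi (fun j => P (ω j)) (𝒩.s e'), h6⟩ : Fin (L * q)) = ⟨fi (fun j => P (ω j)) (𝒩.s e), h'⟩ :=
          Fin.ext h5
        rw [h8] at h7
        exact h7
      exact_mod_cast h3
    · have h' : ¬ fi (fun j => P (ω j)) (𝒩.s e) < L * q := h
      have h3 : fh (fun w => 𝒩.s e ∈ P w) ω = L * q := le_antisymm (fh_le _ _) (not_lt.1 h)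
      rw [if_neg h', if_pos h3, sub_self, zero_sub, neg_nonpos]
      refine div_nonneg (sum_nonneg fun e' _ => ?_) hn.le
      unfold hv
      split_ifs <;> norm_num
  refine le_trans ?_ (Ex_mono hpt)
  -- the average
  have h1 : ∀ e : C, Ex (fun ω : Fin (L * q) → W => (if fh (fun w => 𝒩.s e ∈ P w) ω = L * q then (1 : ℝ) else 0))
      = 1 - θ := by
    intro e
    rw [Ex_nohit (fun w => 𝒩.s e ∈ P w) (L * q), hpr, hθ]
    ring
  have h2 : ∀ e e' : C, Ex (fun ω : Fin (L * q) → W =>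
      hv (fun w => 𝒩.s e ∈ P w) (fun w => if 𝒩.s e' ∈ P w then (1 : ℝ) else 0) ω)
      = θ * kap L P (𝒩.s e) (𝒩.s e') := by
    intro e e'
    have h3 := Ex_hv (fun w => 𝒩.s e ∈ P w) (fun w => if 𝒩.s e' ∈ P w then (1 : ℝ) else 0) (L * q)
    rw [hpr, ← hθ] at h3
    rw [Ex_congr (h := fun w => if 𝒩.s e ∈ P w ∧ 𝒩.s e' ∈ P w then (1 : ℝ) else 0) (fun w => by
      by_cases a1 : 𝒩.s e ∈ P w <;> by_cases a2 : 𝒩.s e' ∈ P w <;> simp [a1, a2])] at h3
    unfold kap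
    have h5 : (L : ℝ) * (1 / L * Ex (fun ω : Fin (L * q) → W =>
        hv (fun w => 𝒩.s e ∈ P w) (fun w => if 𝒩.s e' ∈ P w then (1 : ℝ) else 0) ω))
        = L * (θ * Ex fun w => if 𝒩.s e ∈ P w ∧ 𝒩.s e' ∈ P w then (1 : ℝ) else 0) := by
      rw [h3]
    rw [← mul_assoc, mul_one_div, div_self hL0, one_mul] at h5
    rw [h5]
    ring
  have h3 : Ex (fun ω : Fin (L * q) → W =>
      ∑ e ∈ E, ((1 - (if fh (fun w => 𝒩.s e ∈ P w) ω = L * q then (1 : ℝ) else 0))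
        - (∑ e' ∈ E, hv (fun w => 𝒩.s e ∈ P w) (fun w => if 𝒩.s e' ∈ P w then 1 else 0) ω) / 𝒩.n))
      = ∑ e ∈ E, (θ - (∑ e' ∈ E, θ * kap L P (𝒩.s e) (𝒩.s e')) / 𝒩.n) := by
    rw [Ex_sum]
    refine sum_congr rfl fun e _ => ?_
    rw [Ex_sub, Ex_sub, Ex_const, h1 e, Ex_div, Ex_sum, sum_congr rfl fun e' _ => h2 e e']
    ring
  rw [h3]
  have h4 : ∑ e ∈ E, (θ - (∑ e' ∈ E, θ * kap L P (𝒩.s e) (𝒩.s e')) / 𝒩.n) = θ * (𝒩.n * (1 - alpha 𝒩 L P y)) := by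
    rw [sum_sub_distrib, sum_const, nsmul_eq_mul, hEn, ← sum_div]
    have h5 := alpha_eq_kap (𝒩 := 𝒩) L P y
    rw [← hE] at h5
    simp only [← mul_sum]
    rw [← h5]
    field_simp
  rw [h4, mul_assoc]
  refine mul_le_mul_of_nonneg_right hθ1 (mul_nonneg hn.le ?_)
  have := hW.alpha_le hpL y
  linarith

theorem gt_nonneg {k : ℕ} (P : Fin k → Finset S) (y : S) : 0 ≤ gt 𝒩 P y := by
  have hn : (0 : ℝ) < 𝒩.n := by exact_mod_cast 𝒩.n_pos
  unfold gt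
  refine sum_nonneg fun e _ => ?_
  rw [sub_nonneg, div_le_one hn]
  have h1 : #{e' | 𝒩.t e' = y ∧ fi P (𝒩.s e') = fi P (𝒩.s e)} ≤ #{e' | 𝒩.t e' = y} := by
    refine card_le_card fun e' he' => ?_
    rw [mem_filter] at he' ⊢
    exact ⟨he'.1, he'.2.1⟩
  rw [𝒩.ct y] at h1
  exact_mod_cast h1

end

end AW
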