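import Pool.Agent.Lib_c1afad_aw.AvgDefs

/-!
# [AW-A8] The average number of differences
-/

open Finset

namespace AW

open scoped Classical

noncomputable section

variable {S C A : Type} [Fintype S] [Fintype C] [Fintype A]

variable {𝒩 : Net S C} {f : C → A} {p L : ℕ} {W V : Type} [Fintype W] [Fintype V]
  {P : W → Finset S} {Y : V → Finset S}

private theorem mem_lab_AvgF {Q : Finset S} {z : S} {a : A} :
    a ∈ lab 𝒩 f Q z ↔ z ∈ fw 𝒩 f Q a := by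
  rw [mem_fw]
  simp only [lab, mem_image, mem_filter, mem_univ, true_and]
  constructor
  · rintro ⟨e, ⟨h1, h2⟩, h3⟩
    exact ⟨e, h1, h2, h3⟩
  · rintro ⟨e, h1, h2, h3⟩
    exact ⟨e, ⟨h1, h2⟩, h3⟩

private theorem card_lab_AvgF (hW : Sys 𝒩 f p W P) (w : W) (z : S) :
    #(lab 𝒩 f (P w) z) = inn 𝒩 (P w) z := by
  unfold lab inn
  exact card_image_of_injOn fun e he e' he' hee =>
    hW.injOn w z (by simpa using he) (by simpa using he') hee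

private theorem card_eq_sum_AvgF (R : A → Prop) [DecidablePred R] :
    (#{a | R a} : ℝ) = ∑ a, if R a then (1 : ℝ) else 0 := by
  simp

private theorem card_symmdiff_AvgF (X Z : Finset A) :
    (#{a | ¬(a ∈ X ↔ a ∈ Z)} : ℝ) = #X + #Z - 2 * #{a | a ∈ X ∧ a ∈ Z} := by
  have e1 : ∀ X : Finset A, (#X : ℝ) = ∑ a, if a ∈ X then (1 : ℝ) else 0 := by
    intro X
    simp
  rw [card_eq_sum_AvgF, card_eq_sum_AvgF, e1 X, e1 Z, mul_sum, ← sum_add_distrib, ← sum_sub_distrib]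
  refine sum_congr rfl fun a _ => ?_
  by_cases h1 : a ∈ X <;> by_cases h2 : a ∈ Z <;> simp [h1, h2] <;> norm_num

private theorem Ex_inn_AvgF (hW : Sys 𝒩 f p W P) (hpL : p * L = Fintype.card S) (z : S) :
    Ex (fun w => (inn 𝒩 (P w) z : ℝ)) = 𝒩.n * (1 / L) := by
  have hn : (𝒩.n : ℝ) ≠ 0 := by exact_mod_cast 𝒩.n_pos.ne'
  rw [← hW.Ex_inn hpL z, ← Ex_mul]
  refine Ex_congr fun w => ?_
  rw [mul_div_cancel₀ _ hn]

/-- [AW-A8] The expected number of differences of the label sets.  For one `w` :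
`#{a | not (a ∈ lab y ↔ a ∈ lab y₀)} = inn y + inn y₀ - 2 #{a | y ∈ fw P a ∧ y₀ ∈ fw P a}`
(`a ∈ lab f P y ↔ y ∈ fw f P a`, and `#(lab y) = inn y` by `Sys.injOn`).  The mean of `inn y` is
`n / L` (`Sys.Ex_inn`), and `kap L P' y y₀ = (L / n) * Ex_w #{a | ..}`; `Ex_apply` for
the `L * q` indices. -/
theorem Ex_dd (hA : Fintype.card A = 𝒩.n) (hW : Sys 𝒩 f p W P) (hpL : p * L = Fintype.card S)
    (hL : 1 ≤ L) (q : ℕ) (y y₀ : S) :
    (Ex fun ω : Fin (L * q) → W => (dd 𝒩 f (fun j => P (ω j)) y y₀ : ℝ))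
      = 2 * 𝒩.n * q * (1 - kap L (fun q : W × A => fw 𝒩 f (P q.1) q.2) y y₀) := by
  have hne := hW.ne
  have hn : (0 : ℝ) < 𝒩.n := by exact_mod_cast 𝒩.n_pos
  have hL' : (0 : ℝ) < L := by exact_mod_cast hL
  have h1 : (Ex fun ω : Fin (L * q) → W => (dd 𝒩 f (fun j => P (ω j)) y y₀ : ℝ)) =
      ∑ _j : Fin (L * q), Ex fun w : W =>
        (#{a | ¬(a ∈ lab 𝒩 f (P w) y ↔ a ∈ lab 𝒩 f (P w) y₀)} : ℝ) := by
    have e : ∀ ω : Fin (L * q) → W, (dd 𝒩 f (fun j => P (ω j)) y y₀ : ℝ) =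
        ∑ j : Fin (L * q), (#{a | ¬(a ∈ lab 𝒩 f (P (ω j)) y ↔ a ∈ lab 𝒩 f (P (ω j)) y₀)} : ℝ) := by
      intro ω
      unfold dd
      push_cast
      rfl
    rw [Ex_congr e, Ex_sum]
    refine sum_congr rfl fun j _ => ?_
    exact Ex_apply j fun w : W =>
      (#{a | ¬(a ∈ lab 𝒩 f (P w) y ↔ a ∈ lab 𝒩 f (P w) y₀)} : ℝ)
  have h2 : (Ex fun w : W => (#{a | ¬(a ∈ lab 𝒩 f (P w) y ↔ a ∈ lab 𝒩 f (P w) y₀)} : ℝ)) =
      𝒩.n * (1 / L) + 𝒩.n * (1 / L) -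
        2 * Ex fun w : W => (#{a | y ∈ fw 𝒩 f (P w) a ∧ y₀ ∈ fw 𝒩 f (P w) a} : ℝ) := by
    rw [← Ex_inn_AvgF hW hpL y]
    nth_rewrite 2 [Ex_inn_AvgF hW hpL y]
    rw [← Ex_inn_AvgF hW hpL y₀, ← Ex_mul, ← Ex_add, ← Ex_sub]
    refine Ex_congr fun w => ?_
    rw [card_symmdiff_AvgF, card_lab_AvgF hW, card_lab_AvgF hW]
    simp only [mem_lab_AvgF]
  have h3 : kap L (fun q : W × A => fw 𝒩 f (P q.1) q.2) y y₀ =
      L * ((Ex fun w : W => (#{a | y ∈ fw 𝒩 f (P w) a ∧ y₀ ∈ fw 𝒩 f (P w) a} : ℝ)) / 𝒩.n) := by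
    unfold kap
    rw [Ex_prod, ← Ex_div]
    congr 1
    refine Ex_congr fun w => ?_
    rw [← hA, card_eq_sum_AvgF]
    rfl
  rw [h1, sum_const, card_univ, Fintype.card_fin, nsmul_eq_mul, h2, h3]
  push_cast
  field_simp
  ring

end

end AW
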