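import Pool.Agent.Lib_c1afad_aw.AvgDefs

/-!
# [AW-A9] The transition probabilities
-/

open Finset

namespace AW

open scoped Classical

noncomputable section

variable {S C A : Type} [Fintype S] [Fintype C] [Fintype A]

variable {𝒩 : Net S C} {f : C → A} {p L : ℕ} {W V : Type} [Fintype W] [Fintype V]
  {P : W → Finset S} {Y : V → Finset S}

/-- sums over pairs of cells sorted by their first states -/
private theorem sum_pairs_AvgG (𝒩 : Net S C) (g : S → S → ℝ) (h : C → C → ℝ) :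
    ∑ y, ∑ y₀, g y y₀ * (∑ c with 𝒩.s c = y, ∑ c' with 𝒩.s c' = y₀, h c c') =
      ∑ c, ∑ c', g (𝒩.s c) (𝒩.s c') * h c c' := by
  rw [← sum_fiberwise univ 𝒩.s]
  refine sum_congr rfl fun y _ => ?_
  have h1 : ∀ c, ∑ c', g (𝒩.s c) (𝒩.s c') * h c c' =
      ∑ y₀, ∑ c' with 𝒩.s c' = y₀, g (𝒩.s c) (𝒩.s c') * h c c' := fun c =>
    (sum_fiberwise univ 𝒩.s _).symm
  simp only [h1]
  rw [sum_comm]
  refine sum_congr rfl fun y₀ _ => ?_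
  rw [mul_sum]
  refine sum_congr rfl fun c hc => ?_
  rw [mul_sum]
  refine sum_congr rfl fun c' hc' => ?_
  rw [(mem_filter.1 hc).2, (mem_filter.1 hc').2]

/-- [AW-A9] Properties of `Kk`. -/
theorem Kk_nonneg (y y₀ : S) : 0 ≤ Kk 𝒩 L p P Y y y₀ := by
  unfold Kk
  have h1 := kap_nonneg L P y y₀
  have h2 : 0 ≤ ∑ c with 𝒩.s c = y, ∑ c' with 𝒩.s c' = y₀, kap p Y (𝒩.t c) (𝒩.t c') :=
    sum_nonneg fun c _ => sum_nonneg fun c' _ => kap_nonneg p Y _ _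
  positivity

theorem Kk_sum (hA : Fintype.card A = 𝒩.n) (hW : Sys 𝒩 f p W P) (hV : Sys 𝒩.rev f L V Y)
    (hpL : p * L = Fintype.card S) (hc : ∀ w v, Cross 𝒩 f (P w) (Y v)) (y : S) :
    ∑ y₀, Kk 𝒩 L p P Y y y₀ = 1 := by
  have hn : (𝒩.n : ℝ) ≠ 0 := by exact_mod_cast 𝒩.n_pos.ne'
  unfold Kk
  rw [← sum_div]
  have h1 : ∑ y₀, kap L P y y₀ * (∑ c with 𝒩.s c = y, ∑ c' with 𝒩.s c' = y₀,
      kap p Y (𝒩.t c) (𝒩.t c')) =
      ∑ c with 𝒩.s c = y, ∑ c', kap L P (𝒩.s c) (𝒩.s c') * kap p Y (𝒩.t c) (𝒩.t c') := by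
    simp only [mul_sum]
    rw [sum_comm]
    refine sum_congr rfl fun c hcy => ?_
    rw [← sum_fiberwise univ 𝒩.s]
    refine sum_congr rfl fun y₀ _ => sum_congr rfl fun c' hc' => ?_
    rw [(mem_filter.1 hcy).2, (mem_filter.1 hc').2]
  rw [h1, sum_congr rfl fun c _ => sum_kap_kap hA hW hV hpL hc c, sum_const, 𝒩.cs, nsmul_eq_mul]
  field_simp

theorem Kk_self (hW : Sys 𝒩 f p W P) (hpL : p * L = Fintype.card S) (y : S) :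
    Kk 𝒩 L p P Y y y = alpha 𝒩.rev p Y y := by
  have hn : (𝒩.n : ℝ) ≠ 0 := by exact_mod_cast 𝒩.n_pos.ne'
  have h1 := alpha_eq_kap (𝒩 := 𝒩.rev) (p : ℝ) Y y
  simp only [Net.rev_n, Net.rev_t, Net.rev_s] at h1
  unfold Kk
  rw [hW.kap_self hpL, one_mul, ← h1]
  field_simp

theorem Kk_Del : 𝒩.n * ∑ y, ∑ y₀, Kk 𝒩 L p P Y y y₀ * (1 - kap L P y y₀) = Del 𝒩 L p P Y := by
  have hn : (𝒩.n : ℝ) ≠ 0 := by exact_mod_cast 𝒩.n_pos.ne'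
  have h1 := sum_pairs_AvgG 𝒩 (fun y y₀ => kap L P y y₀ * (1 - kap L P y y₀))
    (fun c c' => kap p Y (𝒩.t c) (𝒩.t c'))
  have h2 : ∑ y, ∑ y₀, Kk 𝒩 L p P Y y y₀ * (1 - kap L P y y₀) =
      (∑ y, ∑ y₀, kap L P y y₀ * (1 - kap L P y y₀) *
        (∑ c with 𝒩.s c = y, ∑ c' with 𝒩.s c' = y₀, kap p Y (𝒩.t c) (𝒩.t c'))) / 𝒩.n ^ 2 := by
    rw [sum_div]
    refine sum_congr rfl fun y _ => ?_
    rw [sum_div]
    refine sum_congr rfl fun y₀ _ => ?_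
    unfold Kk
    ring
  rw [h2, h1]
  unfold Del
  have h3 : ∑ c, ∑ c', kap L P (𝒩.s c) (𝒩.s c') * (1 - kap L P (𝒩.s c) (𝒩.s c')) *
      kap p Y (𝒩.t c) (𝒩.t c') = ∑ e, ∑ e', kap L P (𝒩.s e) (𝒩.s e') * kap p Y (𝒩.t e) (𝒩.t e')
    * (1 - kap L P (𝒩.s e) (𝒩.s e')) :=
    sum_congr rfl fun c _ => sum_congr rfl fun c' _ => by ring
  rw [h3]
  field_simp

theorem Kk_dis (hc : ∀ w v, Cross 𝒩 f (P w) (Y v)) {y y₀ : S} (h : Kk 𝒩 L p P Y y y₀ ≠ 0)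
    (hne : y ≠ y₀) (v : V) : ¬(y ∈ Y v ∧ y₀ ∈ Y v) := by
  rintro ⟨h1, h2⟩
  have hk : kap L P y y₀ ≠ 0 := by
    intro h0
    apply h
    unfold Kk
    rw [h0, zero_mul, zero_div]
  obtain ⟨w, hw1, hw2⟩ : ∃ w, y ∈ P w ∧ y₀ ∈ P w := by
    by_contra hno
    push Not at hno
    apply hk
    unfold kap
    have h3 : ∀ w, (if y ∈ P w ∧ y₀ ∈ P w then (1 : ℝ) else 0) = 0 := fun w =>
      if_neg fun h4 => hno w h4.1 h4.2
    simp only [h3, Ex_zero, mul_zero]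
  have h5 := (hc w v).inter
  have h6 := card_le_one.1 h5.le y (mem_inter.2 ⟨hw1, h1⟩) y₀ (mem_inter.2 ⟨hw2, h2⟩)
  exact hne h6

end

end AW
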