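import Pool.Agent.Lib_c1afad_aw.HitA

/-!
# [AW-H5] The race of two disjoint events
-/

open Finset

namespace AW

open scoped Classical

noncomputable section

variable {W : Type} [Fintype W] [Nonempty W]

/-- [AW-H5] Two disjoint events of probability `1 / L`: the second one is hit strictly before
the first one, and the first one is hit, with probability at least `1 / 2 - 2 exp (-q)`.
Proof: by `Ex_hv` for `Q ∨ Q'` and `φ = 1_{Q'}` the probability that `Q'` is hit, and before `Q`
(or `Q` is not hit) is `(1 - (1 - 2 / L) ^ k) / 2 ≥ (1 - exp (-q)) / 2`; and `Q` is not hit with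
probability at most `exp (-q)`. -/
theorem Ex_race {L q : ℕ} (hL : 1 ≤ L) (Q Q' : W → Prop) (hQ : pr Q = 1 / L) (hQ' : pr Q' = 1 / L)
    (hdis : ∀ w, ¬(Q w ∧ Q' w)) :
    1 / 2 - 2 * Real.exp (-q) ≤ Ex fun ω : Fin (L * q) → W =>
      if fh Q' ω < fh Q ω ∧ fh Q ω < L * q then (1 : ℝ) else 0 := by
  have hL0 : (0 : ℝ) < L := by exact_mod_cast hL
  set R : W → Prop := fun w => Q w ∨ Q' w with hR
  set φ : W → ℝ := fun w => if Q' w then 1 else 0 with hφ
  have hprR : pr R = 2 / L := by
    have e : pr R = pr Q + pr Q' := by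
      unfold pr
      rw [← Ex_add]
      refine Ex_congr fun w => ?_
      by_cases h1 : Q w
      · have h2 : ¬ Q' w := fun h => hdis w ⟨h1, h⟩
        simp [hR, h1, h2]
      · by_cases h2 : Q' w <;> simp [hR, h1, h2]
    rw [e, hQ, hQ']
    ring
  have hφR : Ex (fun w => @ite ℝ (R w) (Classical.propDecidable (R w)) (φ w) 0) = 1 / L := by
    rw [← hQ']
    unfold pr
    refine Ex_congr fun w => ?_
    by_cases h2 : Q' w
    · simp [hR, hφ, h2]
    · simp [hφ, h2]
  have hprle : pr R ≤ 1 := by
    have h : pr R ≤ Ex fun _ : W => (1 : ℝ) := by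
      unfold pr
      refine Ex_mono fun w => ?_
      split_ifs <;> norm_num
    rwa [Ex_const] at h
  have h1 := Ex_hv R φ (L * q)
  rw [hφR, hprR] at h1
  have h2 : Ex (fun ω : Fin (L * q) → W => hv R φ ω) = (1 - (1 - 2 / (L : ℝ)) ^ (L * q)) / 2 := by
    field_simp at h1 ⊢
    linarith
  have h3 : (1 - 2 / (L : ℝ)) ^ (L * q) ≤ Real.exp (-q) := by
    refine pow_le_exp ?_ ?_
    · rw [← hprR]; linarith
    · rw [mul_div_cancel₀ _ hL0.ne']; norm_num
  have h4 : Ex (fun ω : Fin (L * q) → W => if fh Q ω = L * q then (1 : ℝ) else 0) ≤ Real.exp (-q) := by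
    rw [Ex_nohit]
    refine pow_le_exp ?_ ?_
    · have h5 : pr Q ≤ Ex fun _ : W => (1 : ℝ) := by
        unfold pr
        refine Ex_mono fun w => ?_
        split_ifs <;> norm_num
      rw [Ex_const] at h5
      linarith
    · rw [hQ, mul_one_div_cancel hL0.ne']
  have h6 : Ex (fun ω : Fin (L * q) → W => hv R φ ω) ≤
      Ex (fun ω : Fin (L * q) → W => (if fh Q' ω < fh Q ω ∧ fh Q ω < L * q then (1 : ℝ) else 0) +
        if fh Q ω = L * q then (1 : ℝ) else 0) := by
    refine Ex_mono fun ω => ?_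
    have hnn : (0 : ℝ) ≤ (if fh Q' ω < fh Q ω ∧ fh Q ω < L * q then (1 : ℝ) else 0) +
        if fh Q ω = L * q then (1 : ℝ) else 0 := by
      split_ifs <;> norm_num
    unfold hv
    by_cases hk : fh R ω < L * q
    · rw [dif_pos hk]
      by_cases hq : Q' (ω ⟨fh R ω, hk⟩)
      · have e1 : φ (ω ⟨fh R ω, hk⟩) = 1 := by simp [hφ, hq]
        rw [e1]
        have e2 : fh Q' ω ≤ fh R ω := fh_le_of (j := ⟨fh R ω, hk⟩) hq
        by_cases hQk : fh Q ω < L * q
        · have e3 : fh R ω ≤ fh Q ω := fh_le_of (j := ⟨fh Q ω, hQk⟩) (Or.inl (fh_spec hQk))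
          have e4 : fh Q' ω < fh Q ω := by
            rcases lt_or_eq_of_le e3 with h | h
            · exact lt_of_le_of_lt e2 h
            · exfalso
              have e5 : Q (ω ⟨fh R ω, hk⟩) := by
                have := fh_spec hQk
                simp only [← h] at this
                exact this
              exact hdis _ ⟨e5, hq⟩
          rw [if_pos ⟨e4, hQk⟩]
          split_ifs <;> norm_num
        · have e3 : fh Q ω = L * q := le_antisymm (fh_le Q ω) (not_lt.1 hQk)
          rw [if_pos e3]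
          split_ifs <;> norm_num
      · have e1 : φ (ω ⟨fh R ω, hk⟩) = 0 := by simp [hφ, hq]
        rw [e1]
        exact hnn
    · rw [dif_neg hk]
      exact hnn
  rw [Ex_add, h2] at h6
  have h7 := Real.exp_pos (-(q : ℝ))
  linarith

end

end AW
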