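import Pool.Agent.Lib_c1afad_aw.AvgD
import Pool.Agent.Lib_c1afad_aw.AvgE
import Pool.Agent.Lib_c1afad_aw.AvgF
import Pool.Agent.Lib_c1afad_aw.AvgG
import Pool.Agent.Lib_c1afad_aw.Hit

/-!
# [AW-A10] The second average
-/

open Finset

namespace AW

open scoped Classical

noncomputable section

variable {S C A : Type} [Fintype S] [Fintype C] [Fintype A]

variable {𝒩 : Net S C} {f : C → A} {p L : ℕ} {W V : Type} [Fintype W] [Fintype V]
  {P : W → Finset S} {Y : V → Finset S}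

/-- [AW-A10] The second average.  Let `P'` be the next generation of `P` and
`K = Kk 𝒩 L p P' Y`.  For samples `ω, υ` let `Fn y y₀ = (if y₀ is hit before y (for Y, υ) and y is hit
then gt y else 0) - lam * dd y y₀`.  As `K y ·` is a probability vector there is `ref y` with
`∑ y₀, K y y₀ * Fn y y₀ ≤ Fn y (ref y)`.  With `card_Dset`, `gt_le_Gn`, `blk_le` and `comp_of_sys`
it is enough that some `ω, υ` has `∑ y, ∑ y₀, K y y₀ * Fn y y₀ - #unc` at least as large as the left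
side.  Take the average over `ω, υ` (independent): `Ex_gt`, `gt_nonneg`, `Ex_race` with
`Kk_dis` (the sets `y ∈ Y v`, `y₀ ∈ Y v` are disjoint if `K y y₀ ≠ 0`, `y ≠ y₀`; for `y₀ = y` the
event is empty), `∑_{y₀ ≠ y} K y y₀ = 1 - alpha 𝒩.rev p Y y` by `Kk_sum`, `Kk_self`;
`Ex_dd` and `Kk_Del` for the second part, `Ex_unc` for the last. -/
theorem avg2 (hA : Fintype.card A = 𝒩.n) (hW : Sys 𝒩 f p W P) (hV : Sys 𝒩.rev f L V Y)
    (hpL : p * L = Fintype.card S) (hp : 1 ≤ p) (hL : 1 ≤ L)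
    (hc : ∀ w v, Cross 𝒩 f (P w) (Y v)) (q : ℕ) (hq : 2 * Real.exp (-q) ≤ 1 / 2)
    {lam : ℝ} (hlam : 0 ≤ lam) :
    ∃ (ω : Fin (L * q) → W) (υ : Fin (p * q) → V) (ref : S → S),
      (1 / 2 - 2 * Real.exp (-q)) * (1 - Real.exp (-q)) * 𝒩.n
          * (∑ y, (1 - alpha 𝒩 L P y) * (1 - alpha 𝒩.rev p Y y))
        - 2 * lam * q * Del 𝒩 L p (fun q : W × A => fw 𝒩 f (P q.1) q.2) Y
        - 2 * Real.exp (-q) * (𝒩.n * Fintype.card S)
        ≤ Gn 𝒩 (fun j => P (ω j)) (fun i => Y (υ i)) ref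
          - #(unc 𝒩 (fun j => P (ω j)) (fun i => Y (υ i)))
          - lam * #(Dset 𝒩 f (fun j => P (ω j)) ref) := by
  have : Nonempty W := hW.ne
  have : Nonempty V := hV.ne
  have : Nonempty S := 𝒩.ne
  obtain ⟨P', hP'⟩ : ∃ P' : W × A → Finset S, P' = fun q => fw 𝒩 f (P q.1) q.2 := ⟨_, rfl⟩
  have hW' : Sys 𝒩 f p (W × A) P' := by rw [hP']; exact hW.next hA
  have hc' : ∀ w v, Cross 𝒩 f (P' w) (Y v) := fun w v => by
    rw [hP']
    exact (hc w.1 v).next (hW.le_one w.1 w.2)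
  have hLp : L * p = Fintype.card S := by rw [mul_comm]; exact hpL
  obtain ⟨K, hK⟩ : ∃ K : S → S → ℝ, K = fun y y₀ => Kk 𝒩 L p P' Y y y₀ := ⟨_, rfl⟩
  have hK0 : ∀ y y₀, 0 ≤ K y y₀ := fun y y₀ => by
    rw [hK]
    exact Kk_nonneg y y₀
  have hK1 : ∀ y, ∑ y₀, K y y₀ = 1 := fun y => by
    rw [hK]
    exact Kk_sum hA hW' hV hpL hc' y
  have hKs : ∀ y, K y y = alpha 𝒩.rev p Y y := fun y => by
    rw [hK]
    exact Kk_self hW' hpL y
  have hKD : 𝒩.n * ∑ y, ∑ y₀, K y y₀ * (1 - kap L P' y y₀) = Del 𝒩 L p P' Y := by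
    rw [hK]
    exact Kk_Del
  have hKd : ∀ y y₀, K y y₀ ≠ 0 → y ≠ y₀ → ∀ v, ¬(y ∈ Y v ∧ y₀ ∈ Y v) := fun y y₀ h hne v => by
    rw [hK] at h
    exact Kk_dis hc' h hne v
  obtain ⟨Av, hAv⟩ : ∃ Av : (Fin (p * q) → V) → S → S → ℝ, Av = fun υ y y₀ =>
      if fh (fun v => y₀ ∈ Y v) υ < fh (fun v => y ∈ Y v) υ ∧ fh (fun v => y ∈ Y v) υ < p * q
        then 1 else 0 := ⟨_, rfl⟩
  -- the choice of the reference states
  have step1 : ∀ (ω : Fin (L * q) → W) (υ : Fin (p * q) → V), ∃ ref : S → S,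
      ∑ y, ∑ y₀, K y y₀ * (Av υ y y₀ * gt 𝒩 (fun j => P (ω j)) y
          - lam * (dd 𝒩 f (fun j => P (ω j)) y y₀ : ℝ))
        ≤ Gn 𝒩 (fun j => P (ω j)) (fun i => Y (υ i)) ref
          - lam * #(Dset 𝒩 f (fun j => P (ω j)) ref) := by
    intro ω υ
    have h1 : ∀ y, ∃ y₁, ∑ y₀, K y y₀ * (Av υ y y₀ * gt 𝒩 (fun j => P (ω j)) y
          - lam * (dd 𝒩 f (fun j => P (ω j)) y y₀ : ℝ))
        ≤ Av υ y y₁ * gt 𝒩 (fun j => P (ω j)) y
          - lam * (dd 𝒩 f (fun j => P (ω j)) y y₁ : ℝ) := by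
      intro y
      obtain ⟨y₁, -, hy₁⟩ := exists_max_image (univ : Finset S)
        (fun y₀ => Av υ y y₀ * gt 𝒩 (fun j => P (ω j)) y
          - lam * (dd 𝒩 f (fun j => P (ω j)) y y₀ : ℝ)) univ_nonempty
      refine ⟨y₁, ?_⟩
      calc ∑ y₀, K y y₀ * (Av υ y y₀ * gt 𝒩 (fun j => P (ω j)) y
              - lam * (dd 𝒩 f (fun j => P (ω j)) y y₀ : ℝ))
          ≤ ∑ y₀, K y y₀ * (Av υ y y₁ * gt 𝒩 (fun j => P (ω j)) y
              - lam * (dd 𝒩 f (fun j => P (ω j)) y y₁ : ℝ)) :=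
            sum_le_sum fun y₀ _ => mul_le_mul_of_nonneg_left (hy₁ y₀ (mem_univ _)) (hK0 y y₀)
        _ = _ := by rw [← sum_mul, hK1, one_mul]
    choose ref href using h1
    refine ⟨ref, (sum_le_sum fun y _ => href y).trans ?_⟩
    rw [sum_sub_distrib, ← mul_sum, card_Dset, Nat.cast_sum]
    have h2 := gt_le_Gn 𝒩 (fun j => P (ω j)) (fun i => Y (υ i)) ref (blk_le hA hc ω υ ref)
    have h3 : ∑ y, Av υ y (ref y) * gt 𝒩 (fun j => P (ω j)) y
        = ∑ y, (if Vld (fun i => Y (υ i)) ref y then gt 𝒩 (fun j => P (ω j)) y else 0) := by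
      refine sum_congr rfl fun y _ => ?_
      rw [hAv]
      simp only [Vld, fi_comp]
      split_ifs
      · rw [one_mul]
      · rw [zero_mul]
    rw [h3]
    linarith
  -- the average
  obtain ⟨ω, hω⟩ := exists_Ex_le (fun ω : Fin (L * q) → W => Ex fun υ : Fin (p * q) → V =>
    (∑ y, ∑ y₀, K y y₀ * (Av υ y y₀ * gt 𝒩 (fun j => P (ω j)) y
          - lam * (dd 𝒩 f (fun j => P (ω j)) y y₀ : ℝ)))
      - (#(unc 𝒩 (fun j => P (ω j)) (fun i => Y (υ i))) : ℝ))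
  obtain ⟨υ, hυ⟩ := exists_Ex_le (fun υ : Fin (p * q) → V =>
    (∑ y, ∑ y₀, K y y₀ * (Av υ y y₀ * gt 𝒩 (fun j => P (ω j)) y
          - lam * (dd 𝒩 f (fun j => P (ω j)) y y₀ : ℝ)))
      - (#(unc 𝒩 (fun j => P (ω j)) (fun i => Y (υ i))) : ℝ))
  obtain ⟨ref, href⟩ := step1 ω υ
  refine ⟨ω, υ, ref, ?_⟩
  have h4 := hω.trans hυ
  simp only [Ex_sub, Ex_sum, Ex_mul, Ex_mul_right, Ex_const] at h4
  have hunc := Ex_unc hW hV hpL hp hL q
  -- lower bound for the main term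
  have hmain : ∀ y, (1 / 2 - 2 * Real.exp (-q)) * (1 - Real.exp (-q)) * 𝒩.n
      * ((1 - alpha 𝒩 L P y) * (1 - alpha 𝒩.rev p Y y))
      ≤ ∑ y₀, K y y₀ * ((Ex fun υ : Fin (p * q) → V => Av υ y y₀)
        * Ex fun ω : Fin (L * q) → W => gt 𝒩 (fun j => P (ω j)) y) := by
    intro y
    have hg := Ex_gt (𝒩 := 𝒩) hW hpL hL q y
    have hg0 : 0 ≤ Ex fun ω : Fin (L * q) → W => gt 𝒩 (fun j => P (ω j)) y :=
      Ex_nonneg fun ω => gt_nonneg _ _
    have h5 : ∀ y₀, (if y₀ = y then 0 else K y y₀)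
        * ((1 / 2 - 2 * Real.exp (-q)) * ((1 - Real.exp (-q)) * 𝒩.n * (1 - alpha 𝒩 L P y)))
        ≤ K y y₀ * ((Ex fun υ : Fin (p * q) → V => Av υ y y₀)
        * Ex fun ω : Fin (L * q) → W => gt 𝒩 (fun j => P (ω j)) y) := by
      intro y₀
      by_cases hy : y₀ = y
      · rw [if_pos hy, zero_mul]
        refine mul_nonneg (hK0 _ _) (mul_nonneg (Ex_nonneg fun υ => ?_) hg0)
        rw [hAv]
        simp only
        split_ifs <;> norm_num
      · rw [if_neg hy]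
        by_cases hK00 : K y y₀ = 0
        · rw [hK00, zero_mul, zero_mul]
        · refine mul_le_mul_of_nonneg_left ?_ (hK0 y y₀)
          have hp1 : ∀ x, pr (fun v => x ∈ Y v) = 1 / (p : ℝ) := fun x => by
            rw [← hV.mem_prob hLp x]
            unfold pr
            congr!
          have h6 := Ex_race (W := V) (q := q) hp (fun v => y ∈ Y v) (fun v => y₀ ∈ Y v)
            (hp1 y) (hp1 y₀) (hKd y y₀ hK00 (Ne.symm hy))
          rw [hAv]
          refine mul_le_mul h6 hg ?_ ?_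
          · refine mul_nonneg (mul_nonneg ?_ (Nat.cast_nonneg _)) ?_
            · exact sub_nonneg.2 (Real.exp_le_one_iff.2 (by simp))
            · exact sub_nonneg.2 (hW.alpha_le hpL y)
          · refine Ex_nonneg fun υ => ?_
            simp only
            split_ifs <;> norm_num
    have h7 : ∑ y₀, (if y₀ = y then 0 else K y y₀) = 1 - alpha 𝒩.rev p Y y := by
      have h8 : ∀ y₀, (if y₀ = y then 0 else K y y₀) = K y y₀ - if y₀ = y then K y y₀ else 0 := by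
        intro y₀
        split_ifs
        · rw [sub_self]
        · rw [sub_zero]
      rw [sum_congr rfl fun y₀ _ => h8 y₀, sum_sub_distrib, hK1, sum_ite_eq' univ y,
        if_pos (mem_univ y), hKs]
    have h9 := sum_le_sum fun y₀ (_ : y₀ ∈ (univ : Finset S)) => h5 y₀
    rw [← sum_mul, h7] at h9
    refine le_trans (le_of_eq ?_) h9
    ring
  have hdd : ∀ y y₀, (Ex fun ω : Fin (L * q) → W => (dd 𝒩 f (fun j => P (ω j)) y y₀ : ℝ))
      = 2 * 𝒩.n * q * (1 - kap L P' y y₀) := fun y y₀ => by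
    rw [hP']
    exact Ex_dd hA hW hpL hL q y y₀
  have h10 : ∑ y, ∑ y₀, K y y₀ * ((Ex fun υ : Fin (p * q) → V => Av υ y y₀)
        * (Ex fun ω : Fin (L * q) → W => gt 𝒩 (fun j => P (ω j)) y)
        - lam * Ex fun ω : Fin (L * q) → W => (dd 𝒩 f (fun j => P (ω j)) y y₀ : ℝ))
      = (∑ y, ∑ y₀, K y y₀ * ((Ex fun υ : Fin (p * q) → V => Av υ y y₀)
        * Ex fun ω : Fin (L * q) → W => gt 𝒩 (fun j => P (ω j)) y))
        - 2 * lam * q * Del 𝒩 L p P' Y := by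
    rw [← hKD]
    simp only [mul_sum]
    rw [← sum_sub_distrib]
    refine sum_congr rfl fun y _ => ?_
    rw [← sum_sub_distrib]
    refine sum_congr rfl fun y₀ _ => ?_
    rw [hdd]
    ring
  rw [h10] at h4
  have h11 := sum_le_sum fun y (_ : y ∈ (univ : Finset S)) => hmain y
  rw [← mul_sum] at h11
  rw [← hP']
  linarith

end

end AW
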