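import Pool.Agent.Lib_c1afad_aw.AvgDefs

/-!
# [AW-A1], [AW-A2], [AW-A3] Elementary facts on the gain
-/

open Finset

namespace AW

open scoped Classical

noncomputable section

variable {S C A : Type} [Fintype S] [Fintype C] [Fintype A]

/-- [AW-A1] -/
theorem card_Dset (𝒩 : Net S C) (f : C → A) {k : ℕ} (P : Fin k → Finset S) (ref : S → S) :
    #(Dset 𝒩 f P ref) = ∑ y, dd 𝒩 f P y (ref y) := by
  simp only [Dset, dd, card_filter, Fintype.sum_prod_type]

theorem Dset_id (𝒩 : Net S C) (f : C → A) {k : ℕ} (P : Fin k → Finset S) :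
    Dset 𝒩 f P id = ∅ := by
  simp [Dset]

/-- [AW-A2] The gain is at least the sum of the gains at the valid states, if all blocks have at most
`n` cells. -/
theorem gt_le_Gn (𝒩 : Net S C) {k K : ℕ} (P : Fin k → Finset S) (Y : Fin K → Finset S)
    (ref : S → S) (hb : ∀ e ∈ (unc 𝒩 P Y)ᶜ, #(blkS 𝒩 P Y ref e) ≤ 𝒩.n) :
    ∑ y, (if Vld Y ref y then gt 𝒩 P y else 0) ≤ Gn 𝒩 P Y ref := by
  have hn : (0 : ℝ) < 𝒩.n := by exact_mod_cast 𝒩.n_pos
  have h1 : ∀ y, (if Vld Y ref y then gt 𝒩 P y else 0) =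
      ∑ e with 𝒩.t e = y, (if Vld Y ref (𝒩.t e) ∧ fi P (𝒩.s e) < k then
        (1 - (#(blkS 𝒩 P Y ref e) : ℝ) / 𝒩.n) else 0) := by
    intro y
    by_cases hy : Vld Y ref y
    · rw [if_pos hy, gt, ← filter_filter, sum_filter]
      refine sum_congr rfl fun e he => ?_
      have hte : 𝒩.t e = y := (mem_filter.1 he).2
      by_cases hk : fi P (𝒩.s e) < k
      · rw [if_pos hk, if_pos ⟨by rw [hte]; exact hy, hk⟩, blkS, if_pos (by rw [hte]; exact hy), hte]
      · rw [if_neg hk, if_neg fun h => hk h.2]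
    · rw [if_neg hy]
      symm
      refine sum_eq_zero fun e he => ?_
      have hte : 𝒩.t e = y := (mem_filter.1 he).2
      rw [if_neg]
      intro h
      rw [hte] at h
      exact hy h.1
  rw [sum_congr rfl fun y _ => h1 y, sum_fiberwise univ 𝒩.t, ← sum_filter, Gn]
  refine sum_le_sum_of_subset_of_nonneg ?_ ?_
  · intro e he
    rw [mem_filter] at he
    rw [mem_compl, unc, mem_filter]
    intro h
    exact h.2 ⟨he.2.2, he.2.1.2⟩
  · intro e he _
    have h2 := hb e he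
    have h3 : (#(blkS 𝒩 P Y ref e) : ℝ) ≤ 𝒩.n := by exact_mod_cast h2
    have h4 : (#(blkS 𝒩 P Y ref e) : ℝ) / 𝒩.n ≤ 1 := (div_le_one hn).2 h3
    linarith

variable {𝒩 : Net S C} {f : C → A} {p L : ℕ} {W V : Type} [Fintype W] [Fintype V]
  {P : W → Finset S} {Y : V → Finset S}

theorem comp_of_sys (hW : Sys 𝒩 f p W P) (hc : ∀ w v, Cross 𝒩 f (P w) (Y v)) {k K : ℕ}
    (ω : Fin k → W) (υ : Fin K → V) (ref : S → S) :
    Comp 𝒩 (fun j => P (ω j)) (fun i => Y (υ i)) ref (Dset 𝒩 f (fun j => P (ω j)) ref) f where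
  inj := fun j i => (hc (ω j) (υ i)).injOn
  surj := fun j i => (hc (ω j) (υ i)).exists
  inj' := fun j y => hW.injOn (ω j) y
  dif := fun y j a => by simp [Dset]

/-- [AW-A3] The blocks have at most `n` cells: they lie in the set of cells from `P j` to `Y i`
(or in the set of cells coming into a state). -/
theorem blk_le (hA : Fintype.card A = 𝒩.n) (hc : ∀ w v, Cross 𝒩 f (P w) (Y v)) {k K : ℕ}
    (ω : Fin k → W) (υ : Fin K → V) (ref : S → S)
    (e : C) (he : e ∈ (unc 𝒩 (fun j => P (ω j)) (fun i => Y (υ i)))ᶜ) :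
    #(blkS 𝒩 (fun j => P (ω j)) (fun i => Y (υ i)) ref e) ≤ 𝒩.n := by
  rw [mem_compl, unc, mem_filter] at he
  have he' : fi (fun j => P (ω j)) (𝒩.s e) < k ∧ fi (fun i => Y (υ i)) (𝒩.t e) < K := by
    by_contra h
    exact he ⟨mem_univ _, h⟩
  obtain ⟨h1, h2⟩ := he'
  unfold blkS
  split_ifs with hv
  · rw [← 𝒩.ct (𝒩.t e)]
    apply card_le_card
    intro e' he'
    rw [mem_filter] at he' ⊢
    exact ⟨mem_univ _, he'.2.1⟩
  · rw [← Cross.card hA (hc (ω ⟨_, h1⟩) (υ ⟨_, h2⟩))]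
    apply card_le_card
    intro e' he'
    rw [mem_filter] at he' ⊢
    obtain ⟨_, h3, h4, _⟩ := he'
    refine ⟨mem_univ _, ?_, ?_⟩
    · have h5 : fi (fun j => P (ω j)) (𝒩.s e') < k := by rw [h3]; exact h1
      have h6 := fi_mem h5
      have h7 : (⟨fi (fun j => P (ω j)) (𝒩.s e'), h5⟩ : Fin k) = ⟨fi (fun j => P (ω j)) (𝒩.s e), h1⟩ :=
        Fin.ext h3
      rw [h7] at h6
      exact h6
    · have h5 : fi (fun i => Y (υ i)) (𝒩.t e') < K := by rw [h4]; exact h2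
      have h6 := fi_mem h5
      have h7 : (⟨fi (fun i => Y (υ i)) (𝒩.t e'), h5⟩ : Fin K) = ⟨fi (fun i => Y (υ i)) (𝒩.t e), h2⟩ :=
        Fin.ext h4
      rw [h7] at h6
      exact h6

end

end AW
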