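import Pool.Agent.Lib_c1afad_aw.AvgDefs

/-!
# [AW-A4] The uncovered cells
-/

open Finset

namespace AW

open scoped Classical

noncomputable section

variable {S C A : Type} [Fintype S] [Fintype C] [Fintype A]

variable {𝒩 : Net S C} {f : C → A} {p L : ℕ} {W V : Type} [Fintype W] [Fintype V]
  {P : W → Finset S} {Y : V → Finset S}

private theorem unc_le_AvgB {k K : ℕ} (P' : Fin k → Finset S) (Y' : Fin K → Finset S) :
    (#(unc 𝒩 P' Y') : ℝ) ≤ ∑ e : C, ((if fi P' (𝒩.s e) = k then (1 : ℝ) else 0)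
      + (if fi Y' (𝒩.t e) = K then (1 : ℝ) else 0)) := by
  unfold unc
  rw [card_filter]
  push_cast
  refine sum_le_sum fun e _ => ?_
  have h1 := fi_le P' (𝒩.s e)
  have h2 := fi_le Y' (𝒩.t e)
  by_cases h3 : fi P' (𝒩.s e) = k
  · rw [if_pos h3]
    have h4 : (0 : ℝ) ≤ (if fi Y' (𝒩.t e) = K then (1 : ℝ) else 0) := by split_ifs <;> norm_num
    have h5 : (if ¬(fi P' (𝒩.s e) < k ∧ fi Y' (𝒩.t e) < K) then (1 : ℝ) else 0) ≤ 1 := by
      split_ifs <;> norm_num
    linarith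
  · rw [if_neg h3]
    by_cases h4 : fi Y' (𝒩.t e) = K
    · rw [if_pos h4]
      have h5 : (if ¬(fi P' (𝒩.s e) < k ∧ fi Y' (𝒩.t e) < K) then (1 : ℝ) else 0) ≤ 1 := by
        split_ifs <;> norm_num
      linarith
    · rw [if_neg h4, if_neg]
      · norm_num
      · rw [not_not]
        omega

private theorem nohit_le_AvgB {𝒩' : Net S C} {U : Type} [Fintype U] {Z : U → Finset S} {a b : ℕ}
    (h : Sys 𝒩' f a U Z) (hab : a * b = Fintype.card S) (hb : 1 ≤ b) (q : ℕ) (x : S) :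
    Ex (fun ω : Fin (b * q) → U => if fi (fun j => Z (ω j)) x = b * q then (1 : ℝ) else 0)
      ≤ Real.exp (-q) := by
  have hU := h.ne
  have h1 : Ex (fun ω : Fin (b * q) → U => if fi (fun j => Z (ω j)) x = b * q then (1 : ℝ) else 0)
      = (1 - pr fun w => x ∈ Z w) ^ (b * q) := by
    rw [← Ex_nohit (fun w => x ∈ Z w) (b * q)]
    rfl
  have hb' : (1 : ℝ) ≤ b := by exact_mod_cast hb
  have h2 : pr (fun w => x ∈ Z w) = 1 / b := by
    rw [← h.mem_prob hab x]
    unfold pr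
    refine Ex_congr fun w => ?_
    by_cases hx : x ∈ Z w
    · rw [if_pos hx, if_pos hx]
    · rw [if_neg hx, if_neg hx]
  rw [h1, h2]
  apply pow_le_exp
  · rw [sub_nonneg, div_le_one (by linarith)]
    exact hb'
  · rw [mul_one_div, div_self (by linarith)]

/-- [AW-A4] The expected number of uncovered cells (`Ex_nohit`, `pow_le_exp`, `Sys.mem_prob`). -/
theorem Ex_unc (hW : Sys 𝒩 f p W P) (hV : Sys 𝒩.rev f L V Y) (hpL : p * L = Fintype.card S)
    (hp : 1 ≤ p) (hL : 1 ≤ L) (q : ℕ) :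
    (Ex fun ω : Fin (L * q) → W => Ex fun υ : Fin (p * q) → V =>
      (#(unc 𝒩 (fun j => P (ω j)) (fun i => Y (υ i))) : ℝ))
      ≤ 2 * Real.exp (-q) * (𝒩.n * Fintype.card S) := by
  have hWn := hW.ne
  have hVn := hV.ne
  have h1 : (Ex fun ω : Fin (L * q) → W => Ex fun υ : Fin (p * q) → V =>
      (#(unc 𝒩 (fun j => P (ω j)) (fun i => Y (υ i))) : ℝ))
      ≤ Ex fun ω : Fin (L * q) → W => Ex fun υ : Fin (p * q) → V =>
        ∑ e : C, ((if fi (fun j => P (ω j)) (𝒩.s e) = L * q then (1 : ℝ) else 0)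
          + (if fi (fun i => Y (υ i)) (𝒩.t e) = p * q then (1 : ℝ) else 0)) :=
    Ex_mono fun ω => Ex_mono fun υ => unc_le_AvgB _ _
  have h2 : (Ex fun ω : Fin (L * q) → W => Ex fun υ : Fin (p * q) → V =>
        ∑ e : C, ((if fi (fun j => P (ω j)) (𝒩.s e) = L * q then (1 : ℝ) else 0)
          + (if fi (fun i => Y (υ i)) (𝒩.t e) = p * q then (1 : ℝ) else 0)))
      = ∑ e : C, ((Ex fun ω : Fin (L * q) → W =>
            (if fi (fun j => P (ω j)) (𝒩.s e) = L * q then (1 : ℝ) else 0))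
          + Ex fun υ : Fin (p * q) → V =>
            (if fi (fun i => Y (υ i)) (𝒩.t e) = p * q then (1 : ℝ) else 0)) := by
    simp only [Ex_sum, Ex_add, Ex_const]
  rw [h2] at h1
  refine h1.trans ?_
  have h3 : ∀ e : C, ((Ex fun ω : Fin (L * q) → W =>
            (if fi (fun j => P (ω j)) (𝒩.s e) = L * q then (1 : ℝ) else 0))
          + Ex fun υ : Fin (p * q) → V =>
            (if fi (fun i => Y (υ i)) (𝒩.t e) = p * q then (1 : ℝ) else 0))
        ≤ 2 * Real.exp (-q) := by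
    intro e
    have h4 := nohit_le_AvgB hW hpL hL q (𝒩.s e)
    have h5 := nohit_le_AvgB hV (by rw [mul_comm]; exact hpL) hp q (𝒩.t e)
    linarith
  refine (sum_le_sum fun e _ => h3 e).trans (le_of_eq ?_)
  rw [sum_const, card_univ, 𝒩.card_C, nsmul_eq_mul]
  push_cast
  ring

end

end AW
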