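import Pool.Agent.Lib_c1afad_aw.AvgA

/-!
# [AW-A5] Pointwise bound of the gain
-/

open Finset

namespace AW

open scoped Classical

noncomputable section

variable {S C A : Type} [Fintype S] [Fintype C] [Fintype A]

variable {𝒩 : Net S C} {f : C → A} {p L : ℕ} {W V : Type} [Fintype W] [Fintype V]
  {P : W → Finset S} {Y : V → Finset S}

/-- [AW-A5] Pointwise bound for the gain with trivial references (`id`, no state is valid).  For a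
covered cell `e`, with `j = fi P (s e)`, `i = fi Y (t e)`, there are exactly `n` cells `e'` with
`s e' ∈ P j`, `t e' ∈ Y i`, among them the block of `e` and all those with
`fi P (s e') < j`. -/
theorem Gn_id_ge (hA : Fintype.card A = 𝒩.n) (hc : ∀ w v, Cross 𝒩 f (P w) (Y v)) {k K : ℕ}
    (ω : Fin k → W) (υ : Fin K → V) :
    (∑ e, ∑ e', (if fh (fun w => 𝒩.s e' ∈ P w) ω < fh (fun w => 𝒩.s e ∈ P w) ω then
        hv (fun w => 𝒩.s e ∈ P w) (fun w => if 𝒩.s e' ∈ P w then 1 else 0) ω else 0)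
      * hv (fun v => 𝒩.t e ∈ Y v) (fun v => if 𝒩.t e' ∈ Y v then 1 else 0) υ) / 𝒩.n
      ≤ Gn 𝒩 (fun j => P (ω j)) (fun i => Y (υ i)) id := by
  have hvld : ∀ y : S, ¬ Vld (fun i => Y (υ i)) id y := fun y h => lt_irrefl _ h.1
  have hn : (0 : ℝ) < 𝒩.n := by exact_mod_cast 𝒩.n_pos
  unfold Gn
  rw [Finset.sum_div, ← Finset.sum_add_sum_compl (unc 𝒩 (fun j => P (ω j)) (fun i => Y (υ i)))]
  have h0 : ∑ e ∈ unc 𝒩 (fun j => P (ω j)) (fun i => Y (υ i)),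
      (∑ e', (if fh (fun w => 𝒩.s e' ∈ P w) ω < fh (fun w => 𝒩.s e ∈ P w) ω then
        hv (fun w => 𝒩.s e ∈ P w) (fun w => if 𝒩.s e' ∈ P w then 1 else 0) ω else 0)
      * hv (fun v => 𝒩.t e ∈ Y v) (fun v => if 𝒩.t e' ∈ Y v then 1 else 0) υ) / (𝒩.n : ℝ) = 0 := by
    refine Finset.sum_eq_zero fun e he => ?_
    have he' : ¬ (fh (fun w => 𝒩.s e ∈ P w) ω < k ∧ fh (fun v => 𝒩.t e ∈ Y v) υ < K) :=
      (Finset.mem_filter.1 he).2
    rw [Finset.sum_eq_zero, zero_div]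
    intro e' _
    by_cases h1 : fh (fun w => 𝒩.s e ∈ P w) ω < k
    · have h2 : ¬ fh (fun v => 𝒩.t e ∈ Y v) υ < K := fun h => he' ⟨h1, h⟩
      unfold hv
      rw [dif_neg h2, mul_zero]
    · have h3 : hv (fun w => 𝒩.s e ∈ P w) (fun w => if 𝒩.s e' ∈ P w then (1 : ℝ) else 0) ω = 0 := by
        unfold hv
        rw [dif_neg h1]
      rw [h3, ite_self, zero_mul]
  rw [h0, zero_add]
  refine Finset.sum_le_sum fun e he => ?_
  have he' : fh (fun w => 𝒩.s e ∈ P w) ω < k ∧ fh (fun v => 𝒩.t e ∈ Y v) υ < K := by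
    by_contra hcon
    exact (Finset.mem_compl.1 he) (Finset.mem_filter.2 ⟨Finset.mem_univ _, hcon⟩)
  obtain ⟨hj, hi⟩ := he'
  have hcard := (hc (ω ⟨_, hj⟩) (υ ⟨_, hi⟩)).card hA
  set Pj := P (ω ⟨_, hj⟩) with hPj
  set Yi := Y (υ ⟨_, hi⟩) with hYi
  have h1 : ∑ e', (if fh (fun w => 𝒩.s e' ∈ P w) ω < fh (fun w => 𝒩.s e ∈ P w) ω then
        hv (fun w => 𝒩.s e ∈ P w) (fun w => if 𝒩.s e' ∈ P w then (1 : ℝ) else 0) ω else 0)
      * hv (fun v => 𝒩.t e ∈ Y v) (fun v => if 𝒩.t e' ∈ Y v then (1 : ℝ) else 0) υ =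
      (#{e' | fh (fun w => 𝒩.s e' ∈ P w) ω < fh (fun w => 𝒩.s e ∈ P w) ω ∧ 𝒩.s e' ∈ Pj ∧ 𝒩.t e' ∈ Yi} : ℝ) := by
    rw [Finset.card_filter]
    push_cast
    refine Finset.sum_congr rfl fun e' _ => ?_
    have h2 : hv (fun w => 𝒩.s e ∈ P w) (fun w => if 𝒩.s e' ∈ P w then (1 : ℝ) else 0) ω =
        if 𝒩.s e' ∈ Pj then 1 else 0 := by
      unfold hv
      rw [dif_pos hj]
    have h3 : hv (fun v => 𝒩.t e ∈ Y v) (fun v => if 𝒩.t e' ∈ Y v then (1 : ℝ) else 0) υ =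
        if 𝒩.t e' ∈ Yi then 1 else 0 := by
      unfold hv
      rw [dif_pos hi]
    rw [h2, h3]
    by_cases a1 : fh (fun w => 𝒩.s e' ∈ P w) ω < fh (fun w => 𝒩.s e ∈ P w) ω <;>
      by_cases a2 : 𝒩.s e' ∈ Pj <;> by_cases a3 : 𝒩.t e' ∈ Yi <;> simp [a1, a2, a3]
  have h2 : blkS 𝒩 (fun j => P (ω j)) (fun i => Y (υ i)) id e =
      univ.filter fun e' => fh (fun w => 𝒩.s e' ∈ P w) ω = fh (fun w => 𝒩.s e ∈ P w) ω ∧
        fh (fun v => 𝒩.t e' ∈ Y v) υ = fh (fun v => 𝒩.t e ∈ Y v) υ := by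
    unfold blkS
    rw [if_neg (hvld _)]
    ext e'
    simp only [Finset.mem_filter, Finset.mem_univ, true_and]
    constructor
    · rintro ⟨a1, a2, -⟩
      exact ⟨a1, a2⟩
    · rintro ⟨a1, a2⟩
      exact ⟨a1, a2, hvld _⟩
  have h3 : #{e' | fh (fun w => 𝒩.s e' ∈ P w) ω < fh (fun w => 𝒩.s e ∈ P w) ω ∧ 𝒩.s e' ∈ Pj ∧ 𝒩.t e' ∈ Yi} +
      #(blkS 𝒩 (fun j => P (ω j)) (fun i => Y (υ i)) id e) ≤ 𝒩.n := by
    rw [h2, ← Finset.card_union_of_disjoint, ← hcard]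
    · apply Finset.card_le_card
      intro e' he'
      rw [Finset.mem_union, Finset.mem_filter, Finset.mem_filter] at he'
      rw [Finset.mem_filter]
      refine ⟨Finset.mem_univ _, ?_⟩
      rcases he' with ⟨-, -, a2, a3⟩ | ⟨-, a1, a2⟩
      · exact ⟨a2, a3⟩
      · have hj' : fh (fun w => 𝒩.s e' ∈ P w) ω < k := a1 ▸ hj
        have hi' : fh (fun v => 𝒩.t e' ∈ Y v) υ < K := a2 ▸ hi
        have b1 := fh_spec hj'
        have b2 := fh_spec hi'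
        have c1 : (⟨fh (fun w => 𝒩.s e' ∈ P w) ω, hj'⟩ : Fin k) = ⟨fh (fun w => 𝒩.s e ∈ P w) ω, hj⟩ := Fin.ext a1
        have c2 : (⟨fh (fun v => 𝒩.t e' ∈ Y v) υ, hi'⟩ : Fin K) = ⟨fh (fun v => 𝒩.t e ∈ Y v) υ, hi⟩ := Fin.ext a2
        rw [c1] at b1
        rw [c2] at b2
        exact ⟨b1, b2⟩
    · rw [Finset.disjoint_left]
      intro e' a1 a2
      have b1 := (Finset.mem_filter.1 a1).2.1
      have b2 := (Finset.mem_filter.1 a2).2.1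
      omega
  rw [h1, div_le_iff₀ hn, sub_mul, div_mul_cancel₀ _ hn.ne', one_mul]
  have h4 : ((#{e' | fh (fun w => 𝒩.s e' ∈ P w) ω < fh (fun w => 𝒩.s e ∈ P w) ω ∧ 𝒩.s e' ∈ Pj ∧ 𝒩.t e' ∈ Yi} : ℕ) : ℝ) +
      ((#(blkS 𝒩 (fun j => P (ω j)) (fun i => Y (υ i)) id e) : ℕ) : ℝ) ≤ (𝒩.n : ℝ) := by exact_mod_cast h3
  linarith

end

end AW
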