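import Pool.Agent.Lib_c1afad_aw.HitA

/-!
# [AW-H4] The second state is hit before
-/

open Finset

namespace AW

open scoped Classical

noncomputable section

variable {W : Type} [Fintype W] [Nonempty W]

/-- The pointwise decomposition. -/
private theorem before_eq_HitB {W : Type} (Q Q' R : W → Prop) (hR : ∀ w, R w ↔ (Q w ∨ Q' w)) :
    ∀ {k : ℕ} (ω : Fin k → W),
    (if fh Q' ω < fh Q ω then hv Q (fun w => if Q' w then (1 : ℝ) else 0) ω else 0) =
      hv Q (fun w => if Q' w then (1 : ℝ) else 0) ω -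
        hv R (fun w => if Q w ∧ Q' w then (1 : ℝ) else 0) ω := by
  intro k
  induction k with
  | zero =>
    intro ω
    have h1 : fh Q ω = 0 := Nat.le_zero.1 (fh_le Q ω)
    have h2 : ¬ fh Q' ω < fh Q ω := by
      rw [h1]
      exact Nat.not_lt_zero _
    rw [if_neg h2]
    unfold hv
    rw [dif_neg (Nat.not_lt_zero _), dif_neg (Nat.not_lt_zero _), sub_zero]
  | succ k ih =>
    intro ω
    obtain ⟨w, ω', rfl⟩ : ∃ (w : W) (ω' : Fin k → W), ω = (Fin.cons w ω' : Fin (k + 1) → W) :=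
      ⟨ω 0, Fin.tail ω, (Fin.cons_self_tail ω).symm⟩
    rw [fh_cons, fh_cons, hv_cons, hv_cons]
    have h3 := ih ω'
    have hRw := hR w
    by_cases hQ : Q w
    · by_cases hQ' : Q' w
      · simp [hQ, hQ', hRw]
      · simp [hQ, hQ', hRw]
    · by_cases hQ' : Q' w
      · simp [hQ, hQ', hRw]
      · simp only [hQ, hQ', hRw, if_false, or_self, add_lt_add_iff_right]
        exact h3

/-- [AW-H4] Let `x` and `x'` be hit with probability `1 / L` each (`Q`, `Q'`), and let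
`κ = L * pr (Q ∧ Q')`.  The probability that the first set containing `x` contains
`x'` while `x'` was hit strictly before.
Proof.  The event is `A \ B` with `A` : `x` is hit, and `Q'` at its first hit, and `B` : the first hit
`j` of `Q ∨ Q'` exists and has both `Q` and `Q'`.  `Ex A = (1 - (1 - 1 / L) ^ k) * κ ≥ κ - κ ε`, and
`Ex B = (1 - (1 - (2 - κ) / L) ^ k) * κ / (2 - κ) ≤ κ / (2 - κ)`.
`κ - κ / (2 - κ) = κ (1 - κ) / (2 - κ) ≥ κ (1 - κ) / 2`. -/
theorem Ex_before {L q : ℕ} (hL : 1 ≤ L) (Q Q' : W → Prop) (hQ : pr Q = 1 / L) (hQ' : pr Q' = 1 / L) :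
    (L * pr (fun w => Q w ∧ Q' w)) * (1 - L * pr (fun w => Q w ∧ Q' w)) / 2
        - L * pr (fun w => Q w ∧ Q' w) * Real.exp (-q)
      ≤ Ex fun ω : Fin (L * q) → W =>
          if fh Q' ω < fh Q ω then hv Q (fun w => if Q' w then 1 else 0) ω else 0 := by
  have hL0 : (0 : ℝ) < L := by exact_mod_cast hL
  have hL1 : (1 : ℝ) ≤ L := by exact_mod_cast hL
  obtain ⟨R, hR⟩ : ∃ R : W → Prop, ∀ w, R w ↔ (Q w ∨ Q' w) := ⟨fun w => Q w ∨ Q' w, fun _ => Iff.rfl⟩
  rw [Ex_congr (fun ω : Fin (L * q) → W => before_eq_HitB Q Q' R hR ω), Ex_sub]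
  obtain ⟨P, hP⟩ : ∃ P, P = pr (fun w => Q w ∧ Q' w) := ⟨_, rfl⟩
  rw [← hP]
  -- values of the averages
  have e1 : (Ex fun w : W => if Q w then (if Q' w then (1 : ℝ) else 0) else 0) = P := by
    rw [hP, pr]
    refine Ex_congr fun w => ?_
    by_cases h1 : Q w <;> by_cases h2 : Q' w <;> simp [h1, h2]
  have e2 : (Ex fun w : W => if R w then (if Q w ∧ Q' w then (1 : ℝ) else 0) else 0) = P := by
    rw [hP, pr]
    refine Ex_congr fun w => ?_
    have hRw := hR w
    by_cases h1 : Q w <;> by_cases h2 : Q' w <;> simp [h1, h2, hRw]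
  have e3 : pr R = 2 / L - P := by
    have h1 : pr R = pr Q + pr Q' - P := by
      rw [hP]
      unfold pr
      rw [← Ex_add, ← Ex_sub]
      refine Ex_congr fun w => ?_
      have hRw := hR w
      by_cases h1 : Q w <;> by_cases h2 : Q' w <;> simp [h1, h2, hRw]
    rw [h1, hQ, hQ']
    ring
  have e4 : P ≤ 1 / L := by
    rw [← hQ, hP]
    unfold pr
    refine Ex_mono fun w => ?_
    by_cases h1 : Q w <;> by_cases h2 : Q' w <;> simp [h1, h2]
  have e5 : 0 ≤ P := by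
    rw [hP]
    unfold pr
    refine Ex_nonneg fun w => ?_
    split_ifs <;> norm_num
  have e6 : pr R ≤ 1 := by
    have h1 : pr R ≤ Ex fun _ : W => (1 : ℝ) := by
      unfold pr
      refine Ex_mono fun w => ?_
      split_ifs <;> norm_num
    rwa [Ex_const] at h1
  -- the two expectations
  have f1 := Ex_hv Q (fun w => if Q' w then (1 : ℝ) else 0) (L * q)
  rw [e1, hQ] at f1
  have f2 := Ex_hv R (fun w => if Q w ∧ Q' w then (1 : ℝ) else 0) (L * q)
  rw [e2] at f2
  obtain ⟨A, hA⟩ : ∃ A, A = Ex fun ω : Fin (L * q) → W => hv Q (fun w => if Q' w then (1 : ℝ) else 0) ω :=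
    ⟨_, rfl⟩
  obtain ⟨B, hB⟩ : ∃ B, B = Ex fun ω : Fin (L * q) → W =>
      hv R (fun w => if Q w ∧ Q' w then (1 : ℝ) else 0) ω := ⟨_, rfl⟩
  rw [← hA] at f1
  rw [← hB] at f2
  rw [← hA, ← hB]
  have g1 : (1 - 1 / (L : ℝ)) ^ (L * q) ≤ Real.exp (-q) :=
    pow_le_exp (by rw [sub_nonneg, div_le_one hL0]; exact hL1) (by rw [mul_one_div_cancel hL0.ne'])
  obtain ⟨κ, hκ⟩ : ∃ κ : ℝ, κ = L * P := ⟨_, rfl⟩
  have hκ0 : 0 ≤ κ := by rw [hκ]; positivity
  have hκ1 : κ ≤ 1 := by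
    rw [hκ]
    have := mul_le_mul_of_nonneg_left e4 hL0.le
    rwa [mul_one_div_cancel hL0.ne'] at this
  have g2 : κ * (1 - Real.exp (-q)) ≤ A := by
    have h1 : A = κ * (1 - (1 - 1 / (L : ℝ)) ^ (L * q)) := by
      have h2 : A = L * (1 / L * A) := by field_simp
      rw [h2, f1, hκ]
      ring
    rw [h1]
    exact mul_le_mul_of_nonneg_left (by linarith) hκ0
  have g3 : B * (2 - κ) ≤ κ := by
    have h1 : (0 : ℝ) ≤ (1 - pr R) ^ (L * q) := pow_nonneg (sub_nonneg.2 e6) _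
    have h2 : pr R * B ≤ P := by
      rw [f2]
      have := mul_le_mul_of_nonneg_right (sub_le_self (1 : ℝ) h1) e5
      rwa [one_mul] at this
    have h3 : L * (pr R * B) ≤ L * P := mul_le_mul_of_nonneg_left h2 hL0.le
    have h4 : L * (pr R * B) = B * (2 - κ) := by
      rw [e3, hκ]
      field_simp
    rw [h4, ← hκ] at h3
    exact h3
  have g4 : B ≤ κ / (2 - κ) := by
    rw [le_div_iff₀ (by linarith)]
    exact g3
  have g5 : κ * (1 - κ) / 2 ≤ κ - κ / (2 - κ) := by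
    have h1 : κ - κ / (2 - κ) = κ * (1 - κ) / (2 - κ) := by
      have h2 : 2 - κ ≠ 0 := by linarith
      field_simp
      ring
    rw [h1]
    exact div_le_div_of_nonneg_left (mul_nonneg hκ0 (by linarith)) (by linarith) (by linarith)
  rw [← hκ]
  linarith

end

end AW
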