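import Pool.Agent.Lib_c1afad_aw.AvgB
import Pool.Agent.Lib_c1afad_aw.AvgC
import Pool.Agent.Lib_c1afad_aw.HitB

/-!
# [AW-A6] The first average
-/

open Finset

namespace AW

open scoped Classical

noncomputable section

variable {S C A : Type} [Fintype S] [Fintype C] [Fintype A]

variable {𝒩 : Net S C} {f : C → A} {p L : ℕ} {W V : Type} [Fintype W] [Fintype V]
  {P : W → Finset S} {Y : V → Finset S}

omit [Fintype S] [Fintype C] [Fintype A] [Fintype V] in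
private theorem pr_eq_AvgD (Q : W → Prop) [DecidablePred Q] :
    pr Q = Ex fun w => if Q w then (1 : ℝ) else 0 := by
  unfold pr
  refine Ex_congr fun w => ?_
  by_cases h : Q w <;> simp [h]

private theorem ineq_AvgD {κ κ' ε b h : ℝ} (hκ0 : 0 ≤ κ) (hκ' : 0 ≤ κ')
    (hε0 : 0 ≤ ε) (hε1 : ε ≤ 1) (hb0 : 0 ≤ b) (hb : κ * (1 - κ) / 2 - κ * ε ≤ b)
    (hh : κ' * (1 - ε) ≤ h) : κ * κ' * (1 - κ) / 2 - 2 * ε * (κ * κ') ≤ b * h := by
  have h1 : 0 ≤ κ' * (1 - ε) := mul_nonneg hκ' (by linarith)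
  have h2 : (κ * (1 - κ) / 2 - κ * ε) * (κ' * (1 - ε)) ≤ b * h :=
    (mul_le_mul_of_nonneg_right hb h1).trans (mul_le_mul_of_nonneg_left hh hb0)
  refine le_trans ?_ h2
  have h3 : 0 ≤ κ * κ' := mul_nonneg hκ0 hκ'
  have h4 : (κ * (1 - κ) / 2 - κ * ε) * (κ' * (1 - ε)) -
      (κ * κ' * (1 - κ) / 2 - 2 * ε * (κ * κ')) = κ * κ' * (ε * (1 / 2 + κ / 2) + ε ^ 2) := by
    ring
  have h5 : 0 ≤ κ * κ' * (ε * (1 / 2 + κ / 2) + ε ^ 2) := by positivity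
  linarith

/-- [AW-A6] The first average.  Proof: average `Gn_id_ge` with `Ex_before` and `Ex_hv`: with
`ε = exp (-q)`, `κ = kap L P (s e) (s e')`, `κ' = kap p Y (t e) (t e')`,
the term of `e, e'` is at least `(κ (1 - κ) / 2 - κ ε) * κ' * (1 - ε) ≥ κ κ' (1 - κ) / 2 - 2 ε κ κ'`
(the first factor is replaced by the average, which is `≥ 0` and `≤ κ`).  Sum with
`sum_kap_kap`, and subtract `Ex_unc`.  Then take a pair `ω, υ` which is not below average. -/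
theorem avg1 (hA : Fintype.card A = 𝒩.n) (hW : Sys 𝒩 f p W P) (hV : Sys 𝒩.rev f L V Y)
    (hpL : p * L = Fintype.card S) (hp : 1 ≤ p) (hL : 1 ≤ L)
    (hc : ∀ w v, Cross 𝒩 f (P w) (Y v)) (q : ℕ) :
    ∃ (ω : Fin (L * q) → W) (υ : Fin (p * q) → V),
      Del 𝒩 L p P Y / 2 - 4 * Real.exp (-q) * (𝒩.n * Fintype.card S)
        ≤ Gn 𝒩 (fun j => P (ω j)) (fun i => Y (υ i)) id
          - #(unc 𝒩 (fun j => P (ω j)) (fun i => Y (υ i))) := by
  have hWne := hW.ne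
  have hVne := hV.ne
  have hpL' : L * p = Fintype.card S := by rw [mul_comm]; exact hpL
  have hn : (0 : ℝ) < 𝒩.n := by exact_mod_cast 𝒩.n_pos
  have hp0 : (0 : ℝ) < p := by exact_mod_cast hp
  obtain ⟨ε, hε⟩ : ∃ ε : ℝ, ε = Real.exp (-q) := ⟨_, rfl⟩
  have hε0 : 0 < ε := by rw [hε]; exact Real.exp_pos _
  have hε1 : ε ≤ 1 := by
    rw [hε, Real.exp_le_one_iff]
    exact neg_nonpos.2 (Nat.cast_nonneg q)
  obtain ⟨B, hBd⟩ : ∃ B : C → C → (Fin (L * q) → W) → ℝ, B = fun e e' ω =>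
      if fh (fun w => 𝒩.s e' ∈ P w) ω < fh (fun w => 𝒩.s e ∈ P w) ω then
        hv (fun w => 𝒩.s e ∈ P w) (fun w => if 𝒩.s e' ∈ P w then 1 else 0) ω else 0 := ⟨_, rfl⟩
  obtain ⟨H, hHd⟩ : ∃ H : C → C → (Fin (p * q) → V) → ℝ, H = fun e e' υ =>
      hv (fun v => 𝒩.t e ∈ Y v) (fun v => if 𝒩.t e' ∈ Y v then 1 else 0) υ := ⟨_, rfl⟩
  have hv0 : ∀ (X : Type) (Q : X → Prop) (φ : X → ℝ) (k : ℕ) (ω : Fin k → X), (∀ w, 0 ≤ φ w) →
      0 ≤ hv Q φ ω := by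
    intro X Q φ k ω hφ
    unfold hv
    split_ifs
    · exact hφ _
    · exact le_refl _
  have hB0 : ∀ e e', 0 ≤ Ex (B e e') := by
    intro e e'
    refine Ex_nonneg fun ω => ?_
    rw [hBd]
    dsimp only
    split_ifs
    · refine hv0 _ _ _ _ _ fun w => ?_
      split_ifs <;> norm_num
    · exact le_refl _
  have hB : ∀ e e', kap L P (𝒩.s e) (𝒩.s e') * (1 - kap L P (𝒩.s e) (𝒩.s e')) / 2
      - kap L P (𝒩.s e) (𝒩.s e') * ε ≤ Ex (B e e') := by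
    intro e e'
    have h1 := Ex_before (W := W) (L := L) (q := q) hL (fun w => 𝒩.s e ∈ P w)
      (fun w => 𝒩.s e' ∈ P w) (by rw [pr_eq_AvgD]; exact hW.mem_prob hpL _)
      (by rw [pr_eq_AvgD]; exact hW.mem_prob hpL _)
    rw [pr_eq_AvgD] at h1
    rw [hε, hBd]
    unfold kap
    convert h1 using 3
    first
      | rfl
      | (dsimp only; congr!)
  have hH : ∀ e e', kap p Y (𝒩.t e) (𝒩.t e') * (1 - ε) ≤ Ex (H e e') := by
    intro e e'
    have hpr : pr (fun v => 𝒩.t e ∈ Y v) = 1 / p := by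
      rw [pr_eq_AvgD]
      exact hV.mem_prob (L := p) hpL' (𝒩.t e)
    have h1 := Ex_hv (fun v => 𝒩.t e ∈ Y v) (fun v => if 𝒩.t e' ∈ Y v then (1 : ℝ) else 0) (p * q)
    rw [hpr] at h1
    have h2 : (Ex fun v => if 𝒩.t e ∈ Y v then (if 𝒩.t e' ∈ Y v then (1 : ℝ) else 0) else 0) =
        Ex fun v => if 𝒩.t e ∈ Y v ∧ 𝒩.t e' ∈ Y v then (1 : ℝ) else 0 := by
      refine Ex_congr fun v => ?_
      split_ifs <;> simp_all
    have h2' : (Ex fun v => @ite ℝ (𝒩.t e ∈ Y v) (Classical.propDecidable _)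
        (if 𝒩.t e' ∈ Y v then (1 : ℝ) else 0) 0) =
        Ex fun v => if 𝒩.t e ∈ Y v ∧ 𝒩.t e' ∈ Y v then (1 : ℝ) else 0 := by
      rw [← h2]
      refine Ex_congr fun v => ?_
      split_ifs <;> simp_all
    rw [h2'] at h1
    have h3 : (1 - 1 / (p : ℝ)) ^ (p * q) ≤ ε := by
      rw [hε]
      refine pow_le_exp ?_ ?_
      · rw [sub_nonneg, div_le_one hp0]
        exact_mod_cast hp
      · rw [mul_one_div_cancel hp0.ne']
    have h4 : Ex (H e e') = (1 - (1 - 1 / (p : ℝ)) ^ (p * q)) * kap p Y (𝒩.t e) (𝒩.t e') := by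
      have h5 : Ex (H e e') = p * (1 / p * Ex (H e e')) := by
        field_simp
      have h6 : 1 / (p : ℝ) * Ex (H e e') = (1 - (1 - 1 / (p : ℝ)) ^ (p * q)) *
          Ex fun v => if 𝒩.t e ∈ Y v ∧ 𝒩.t e' ∈ Y v then (1 : ℝ) else 0 := by
        rw [← h1, hHd]
      rw [h5, h6]
      unfold kap
      ring
    rw [h4, mul_comm]
    exact mul_le_mul_of_nonneg_right (by linarith) (kap_nonneg p Y _ _)
  have hterm : ∀ e e', kap L P (𝒩.s e) (𝒩.s e') * kap p Y (𝒩.t e) (𝒩.t e') *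
      (1 - kap L P (𝒩.s e) (𝒩.s e')) / 2 -
      2 * ε * (kap L P (𝒩.s e) (𝒩.s e') * kap p Y (𝒩.t e) (𝒩.t e')) ≤ Ex (B e e') * Ex (H e e') :=
    fun e e' => ineq_AvgD (kap_nonneg L P _ _) (kap_nonneg p Y _ _) hε0.le hε1
      (hB0 e e') (hB e e') (hH e e')
  have hsum : Del 𝒩 L p P Y / 2 - 2 * ε * (𝒩.n * Fintype.card S) ≤
      (∑ e, ∑ e', Ex (B e e') * Ex (H e e')) / 𝒩.n := by
    have h1 : (∑ e, ∑ e', (kap L P (𝒩.s e) (𝒩.s e') * kap p Y (𝒩.t e) (𝒩.t e') *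
      (1 - kap L P (𝒩.s e) (𝒩.s e')) / 2 -
      2 * ε * (kap L P (𝒩.s e) (𝒩.s e') * kap p Y (𝒩.t e) (𝒩.t e')))) / 𝒩.n ≤
        (∑ e, ∑ e', Ex (B e e') * Ex (H e e')) / 𝒩.n :=
      div_le_div_of_nonneg_right (sum_le_sum fun e _ => sum_le_sum fun e' _ => hterm e e') hn.le
    refine le_trans (le_of_eq ?_) h1
    have h2 : ∑ e, ∑ e', 2 * ε * (kap L P (𝒩.s e) (𝒩.s e') * kap p Y (𝒩.t e) (𝒩.t e')) =
        2 * ε * (𝒩.n * Fintype.card S) * 𝒩.n := by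
      have h3 : ∀ e, ∑ e', 2 * ε * (kap L P (𝒩.s e) (𝒩.s e') * kap p Y (𝒩.t e) (𝒩.t e')) =
          2 * ε * 𝒩.n := by
        intro e
        rw [← mul_sum, sum_kap_kap hA hW hV hpL hc e]
      rw [sum_congr rfl fun e _ => h3 e, sum_const, card_univ, 𝒩.card_C, nsmul_eq_mul]
      push_cast
      ring
    simp only [sum_sub_distrib]
    rw [h2]
    unfold Del
    simp only [← sum_div]
    field_simp
  have hdbl : (Ex fun ω : Fin (L * q) → W => Ex fun υ : Fin (p * q) → V =>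
      (∑ e, ∑ e', B e e' ω * H e e' υ) / 𝒩.n) = (∑ e, ∑ e', Ex (B e e') * Ex (H e e')) / 𝒩.n := by
    have h1 : ∀ ω : Fin (L * q) → W, (Ex fun υ : Fin (p * q) → V =>
        (∑ e, ∑ e', B e e' ω * H e e' υ) / 𝒩.n) = (∑ e, ∑ e', B e e' ω * Ex (H e e')) / 𝒩.n := by
      intro ω
      rw [Ex_div, Ex_sum]
      congr 1
      refine sum_congr rfl fun e _ => ?_
      rw [Ex_sum]
      exact sum_congr rfl fun e' _ => Ex_mul _ _
    rw [Ex_congr h1, Ex_div, Ex_sum]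
    congr 1
    refine sum_congr rfl fun e _ => ?_
    rw [Ex_sum]
    exact sum_congr rfl fun e' _ => Ex_mul_right _ _
  have hG : (Ex fun ω : Fin (L * q) → W => Ex fun υ : Fin (p * q) → V =>
      (∑ e, ∑ e', B e e' ω * H e e' υ) / 𝒩.n) ≤
      Ex fun ω : Fin (L * q) → W => Ex fun υ : Fin (p * q) → V =>
        Gn 𝒩 (fun j => P (ω j)) (fun i => Y (υ i)) id := by
    refine Ex_mono fun ω => Ex_mono fun υ => ?_
    have h1 := Gn_id_ge hA hc ω υ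
    rw [hBd, hHd]
    exact h1
  have hU := Ex_unc hW hV hpL hp hL q
  rw [← hε] at hU ⊢
  have htot : Del 𝒩 L p P Y / 2 - 4 * ε * (𝒩.n * Fintype.card S) ≤
      Ex fun ω : Fin (L * q) → W => Ex fun υ : Fin (p * q) → V =>
        (Gn 𝒩 (fun j => P (ω j)) (fun i => Y (υ i)) id
          - (#(unc 𝒩 (fun j => P (ω j)) (fun i => Y (υ i))) : ℝ)) := by
    have h1 : (Ex fun ω : Fin (L * q) → W => Ex fun υ : Fin (p * q) → V =>
        (Gn 𝒩 (fun j => P (ω j)) (fun i => Y (υ i)) id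
          - (#(unc 𝒩 (fun j => P (ω j)) (fun i => Y (υ i))) : ℝ))) =
        (Ex fun ω : Fin (L * q) → W => Ex fun υ : Fin (p * q) → V =>
          Gn 𝒩 (fun j => P (ω j)) (fun i => Y (υ i)) id) -
        (Ex fun ω : Fin (L * q) → W => Ex fun υ : Fin (p * q) → V =>
          (#(unc 𝒩 (fun j => P (ω j)) (fun i => Y (υ i))) : ℝ)) := by
      rw [← Ex_sub]
      exact Ex_congr fun ω => Ex_sub _ _
    rw [h1]
    linarith
  obtain ⟨ω, hω⟩ := exists_Ex_le (fun ω : Fin (L * q) → W => Ex fun υ : Fin (p * q) → V =>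
        (Gn 𝒩 (fun j => P (ω j)) (fun i => Y (υ i)) id
          - (#(unc 𝒩 (fun j => P (ω j)) (fun i => Y (υ i))) : ℝ)))
  obtain ⟨υ, hυ⟩ := exists_Ex_le (fun υ : Fin (p * q) → V =>
        (Gn 𝒩 (fun j => P (ω j)) (fun i => Y (υ i)) id
          - (#(unc 𝒩 (fun j => P (ω j)) (fun i => Y (υ i))) : ℝ)))
  exact ⟨ω, υ, htot.trans (hω.trans hυ)⟩

end

end AW
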