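import Pool.Agent.Lib_c1afad_aw.HitA

/-!
# Averages of the gain: definitions
-/

open Finset

namespace AW

open scoped Classical

noncomputable section

variable {S C A : Type} [Fintype S] [Fintype C] [Fintype A]

theorem pr_eq {W : Type} [Fintype W] (Q : W → Prop) [DecidablePred Q] :
    pr Q = Ex fun w => if Q w then (1 : ℝ) else 0 := by
  unfold pr
  apply Ex_congr
  intro w
  congr

omit [Fintype A] in
theorem Sys.pr_mem {𝒩 : Net S C} {f : C → A} {p L : ℕ} {W : Type} [Fintype W] {P : W → Finset S}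
    (h : Sys 𝒩 f p W P) (hpL : p * L = Fintype.card S) (x : S) :
    pr (fun w => x ∈ P w) = 1 / L := by
  rw [pr_eq, h.mem_prob hpL]

omit [Fintype S] [Fintype C] [Fintype A] in
theorem kap_eq_pr {W : Type} [Fintype W] (L : ℝ) (P : W → Finset S) (x x' : S) :
    kap L P x x' = L * pr fun w => x ∈ P w ∧ x' ∈ P w := by
  rw [pr_eq, kap]

/-- The differences of the label sets, as a set. -/
def Dset (𝒩 : Net S C) (f : C → A) {k : ℕ} (P : Fin k → Finset S) (ref : S → S) :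
    Finset (S × Fin k × A) :=
  univ.filter fun q => ¬(q.2.2 ∈ lab 𝒩 f (P q.2.1) q.1 ↔ q.2.2 ∈ lab 𝒩 f (P q.2.1) (ref q.1))

/-- The number of differences of the label sets of `y` and `y₀`. -/
def dd (𝒩 : Net S C) (f : C → A) {k : ℕ} (P : Fin k → Finset S) (y y₀ : S) : ℕ :=
  ∑ j, #{a | ¬(a ∈ lab 𝒩 f (P j) y ↔ a ∈ lab 𝒩 f (P j) y₀)}

/-- The gain at the state `y`. -/
def gt (𝒩 : Net S C) {k : ℕ} (P : Fin k → Finset S) (y : S) : ℝ :=
  ∑ e with 𝒩.t e = y ∧ fi P (𝒩.s e) < k,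
    (1 - (#{e' | 𝒩.t e' = y ∧ fi P (𝒩.s e') = fi P (𝒩.s e)} : ℝ) / 𝒩.n)

/-- The transition probabilities for the choice of the reference states. -/
def Kk {W V : Type} [Fintype W] [Fintype V] (𝒩 : Net S C) (L p : ℝ) (P : W → Finset S)
    (Y : V → Finset S) (y y₀ : S) : ℝ :=
  kap L P y y₀ * (∑ c with 𝒩.s c = y, ∑ c' with 𝒩.s c' = y₀, kap p Y (𝒩.t c) (𝒩.t c')) / 𝒩.n ^ 2

end

end AW
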