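import Mathlib

/-!
# [AW-K1] Counting functions block by block
-/

open Finset

namespace AW

open scoped Classical

noncomputable section

private def rs_BlkA {C A : Type} (D : Finset C) (f : C → A) : C → Option A :=
  fun c => if c ∈ D then some (f c) else none

private theorem rs_eq_BlkA {C A : Type} {D : Finset C} {f f' : C → A} (h : rs_BlkA D f = rs_BlkA D f') :
    ∀ c ∈ D, f c = f' c := by
  intro c hc
  have h1 := congrFun h c
  simp only [rs_BlkA, if_pos hc] at h1
  exact Option.some.inj h1

private theorem restr_BlkA {C A : Type} (D E : Finset C) (f : C → A) :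
    (fun c => if c ∈ D then rs_BlkA (D ∪ E) f c else none) = rs_BlkA D f := by
  funext c
  simp only [rs_BlkA]
  by_cases hc : c ∈ D
  · rw [if_pos hc, if_pos (mem_union_left _ hc), if_pos hc]
  · rw [if_neg hc, if_neg hc]

private theorem step_BlkA {C A : Type} [Fintype C] [Fintype A] (F : Finset (C → A)) (D E : Finset C)
    (hinj : ∀ f ∈ F, Set.InjOn f E)
    (himg : ∀ f ∈ F, ∀ f' ∈ F, (∀ c ∈ D, f c = f' c) → E.image f = E.image f') :
    #(F.image (rs_BlkA (D ∪ E))) ≤ #(F.image (rs_BlkA D)) * (#E).factorial := by
  let ρ : (C → Option A) → (C → Option A) := fun g c => if c ∈ D then g c else none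
  have hρ : ∀ f : C → A, ρ (rs_BlkA (D ∪ E) f) = rs_BlkA D f := fun f => restr_BlkA D E f
  have him : (F.image (rs_BlkA (D ∪ E))).image ρ = F.image (rs_BlkA D) := by
    rw [image_image]
    exact image_congr fun f _ => hρ f
  have key := card_le_mul_card_image (f := ρ) (F.image (rs_BlkA (D ∪ E))) (#E).factorial (by
    intro a ha
    rw [him, mem_image] at ha
    obtain ⟨f₀, hf₀, rfl⟩ := ha
    let Φ : ((↥E) ↪ (↥(E.image f₀))) → (C → Option A) := fun e c =>
      if h : c ∈ E then some (e ⟨c, h⟩ : A) else if c ∈ D then some (f₀ c) else none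
    have hsub : (F.image (rs_BlkA (D ∪ E))).filter (fun x => ρ x = rs_BlkA D f₀) ⊆ univ.image Φ := by
      intro g hg
      rw [mem_filter, mem_image] at hg
      obtain ⟨⟨f, hf, rfl⟩, hg2⟩ := hg
      rw [hρ] at hg2
      have h1 := rs_eq_BlkA hg2
      have h2 := himg f hf f₀ hf₀ h1
      rw [mem_image]
      refine ⟨⟨fun c => ⟨f c, ?_⟩, ?_⟩, mem_univ _, ?_⟩
      · rw [← h2]
        exact mem_image_of_mem _ c.2
      · intro c c' hcc
        have h3 : f c = f c' := congrArg Subtype.val hcc
        exact Subtype.ext (hinj f hf c.2 c'.2 h3)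
      · funext c
        simp only [Φ, rs_BlkA, Function.Embedding.coeFn_mk]
        by_cases hc : c ∈ E
        · rw [dif_pos hc, if_pos (mem_union_right _ hc)]
        · rw [dif_neg hc]
          by_cases hd : c ∈ D
          · rw [if_pos hd, if_pos (mem_union_left _ hd), h1 c hd]
          · rw [if_neg hd, if_neg (by rw [mem_union]; tauto)]
    have h5 : #(E.image f₀) = #E := card_image_of_injOn (hinj f₀ hf₀)
    calc #((F.image (rs_BlkA (D ∪ E))).filter (fun x => ρ x = rs_BlkA D f₀)) ≤ #(univ.image Φ) :=
          card_le_card hsub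
      _ ≤ #(univ : Finset ((↥E) ↪ (↥(E.image f₀)))) := card_image_le
      _ = (#E).factorial := by
          rw [card_univ, Fintype.card_embedding_eq, Fintype.card_coe, Fintype.card_coe, h5,
            Nat.descFactorial_self])
  rw [him, mul_comm] at key
  exact key

private theorem base_BlkA {C A : Type} [Fintype C] [Fintype A] (F : Finset (C → A)) (U : Finset C) :
    #(F.image (rs_BlkA U)) ≤ Fintype.card A ^ #U := by
  let Φ : ((↥U) → A) → (C → Option A) := fun e c => if h : c ∈ U then some (e ⟨c, h⟩) else none
  have hsub : F.image (rs_BlkA U) ⊆ univ.image Φ := by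
    intro g hg
    rw [mem_image] at hg
    obtain ⟨f, hf, rfl⟩ := hg
    rw [mem_image]
    refine ⟨fun c => f c, mem_univ _, ?_⟩
    funext c
    simp only [Φ, rs_BlkA]
    by_cases hc : c ∈ U
    · rw [dif_pos hc, if_pos hc]
    · rw [dif_neg hc, if_neg hc]
  calc #(F.image (rs_BlkA U)) ≤ #(univ.image Φ) := card_le_card hsub
    _ ≤ #(univ : Finset ((↥U) → A)) := card_image_le
    _ = Fintype.card A ^ #U := by
        rw [card_univ, Fintype.card_fun, Fintype.card_coe]

/-- [AW-K1] Counting functions block by block.  The blocks `B b` have a rank; the values on `U` are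
free; on every block the functions of `F` are injective, with an image determined by the values on
`U` and on the blocks of smaller rank.

Proof.  For `D : Finset C` let `rs D f : C → Option A` be `fun c => if c ∈ D then some (f c) else none`
(`rs D f = rs D f'` iff `f, f'` agree on `D`).  Step: if `B b` is a block such that any two functions of
`F` agreeing on `D` have the same image of `B b`, then `#(F.image (rs (D ∪ B b))) ≤
#(F.image (rs D)) * (#(B b))!` : the fibre over `rs D f₀` injects into the set of
injective maps of `B b` with image `f₀ '' B b`, which has at most `(#(B b))!` elements.  Then induction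
over sets `s` of blocks with `Finset.induction_on_max_value rk` for the statement
(all blocks of rank less than that of a block of `s` are in `s`) implies
`#(F.image (rs (U ∪ s.biUnion B))) ≤ card A ^ #U * ∏ b ∈ s, (#(B b))!`. -/
theorem block_count {C A ι : Type} [Fintype C] [Fintype A] [Fintype ι] (F : Finset (C → A))
    (U : Finset C) (B : ι → Finset C) (rk : ι → ℕ) (hcov : ∀ c, c ∈ U ∨ ∃ b, c ∈ B b)
    (hinj : ∀ f ∈ F, ∀ b, Set.InjOn f (B b))
    (himg : ∀ f ∈ F, ∀ f' ∈ F, ∀ b, (∀ c ∈ U, f c = f' c) →
      (∀ b', rk b' < rk b → ∀ c ∈ B b', f c = f' c) → (B b).image f = (B b).image f') :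
    #F ≤ Fintype.card A ^ #U * ∏ b, (#(B b)).factorial := by
  have main : ∀ s : Finset ι, (∀ b ∈ s, ∀ b', rk b' < rk b → b' ∈ s) →
      #(F.image (rs_BlkA (U ∪ s.biUnion B))) ≤ Fintype.card A ^ #U * ∏ b ∈ s, (#(B b)).factorial := by
    intro s
    induction s using Finset.induction_on_max_value rk with
    | empty =>
      intro _
      rw [biUnion_empty, union_empty, prod_empty, mul_one]
      exact base_BlkA F U
    | insert a s has hmax ih =>
      intro hP
      have hP' : ∀ b ∈ s, ∀ b', rk b' < rk b → b' ∈ s := by
        intro b hb b' hlt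
        have h1 := hP b (mem_insert_of_mem hb) b' hlt
        rw [mem_insert] at h1
        rcases h1 with rfl | h1
        · exact absurd (hmax b hb) (not_le.2 hlt)
        · exact h1
      have h2 := step_BlkA F (U ∪ s.biUnion B) (B a) (fun f hf => hinj f hf a) (by
        intro f hf f' hf' hD
        refine himg f hf f' hf' a (fun c hc => hD c (mem_union_left _ hc)) fun b' hlt c hc => ?_
        have h1 := hP a (mem_insert_self _ _) b' hlt
        rw [mem_insert] at h1
        rcases h1 with rfl | h1
        · exact absurd hlt (lt_irrefl _)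
        · exact hD c (mem_union_right _ (mem_biUnion.2 ⟨b', h1, hc⟩)))
      have h3 : U ∪ (insert a s).biUnion B = U ∪ s.biUnion B ∪ B a := by
        rw [biUnion_insert, union_assoc, union_comm (B a)]
      rw [h3, prod_insert has, mul_comm (#(B a)).factorial, ← mul_assoc]
      exact h2.trans (Nat.mul_le_mul_right _ (ih hP'))
  have h1 := main univ (fun _ _ _ _ => mem_univ _)
  have h2 : #(F.image (rs_BlkA (U ∪ univ.biUnion B))) = #F := by
    refine card_image_of_injOn fun f _ f' _ hff => ?_
    funext c
    refine rs_eq_BlkA hff c ?_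
    rcases hcov c with hc | ⟨b, hb⟩
    · exact mem_union_left _ hc
    · exact mem_union_right _ (mem_biUnion.2 ⟨b, mem_univ _, hb⟩)
  rw [h2] at h1
  exact h1

end

end AW
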