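import Pool.Agent.Lib_c1afad_aw.Sys

/-!
# The blocks of a labelling: definitions
-/

open Finset

namespace AW

open scoped Classical

noncomputable section

/-- The first index with `Q (ω j)`, and `k` if there is none. -/
def fh {W : Type} (Q : W → Prop) {k : ℕ} (ω : Fin k → W) : ℕ :=
  Nat.find (p := fun j => ∀ h : j < k, Q (ω ⟨j, h⟩)) ⟨k, fun h => absurd h (lt_irrefl k)⟩

theorem fh_le {W : Type} (Q : W → Prop) {k : ℕ} (ω : Fin k → W) : fh Q ω ≤ k :=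
  Nat.find_min' _ fun h => absurd h (lt_irrefl k)

theorem fh_spec {W : Type} {Q : W → Prop} {k : ℕ} {ω : Fin k → W} (h : fh Q ω < k) :
    Q (ω ⟨fh Q ω, h⟩) :=
  Nat.find_spec (p := fun j => ∀ h : j < k, Q (ω ⟨j, h⟩)) ⟨k, fun h => absurd h (lt_irrefl k)⟩ h

theorem fh_le_of {W : Type} {Q : W → Prop} {k : ℕ} {ω : Fin k → W} {j : Fin k} (h : Q (ω j)) :
    fh Q ω ≤ j :=
  Nat.find_min' _ fun _ => h

/-- The first index `j` with `x ∈ P j`, and `k` if there is none. -/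
def fi {S : Type} {k : ℕ} (P : Fin k → Finset S) (x : S) : ℕ := fh (fun X : Finset S => x ∈ X) P

theorem fi_le {S : Type} {k : ℕ} (P : Fin k → Finset S) (x : S) : fi P x ≤ k := fh_le _ _

theorem fi_mem {S : Type} {k : ℕ} {P : Fin k → Finset S} {x : S} (h : fi P x < k) :
    x ∈ P ⟨fi P x, h⟩ := fh_spec h

theorem fi_le_of_mem {S : Type} {k : ℕ} {P : Fin k → Finset S} {x : S} {j : Fin k} (h : x ∈ P j) :
    fi P x ≤ j := fh_le_of h

theorem fi_comp {S W : Type} {k : ℕ} (P : W → Finset S) (ω : Fin k → W) (x : S) :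
    fi (fun j => P (ω j)) x = fh (fun w => x ∈ P w) ω := rfl

variable {S C A : Type} [Fintype S] [Fintype C] [Fintype A]

/-- The labels of the cells from `P` to `y`. -/
def lab (𝒩 : Net S C) (f : C → A) (P : Finset S) (y : S) : Finset A :=
  (univ.filter fun e => 𝒩.t e = y ∧ 𝒩.s e ∈ P).image f

/-- Compatibility of a labelling with sets `P j`, `Y i`, a choice of reference states and the
differences of the label sets. -/
structure Comp (𝒩 : Net S C) {k K : ℕ} (P : Fin k → Finset S) (Y : Fin K → Finset S) (ref : S → S)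
    (D : Finset (S × Fin k × A)) (f : C → A) : Prop where
  inj : ∀ j i, Set.InjOn f {e | 𝒩.s e ∈ P j ∧ 𝒩.t e ∈ Y i}
  surj : ∀ j i (a : A), ∃ e, 𝒩.s e ∈ P j ∧ 𝒩.t e ∈ Y i ∧ f e = a
  inj' : ∀ j y, Set.InjOn f {e | 𝒩.t e = y ∧ 𝒩.s e ∈ P j}
  dif : ∀ y j a, (y, j, a) ∈ D ↔ ¬(a ∈ lab 𝒩 f (P j) y ↔ a ∈ lab 𝒩 f (P j) (ref y))

/-- The uncovered cells. -/
def unc (𝒩 : Net S C) {k K : ℕ} (P : Fin k → Finset S) (Y : Fin K → Finset S) : Finset C :=
  univ.filter fun e => ¬(fi P (𝒩.s e) < k ∧ fi Y (𝒩.t e) < K)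

/-- The state `y` is hit, after its reference state. -/
def Vld {K : ℕ} (Y : Fin K → Finset S) (ref : S → S) (y : S) : Prop :=
  fi Y (ref y) < fi Y y ∧ fi Y y < K

/-- The cells which are in the block of a covered cell `e`. -/
def blkS (𝒩 : Net S C) {k K : ℕ} (P : Fin k → Finset S) (Y : Fin K → Finset S) (ref : S → S)
    (e : C) : Finset C :=
  if Vld Y ref (𝒩.t e) then
    univ.filter fun e' => 𝒩.t e' = 𝒩.t e ∧ fi P (𝒩.s e') = fi P (𝒩.s e)
  else univ.filter fun e' => fi P (𝒩.s e') = fi P (𝒩.s e) ∧ fi Y (𝒩.t e') = fi Y (𝒩.t e) ∧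
    ¬ Vld Y ref (𝒩.t e')

/-- The gain. -/
def Gn (𝒩 : Net S C) {k K : ℕ} (P : Fin k → Finset S) (Y : Fin K → Finset S) (ref : S → S) : ℝ :=
  ∑ e ∈ (unc 𝒩 P Y)ᶜ, (1 - (#(blkS 𝒩 P Y ref e) : ℝ) / 𝒩.n)

/-- The index type of the blocks. -/
abbrev BI (S : Type) (k K : ℕ) : Type := (Fin K × Fin k) ⊕ (S × Fin k)

/-- The blocks. -/
def bset (𝒩 : Net S C) {k K : ℕ} (P : Fin k → Finset S) (Y : Fin K → Finset S) (ref : S → S) :
    BI S k K → Finset C
  | Sum.inl (i, j) => univ.filter fun e =>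
      fi P (𝒩.s e) = j ∧ fi Y (𝒩.t e) = i ∧ ¬ Vld Y ref (𝒩.t e)
  | Sum.inr (y, j) => univ.filter fun e => 𝒩.t e = y ∧ fi P (𝒩.s e) = j ∧ Vld Y ref y

/-- Their ranks. -/
def brk {k K : ℕ} (Y : Fin K → Finset S) : BI S k K → ℕ
  | Sum.inl (i, j) => 2 * (i * k + j) + 1
  | Sum.inr (y, j) => 2 * (fi Y y * k + j)

end

end AW
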