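import Pool.Agent.Lib_c1afad_aw.BlkA
import Pool.Agent.Lib_c1afad_aw.BlkDefs

/-!
# [AW-K2] Counting the compatible labellings
-/

set_option linter.unusedSectionVars false

open Finset

namespace AW

open scoped Classical

noncomputable section

variable {S C A : Type} [Fintype S] [Fintype C] [Fintype A]

/-- the rank of a covered cell -/
private theorem rank_lt_BlkB {k i j a b : ℕ} (hj : j < k) (ha : a ≤ i) (hb : b ≤ j)
    (h : ¬(a = i ∧ b = j)) : a * k + b < i * k + j := by
  rcases Nat.lt_or_ge a i with h1 | h1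
  · have h2 : (a + 1) * k ≤ i * k := Nat.mul_le_mul_right k h1
    have h3 : (a + 1) * k = a * k + k := by ring
    omega
  · have h2 : a = i := le_antisymm ha h1
    subst h2
    have h3 : b ≠ j := fun hb' => h ⟨rfl, hb'⟩
    omega

/-- one inclusion of the images -/
private theorem img_BlkB (𝒩 : Net S C) {k K : ℕ} (P : Fin k → Finset S) (Y : Fin K → Finset S)
    (ref : S → S) (D : Finset (S × Fin k × A)) (f f' : C → A) (hf : Comp 𝒩 P Y ref D f)
    (hf' : Comp 𝒩 P Y ref D f') (b : BI S k K)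
    (hlow : ∀ b', brk Y b' < brk Y b → ∀ c ∈ bset 𝒩 P Y ref b', f c = f' c) :
    (bset 𝒩 P Y ref b).image f ⊆ (bset 𝒩 P Y ref b).image f' := by
  -- agreement on covered cells of smaller rank
  have hagV : ∀ e, fi P (𝒩.s e) < k → Vld Y ref (𝒩.t e) →
      2 * (fi Y (𝒩.t e) * k + fi P (𝒩.s e)) < brk Y b → f e = f' e := by
    intro e h1 h2 h3
    exact hlow (Sum.inr (𝒩.t e, ⟨fi P (𝒩.s e), h1⟩)) h3 e (by
      simp only [bset, mem_filter, mem_univ, true_and]
      exact h2)
  have hagN : ∀ e, fi P (𝒩.s e) < k → fi Y (𝒩.t e) < K → ¬ Vld Y ref (𝒩.t e) →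
      2 * (fi Y (𝒩.t e) * k + fi P (𝒩.s e)) + 1 < brk Y b → f e = f' e := by
    intro e h1 h1' h2 h3
    exact hlow (Sum.inl (⟨fi Y (𝒩.t e), h1'⟩, ⟨fi P (𝒩.s e), h1⟩)) h3 e (by
      simp only [bset, mem_filter, mem_univ, true_and]
      exact h2)
  intro a ha
  obtain ⟨e0, he0, rfl⟩ := mem_image.1 ha
  rcases b with ⟨i, j⟩ | ⟨y, j⟩
  · have he0' := he0
    simp only [bset, mem_filter, mem_univ, true_and] at he0'
    obtain ⟨hP0, hY0, hV0⟩ := he0'
    have hs0 : 𝒩.s e0 ∈ P j := by
      have h1 : fi P (𝒩.s e0) < k := by rw [hP0]; exact j.2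
      have h2 := fi_mem h1
      have h3 : (⟨fi P (𝒩.s e0), h1⟩ : Fin k) = j := Fin.ext hP0
      rwa [h3] at h2
    have ht0 : 𝒩.t e0 ∈ Y i := by
      have h1 : fi Y (𝒩.t e0) < K := by rw [hY0]; exact i.2
      have h2 := fi_mem h1
      have h3 : (⟨fi Y (𝒩.t e0), h1⟩ : Fin K) = i := Fin.ext hY0
      rwa [h3] at h2
    obtain ⟨e, hse, hte, hfe⟩ := hf'.surj j i (f e0)
    have hPe : fi P (𝒩.s e) ≤ j := fi_le_of_mem hse
    have hYe : fi Y (𝒩.t e) ≤ i := fi_le_of_mem hte
    by_cases hb : e ∈ bset 𝒩 P Y ref (Sum.inl (i, j))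
    · exact mem_image.2 ⟨e, hb, hfe⟩
    · exfalso
      have hff : f e = f' e := by
        by_cases hV : Vld Y ref (𝒩.t e)
        · refine hagV e (lt_of_le_of_lt hPe j.2) hV ?_
          show _ < 2 * ((i : ℕ) * k + j) + 1
          have h2 : fi Y (𝒩.t e) * k ≤ i * k := Nat.mul_le_mul_right k hYe
          omega
        · refine hagN e (lt_of_le_of_lt hPe j.2) (lt_of_le_of_lt hYe i.2) hV ?_
          show _ < 2 * ((i : ℕ) * k + j) + 1
          have h2 := rank_lt_BlkB (i := i) (j := j) j.2 hYe hPe (fun h3 => hb (by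
            simp only [bset, mem_filter, mem_univ, true_and]
            exact ⟨h3.2, h3.1, hV⟩))
          omega
      have h4 : e = e0 := hf.inj j i ⟨hse, hte⟩ ⟨hs0, ht0⟩ (hff.trans hfe)
      exact hb (h4 ▸ he0)
  · have he0' := he0
    simp only [bset, mem_filter, mem_univ, true_and] at he0'
    obtain ⟨hty, hP0, hV0⟩ := he0'
    have hs0 : 𝒩.s e0 ∈ P j := by
      have h1 : fi P (𝒩.s e0) < k := by rw [hP0]; exact j.2
      have h2 := fi_mem h1
      have h3 : (⟨fi P (𝒩.s e0), h1⟩ : Fin k) = j := Fin.ext hP0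
      rwa [h3] at h2
    -- the labels at the reference state agree
    have hag : ∀ e, 𝒩.t e = ref y → 𝒩.s e ∈ P j → f e = f' e := by
      intro e hte hse
      have hPe : fi P (𝒩.s e) ≤ j := fi_le_of_mem hse
      have hj := j.2
      have h1 : (fi Y (𝒩.t e) + 1) * k ≤ fi Y y * k := by
        rw [hte]
        exact Nat.mul_le_mul_right k hV0.1
      have h3 : (fi Y (𝒩.t e) + 1) * k = fi Y (𝒩.t e) * k + k := by ring
      by_cases hV : Vld Y ref (𝒩.t e)
      · refine hagV e (lt_of_le_of_lt hPe j.2) hV ?_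
        show _ < 2 * (fi Y y * k + j)
        omega
      · refine hagN e (lt_of_le_of_lt hPe j.2) ?_ hV ?_
        · rw [hte]
          exact lt_trans hV0.1 hV0.2
        · show _ < 2 * (fi Y y * k + j)
          omega
    have hlab : lab 𝒩 f (P j) (ref y) = lab 𝒩 f' (P j) (ref y) := by
      unfold lab
      refine Finset.image_congr ?_
      intro e he
      rw [Finset.mem_coe, mem_filter] at he
      exact hag e he.2.1 he.2.2
    have h5 : f e0 ∈ lab 𝒩 f' (P j) y := by
      have h1 := hf.dif y j (f e0)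
      have h2 := hf'.dif y j (f e0)
      rw [← hlab] at h2
      have h3 : f e0 ∈ lab 𝒩 f (P j) y :=
        mem_image.2 ⟨e0, mem_filter.2 ⟨mem_univ _, hty, hs0⟩, rfl⟩
      have h4 := h1.symm.trans h2
      tauto
    obtain ⟨e, he, hfe⟩ := mem_image.1 h5
    rw [mem_filter] at he
    obtain ⟨_, hte, hse⟩ := he
    have hPe : fi P (𝒩.s e) ≤ j := fi_le_of_mem hse
    by_cases hb : fi P (𝒩.s e) = j
    · refine mem_image.2 ⟨e, ?_, hfe⟩
      simp only [bset, mem_filter, mem_univ, true_and]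
      exact ⟨hte, hb, hV0⟩
    · exfalso
      have hff : f e = f' e := by
        refine hagV e (lt_of_le_of_lt hPe j.2) (by rw [hte]; exact hV0) ?_
        show _ < 2 * (fi Y y * k + j)
        rw [hte]
        omega
      have h4 : e = e0 := hf.inj' j y ⟨hte, hse⟩ ⟨hty, hs0⟩ (hff.trans hfe)
      exact hb (h4 ▸ hP0)

/-- [AW-K2] Proof: `block_count` with `F` the compatible labellings, `U = unc`, `B = bset`,
`rk = brk`.  `hcov`: clear.  `hinj` from `inj` (for `inl`, a cell of the block is in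
`{s ∈ P j, t ∈ Y i}` by `fi_mem`) and `inj'`.
`himg` for `inl (i, j)`: a label `a` is in the image of the block iff it is not the label of a
cell `e` with `s e ∈ P j`, `t e ∈ Y i` outside of the block (by `inj`, `surj`); such an `e` has
`fi P (s e) ≤ j` and `fi Y (t e) ≤ i`, and lies in a block of smaller rank.
`himg` for `inr (y, j)` with `y` valid, `i = fi Y y`: the image is `lab f (P j) y` without the labels
of the cells `e` with `t e = y`, `s e ∈ P j`, `fi P (s e) < j` (by `inj'`), which are in the blocks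
`inr (y, fi P (s e))` of smaller rank; `lab f (P j) y` is determined by `D` and `lab f (P j) (ref y)`,
by `dif`, and the cells `e` with `t e = ref y`, `s e ∈ P j` have
`fi Y (t e) = fi Y (ref y) < fi Y y`, `fi P (s e) ≤ j < k`, so they are in
blocks (`inl` or `inr`) of rank at most `2 * (fi Y (ref y) * k + fi P (s e)) + 1 < 2 * (i * k)`. -/
theorem comp_count (𝒩 : Net S C) {k K : ℕ} (P : Fin k → Finset S) (Y : Fin K → Finset S)
    (ref : S → S) (D : Finset (S × Fin k × A)) :
    #{f : C → A | Comp 𝒩 P Y ref D f} ≤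
      Fintype.card A ^ #(unc 𝒩 P Y) * ∏ b : BI S k K, (#(bset 𝒩 P Y ref b)).factorial := by
  refine block_count _ (unc 𝒩 P Y) (bset 𝒩 P Y ref) (brk Y) ?_ ?_ ?_
  · intro e
    by_cases h1 : fi P (𝒩.s e) < k ∧ fi Y (𝒩.t e) < K
    · right
      by_cases hV : Vld Y ref (𝒩.t e)
      · refine ⟨Sum.inr (𝒩.t e, ⟨fi P (𝒩.s e), h1.1⟩), ?_⟩
        simp only [bset, mem_filter, mem_univ, true_and]
        exact hV
      · refine ⟨Sum.inl (⟨fi Y (𝒩.t e), h1.2⟩, ⟨fi P (𝒩.s e), h1.1⟩), ?_⟩
        simp only [bset, mem_filter, mem_univ, true_and]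
        exact hV
    · left
      exact mem_filter.2 ⟨mem_univ _, h1⟩
  · intro f hf b
    have hf' : Comp 𝒩 P Y ref D f := (mem_filter.1 hf).2
    rcases b with ⟨i, j⟩ | ⟨y, j⟩
    · refine (hf'.inj j i).mono ?_
      intro e he
      rw [Finset.mem_coe] at he
      simp only [bset, mem_filter, mem_univ, true_and] at he
      obtain ⟨hP0, hY0, hV0⟩ := he
      constructor
      · have h1 : fi P (𝒩.s e) < k := by rw [hP0]; exact j.2
        have h2 := fi_mem h1
        have h3 : (⟨fi P (𝒩.s e), h1⟩ : Fin k) = j := Fin.ext hP0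
        rwa [h3] at h2
      · have h1 : fi Y (𝒩.t e) < K := by rw [hY0]; exact i.2
        have h2 := fi_mem h1
        have h3 : (⟨fi Y (𝒩.t e), h1⟩ : Fin K) = i := Fin.ext hY0
        rwa [h3] at h2
    · refine (hf'.inj' j y).mono ?_
      intro e he
      rw [Finset.mem_coe] at he
      simp only [bset, mem_filter, mem_univ, true_and] at he
      obtain ⟨hty, hP0, hV0⟩ := he
      refine ⟨hty, ?_⟩
      have h1 : fi P (𝒩.s e) < k := by rw [hP0]; exact j.2
      have h2 := fi_mem h1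
      have h3 : (⟨fi P (𝒩.s e), h1⟩ : Fin k) = j := Fin.ext hP0
      rwa [h3] at h2
  · intro f hf f' hf' b _ hlow
    have h1 : Comp 𝒩 P Y ref D f := (mem_filter.1 hf).2
    have h2 : Comp 𝒩 P Y ref D f' := (mem_filter.1 hf').2
    exact Subset.antisymm (img_BlkB 𝒩 P Y ref D f f' h1 h2 b hlow)
      (img_BlkB 𝒩 P Y ref D f' f h2 h1 b fun b' hb' c hc => (hlow b' hb' c hc).symm)

end

end AW
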