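import Mathlib
import Pool.Agent.Lib_c1afad_ap.Est

/-!
# [AW-K3] An estimate of Stirling type
-/

open Finset

namespace AW

open scoped Classical

noncomputable section

/-- [AW-K3] For `1 ≤ b ≤ n`, `55 ≤ n`.  Proof: by `PermCA.log_fact_le`,
`log b! ≤ b log b - b + 1 + log b`.  If `√n ≤ b` use `log b ≤ log n - (1 - b / n)` and
`1 + log b ≤ (1 + log n) * (b / √n)`.  If `b < √n` use `log b! ≤ b log b ≤ b * (log n) / 2`
(`Nat.factorial_le_pow`) and `log n ≥ 4` (as `n ≥ 55 > e ^ 4`). -/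
theorem log_fact_block {n b : ℕ} (hn : 55 ≤ n) (hb1 : 1 ≤ b) (hbn : b ≤ n) :
    Real.log (b.factorial : ℝ) ≤
      b * (Real.log n - 1 - (1 - (b : ℝ) / n) + (1 + Real.log n) / √n) := by
  have hn0 : (0 : ℝ) < n := by
    have : (0 : ℕ) < n := by omega
    exact_mod_cast this
  have hb0 : (0 : ℝ) < b := by exact_mod_cast hb1
  have hb1' : (1 : ℝ) ≤ b := by exact_mod_cast hb1
  have hbn' : (b : ℝ) ≤ n := by exact_mod_cast hbn
  have hs0 : 0 < √(n : ℝ) := Real.sqrt_pos.2 hn0
  have hlogn : 4 ≤ Real.log n := by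
    have h1 : Real.exp 4 ≤ 55 := by
      have h2 : Real.exp 4 = Real.exp 1 ^ 4 := by
        rw [← Real.exp_nat_mul]
        norm_num
      have h3 := Real.exp_one_lt_d9
      have h4 : Real.exp 1 ^ 4 ≤ (2.7182818286 : ℝ) ^ 4 :=
        pow_le_pow_left₀ (Real.exp_pos 1).le h3.le 4
      rw [h2]
      refine h4.trans ?_
      norm_num
    have h5 : (55 : ℝ) ≤ n := by exact_mod_cast hn
    rw [Real.le_log_iff_exp_le hn0]
    exact h1.trans h5
  have hlogb : Real.log b ≤ Real.log n - (1 - (b : ℝ) / n) := by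
    have h1 := Real.log_le_sub_one_of_pos (div_pos hb0 hn0)
    rw [Real.log_div hb0.ne' hn0.ne'] at h1
    linarith
  have hlogb0 : 0 ≤ Real.log b := Real.log_nonneg hb1'
  by_cases hc : √(n : ℝ) ≤ b
  · have h1 := PermCA.log_fact_le b hb1
    have h2 : (b : ℝ) * Real.log b ≤ b * (Real.log n - (1 - (b : ℝ) / n)) :=
      mul_le_mul_of_nonneg_left hlogb hb0.le
    have h3 : 1 + Real.log b ≤ (1 + Real.log n) * (b / √(n : ℝ)) := by
      have h4 : Real.log b ≤ Real.log n := Real.log_le_log hb0 hbn'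
      have h5 : 1 ≤ (b : ℝ) / √(n : ℝ) := by rwa [le_div_iff₀ hs0, one_mul]
      calc 1 + Real.log b ≤ (1 + Real.log n) * 1 := by linarith
        _ ≤ (1 + Real.log n) * (b / √(n : ℝ)) := mul_le_mul_of_nonneg_left h5 (by linarith)
    have h6 : (b : ℝ) * (Real.log n - 1 - (1 - (b : ℝ) / n) + (1 + Real.log n) / √(n : ℝ)) =
        b * (Real.log n - (1 - (b : ℝ) / n)) - b + (1 + Real.log n) * (b / √(n : ℝ)) := by
      ring
    rw [h6]
    linarith
  · push Not at hc
    have h1 : Real.log (b.factorial : ℝ) ≤ b * Real.log b := by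
      have h2 : (b.factorial : ℝ) ≤ (b : ℝ) ^ b := by exact_mod_cast Nat.factorial_le_pow b
      have h3 : (0 : ℝ) < b.factorial := by exact_mod_cast Nat.factorial_pos b
      calc Real.log (b.factorial : ℝ) ≤ Real.log ((b : ℝ) ^ b) := Real.log_le_log h3 h2
        _ = b * Real.log b := Real.log_pow b b
    have h4 : Real.log b ≤ Real.log n / 2 := by
      have h5 : Real.log b ≤ Real.log √(n : ℝ) := Real.log_le_log hb0 hc.le
      rwa [Real.log_sqrt hn0.le] at h5
    have h6 : 0 ≤ (b : ℝ) / n := by positivity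
    have h7 : 0 ≤ (1 + Real.log n) / √(n : ℝ) := div_nonneg (by linarith) hs0.le
    refine h1.trans (mul_le_mul_of_nonneg_left ?_ hb0.le)
    linarith

end

end AW
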