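import Pool.Agent.Lib_c1afad_aw.BlkB
import Pool.Agent.Lib_c1afad_aw.BlkC

/-!
# [AW-K4] The number of compatible labellings
-/

open Finset

namespace AW

open scoped Classical

noncomputable section

variable {S C A : Type} [Fintype S] [Fintype C] [Fintype A]

private theorem mem_unc_Blocks (𝒩 : Net S C) {k K : ℕ} (P : Fin k → Finset S)
    (Y : Fin K → Finset S) (e : C) :
    e ∈ (unc 𝒩 P Y)ᶜ ↔ fi P (𝒩.s e) < k ∧ fi Y (𝒩.t e) < K := by
  simp [unc]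

/-- the block of a covered cell -/
private theorem blk_exists_Blocks (𝒩 : Net S C) {k K : ℕ} (P : Fin k → Finset S)
    (Y : Fin K → Finset S) (ref : S → S) (e : C) (he : e ∈ (unc 𝒩 P Y)ᶜ) :
    ∃ b : BI S k K, e ∈ bset 𝒩 P Y ref b ∧ ∀ b', e ∈ bset 𝒩 P Y ref b' → b' = b := by
  rw [mem_unc_Blocks] at he
  obtain ⟨h1, h2⟩ := he
  by_cases hv : Vld Y ref (𝒩.t e)
  · refine ⟨Sum.inr (𝒩.t e, ⟨fi P (𝒩.s e), h1⟩), by simp [bset, hv], ?_⟩
    rintro (⟨i, j⟩ | ⟨y, j⟩) hb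
    · simp only [bset, mem_filter, mem_univ, true_and] at hb
      exact absurd hv hb.2.2
    · simp only [bset, mem_filter, mem_univ, true_and] at hb
      obtain ⟨rfl, h3, -⟩ := hb
      congr 2
      exact Fin.ext h3.symm
  · refine ⟨Sum.inl (⟨fi Y (𝒩.t e), h2⟩, ⟨fi P (𝒩.s e), h1⟩), by simp [bset, hv], ?_⟩
    rintro (⟨i, j⟩ | ⟨y, j⟩) hb
    · simp only [bset, mem_filter, mem_univ, true_and] at hb
      obtain ⟨h3, h4, -⟩ := hb
      congr 2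
      · exact Fin.ext h4.symm
      · exact Fin.ext h3.symm
    · simp only [bset, mem_filter, mem_univ, true_and] at hb
      obtain ⟨rfl, -, h3⟩ := hb
      exact absurd h3 hv

/-- the cells of a block are covered, and the block is `blkS` of its cells -/
private theorem blk_mem_Blocks (𝒩 : Net S C) {k K : ℕ} (P : Fin k → Finset S)
    (Y : Fin K → Finset S) (ref : S → S) (b : BI S k K) (e : C) (he : e ∈ bset 𝒩 P Y ref b) :
    e ∈ (unc 𝒩 P Y)ᶜ ∧ bset 𝒩 P Y ref b = blkS 𝒩 P Y ref e := by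
  rw [mem_unc_Blocks]
  rcases b with ⟨i, j⟩ | ⟨y, j⟩
  · simp only [bset, mem_filter, mem_univ, true_and] at he
    obtain ⟨h1, h2, h3⟩ := he
    refine ⟨⟨by rw [h1]; exact j.2, by rw [h2]; exact i.2⟩, ?_⟩
    unfold blkS
    rw [if_neg h3]
    ext e'
    simp only [bset, mem_filter, mem_univ, true_and]
    rw [h1, h2]
  · simp only [bset, mem_filter, mem_univ, true_and] at he
    obtain ⟨rfl, h2, h3⟩ := he
    refine ⟨⟨by rw [h2]; exact j.2, h3.2⟩, ?_⟩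
    unfold blkS
    rw [if_pos h3]
    ext e'
    simp only [bset, mem_filter, mem_univ, true_and]
    rw [h2]
    constructor
    · rintro ⟨h4, h5, -⟩
      exact ⟨h4, h5⟩
    · rintro ⟨h4, h5⟩
      exact ⟨h4, h5, h3⟩

/-- the blocks have at most `n` cells -/
private theorem blk_card_Blocks (𝒩 : Net S C) (hA : Fintype.card A = 𝒩.n) {k K : ℕ}
    (P : Fin k → Finset S) (Y : Fin K → Finset S) (ref : S → S) (D : Finset (S × Fin k × A))
    (f : C → A) (hf : Comp 𝒩 P Y ref D f) (b : BI S k K) : #(bset 𝒩 P Y ref b) ≤ 𝒩.n := by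
  rw [← hA, ← card_univ]
  have hP : ∀ (e : C) (j : Fin k), fi P (𝒩.s e) = j → 𝒩.s e ∈ P j := by
    intro e j h
    have h1 : fi P (𝒩.s e) < k := by rw [h]; exact j.2
    have h2 := fi_mem h1
    have h3 : (⟨fi P (𝒩.s e), h1⟩ : Fin k) = j := Fin.ext h
    rwa [h3] at h2
  have hY : ∀ (e : C) (i : Fin K), fi Y (𝒩.t e) = i → 𝒩.t e ∈ Y i := by
    intro e j h
    have h1 : fi Y (𝒩.t e) < K := by rw [h]; exact j.2
    have h2 := fi_mem h1
    have h3 : (⟨fi Y (𝒩.t e), h1⟩ : Fin K) = j := Fin.ext h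
    rwa [h3] at h2
  rcases b with ⟨i, j⟩ | ⟨y, j⟩
  · refine card_le_card_of_injOn f (fun _ _ => mem_coe.2 (mem_univ _)) ((hf.inj j i).mono ?_)
    intro e he
    rw [mem_coe] at he
    simp only [bset, mem_filter, mem_univ, true_and] at he
    exact ⟨hP e j he.1, hY e i he.2.1⟩
  · refine card_le_card_of_injOn f (fun _ _ => mem_coe.2 (mem_univ _)) ((hf.inj' j y).mono ?_)
    intro e he
    rw [mem_coe] at he
    simp only [bset, mem_filter, mem_univ, true_and] at he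
    exact ⟨he.1, hP e j he.2.1⟩

/-- [AW-K4] Proof: if there is no compatible `f` the left side is `0`.  Otherwise all blocks have at
most `n` elements (a compatible `f` is injective on them).  Take logarithms in `comp_count`;
`log (#b)! ≤ ∑ e ∈ b, (log n - 1 - (1 - #b / n) + (1 + log n) / √n)` by `log_fact_block` (also for
empty `b`), for `e` in the block `b` (a covered cell) `bset b = blkS e`, and
every covered cell is in exactly one block; so the logarithm is at most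
`#unc * log n + ∑ e ∈ uncᶜ, (log n - 1 + (1 + log n) / √n) - Gn`, and there are
`n * card S` cells. -/
theorem comp_exp (𝒩 : Net S C) (hA : Fintype.card A = 𝒩.n) (hn : 55 ≤ 𝒩.n) {k K : ℕ}
    (P : Fin k → Finset S) (Y : Fin K → Finset S) (ref : S → S) (D : Finset (S × Fin k × A)) :
    (#{f : C → A | Comp 𝒩 P Y ref D f} : ℝ) ≤
      Real.exp (𝒩.n * Fintype.card S * (Real.log 𝒩.n - 1) + #(unc 𝒩 P Y) - Gn 𝒩 P Y ref
        + (1 + Real.log 𝒩.n) * √𝒩.n * Fintype.card S) := by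
  rcases (univ.filter fun f : C → A => Comp 𝒩 P Y ref D f).eq_empty_or_nonempty with h0 | ⟨f, hf⟩
  · rw [h0, card_empty, Nat.cast_zero]
    exact (Real.exp_pos _).le
  have hf' : Comp 𝒩 P Y ref D f := (mem_filter.1 hf).2
  have hbn := blk_card_Blocks 𝒩 hA P Y ref D f hf'
  have hn0 : (0 : ℝ) < 𝒩.n := by exact_mod_cast 𝒩.n_pos
  have hcount := comp_count 𝒩 P Y ref D
  rw [hA] at hcount
  have hR : (0 : ℝ) < (𝒩.n : ℝ) ^ #(unc 𝒩 P Y) *
      ∏ b : BI S k K, ((#(bset 𝒩 P Y ref b)).factorial : ℝ) :=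
    mul_pos (pow_pos hn0 _) (prod_pos fun b _ => by exact_mod_cast Nat.factorial_pos _)
  have hcount' : (#{f : C → A | Comp 𝒩 P Y ref D f} : ℝ) ≤ (𝒩.n : ℝ) ^ #(unc 𝒩 P Y) *
      ∏ b : BI S k K, ((#(bset 𝒩 P Y ref b)).factorial : ℝ) := by
    exact_mod_cast hcount
  refine hcount'.trans ?_
  rw [← Real.log_le_iff_le_exp hR]
  rw [Real.log_mul (pow_pos hn0 _).ne' (prod_pos fun b _ => by
      exact_mod_cast Nat.factorial_pos _).ne', Real.log_pow,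
    Real.log_prod (fun b _ => by exact_mod_cast (Nat.factorial_pos _).ne')]
  -- the blocks
  have h1 : ∀ b : BI S k K, Real.log ((#(bset 𝒩 P Y ref b)).factorial : ℝ) ≤
      ∑ e ∈ bset 𝒩 P Y ref b, (Real.log 𝒩.n - 1 - (1 - (#(blkS 𝒩 P Y ref e) : ℝ) / 𝒩.n) +
        (1 + Real.log 𝒩.n) / √𝒩.n) := by
    intro b
    rcases Nat.eq_zero_or_pos #(bset 𝒩 P Y ref b) with h2 | h2
    · have h3 : bset 𝒩 P Y ref b = ∅ := card_eq_zero.1 h2
      rw [h3]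
      simp
    · refine (log_fact_block hn h2 (hbn b)).trans (le_of_eq ?_)
      rw [← nsmul_eq_mul, ← sum_const]
      refine sum_congr rfl fun e he => ?_
      rw [(blk_mem_Blocks 𝒩 P Y ref b e he).2]
  have h2 : ∑ b : BI S k K, ∑ e ∈ bset 𝒩 P Y ref b,
      (Real.log 𝒩.n - 1 - (1 - (#(blkS 𝒩 P Y ref e) : ℝ) / 𝒩.n) + (1 + Real.log 𝒩.n) / √𝒩.n) =
      ∑ e ∈ (unc 𝒩 P Y)ᶜ,
      (Real.log 𝒩.n - 1 - (1 - (#(blkS 𝒩 P Y ref e) : ℝ) / 𝒩.n) + (1 + Real.log 𝒩.n) / √𝒩.n) := by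
    rw [sum_sigma']
    refine sum_bij (fun x _ => x.2) ?_ ?_ ?_ ?_
    · rintro ⟨b, e⟩ hx
      exact (blk_mem_Blocks 𝒩 P Y ref b e (mem_sigma.1 hx).2).1
    · rintro ⟨b, e⟩ hx ⟨b', e'⟩ hx' hee
      have hee' : e = e' := hee
      subst hee'
      obtain ⟨b0, -, hb0⟩ := blk_exists_Blocks 𝒩 P Y ref e
        (blk_mem_Blocks 𝒩 P Y ref b e (mem_sigma.1 hx).2).1
      have e1 : b = b0 := hb0 b (mem_sigma.1 hx).2
      have e2 : b' = b0 := hb0 b' (mem_sigma.1 hx').2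
      rw [e1, e2]
    · intro e he
      obtain ⟨b0, hb0, -⟩ := blk_exists_Blocks 𝒩 P Y ref e he
      exact ⟨⟨b0, e⟩, mem_sigma.2 ⟨mem_univ _, hb0⟩, rfl⟩
    · intro x _
      rfl
  have h3 : ∑ e ∈ (unc 𝒩 P Y)ᶜ,
      (Real.log 𝒩.n - 1 - (1 - (#(blkS 𝒩 P Y ref e) : ℝ) / 𝒩.n) + (1 + Real.log 𝒩.n) / √𝒩.n) =
      #(unc 𝒩 P Y)ᶜ * (Real.log 𝒩.n - 1 + (1 + Real.log 𝒩.n) / √𝒩.n) - Gn 𝒩 P Y ref := by
    unfold Gn
    rw [← nsmul_eq_mul, ← sum_const, ← sum_sub_distrib]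
    refine sum_congr rfl fun e _ => ?_
    ring
  have h4 : (#(unc 𝒩 P Y) : ℝ) + #(unc 𝒩 P Y)ᶜ = 𝒩.n * Fintype.card S := by
    have h5 := card_add_card_compl (unc 𝒩 P Y)
    rw [𝒩.card_C] at h5
    exact_mod_cast h5
  have h5 : ∑ b : BI S k K, Real.log ((#(bset 𝒩 P Y ref b)).factorial : ℝ) ≤
      #(unc 𝒩 P Y)ᶜ * (Real.log 𝒩.n - 1 + (1 + Real.log 𝒩.n) / √𝒩.n) - Gn 𝒩 P Y ref := by
    rw [← h3, ← h2]
    exact sum_le_sum fun b _ => h1 b
  have hl : 0 ≤ Real.log 𝒩.n := Real.log_natCast_nonneg _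
  have hsq : (0 : ℝ) < √𝒩.n := Real.sqrt_pos.2 hn0
  have h6 : (#(unc 𝒩 P Y)ᶜ : ℝ) * ((1 + Real.log 𝒩.n) / √𝒩.n) ≤
      (1 + Real.log 𝒩.n) * √𝒩.n * Fintype.card S := by
    have h7 : (#(unc 𝒩 P Y)ᶜ : ℝ) ≤ 𝒩.n * Fintype.card S := by
      rw [← h4]
      have : (0 : ℝ) ≤ #(unc 𝒩 P Y) := Nat.cast_nonneg _
      linarith
    have h8 : (𝒩.n : ℝ) * Fintype.card S * ((1 + Real.log 𝒩.n) / √𝒩.n) =
        (1 + Real.log 𝒩.n) * √𝒩.n * Fintype.card S := by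
      have h9 : (𝒩.n : ℝ) = √𝒩.n * √𝒩.n := (Real.mul_self_sqrt hn0.le).symm
      have h10 : (𝒩.n : ℝ) / √𝒩.n = √𝒩.n := by
        rw [div_eq_iff hsq.ne']
        exact h9
      calc (𝒩.n : ℝ) * Fintype.card S * ((1 + Real.log 𝒩.n) / √𝒩.n) =
          ((𝒩.n : ℝ) / √𝒩.n) * (1 + Real.log 𝒩.n) * Fintype.card S := by ring
        _ = (1 + Real.log 𝒩.n) * √𝒩.n * Fintype.card S := by rw [h10]; ring
    rw [← h8]
    exact mul_le_mul_of_nonneg_right h7 (by positivity)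
  have h7 : (#(unc 𝒩 P Y)ᶜ : ℝ) = 𝒩.n * Fintype.card S - #(unc 𝒩 P Y) := by linarith
  have h8 : (#(unc 𝒩 P Y)ᶜ : ℝ) * (Real.log 𝒩.n - 1 + (1 + Real.log 𝒩.n) / √𝒩.n) =
      𝒩.n * Fintype.card S * (Real.log 𝒩.n - 1) - #(unc 𝒩 P Y) * (Real.log 𝒩.n - 1) +
        (#(unc 𝒩 P Y)ᶜ : ℝ) * ((1 + Real.log 𝒩.n) / √𝒩.n) := by
    rw [mul_add, h7]
    ring
  rw [h8] at h5
  linarith

end

end AW
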