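import Pool.Agent.Lib_c1afad_aw.Sys

/-!
# [AW-D1] The averaging operator
-/

open Finset

namespace AW

open scoped Classical

noncomputable section

variable {S C A : Type} [Fintype S] [Fintype C]

/-- The averaging operator. -/
def avT (𝒩 : Net S C) (φ : S → ℝ) : S → ℝ := fun y => 𝒩.T φ y / 𝒩.n

/-- The square of the norm. -/
def nsq (φ : S → ℝ) : ℝ := (∑ x, φ x ^ 2) / Fintype.card S

/-- The real indicator function. -/
def indR (P : Finset S) (x : S) : ℝ := if x ∈ P then 1 else 0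

/-- `mom j` : the mean square of the `j`-th average of the indicator function. -/
def mom {W : Type} [Fintype W] (𝒩 : Net S C) (P : W → Finset S) (j : ℕ) : ℝ :=
  Ex fun w => nsq ((avT 𝒩)^[j] (indR (P w)))

private theorem nsq_avT_one_DinA (𝒩 : Net S C) (φ : S → ℝ) : nsq (avT 𝒩 φ) ≤ nsq φ := by
  have hn : (0 : ℝ) < 𝒩.n := by exact_mod_cast 𝒩.n_pos
  have h1 : ∀ y, avT 𝒩 φ y ^ 2 ≤ 𝒩.T (fun x => φ x ^ 2) y / 𝒩.n := by
    intro y
    unfold avT
    rw [Net.T_apply, Net.T_apply, div_pow, div_le_div_iff₀ (by positivity) hn]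
    have h2 := sq_sum_le_card_mul_sum_sq (s := univ.filter fun e => 𝒩.t e = y) (f := fun e => φ (𝒩.s e))
    rw [𝒩.ct y] at h2
    have h3 : (∑ e with 𝒩.t e = y, φ (𝒩.s e)) ^ 2 * (𝒩.n : ℝ) ≤
        (𝒩.n * ∑ e with 𝒩.t e = y, φ (𝒩.s e) ^ 2) * 𝒩.n := mul_le_mul_of_nonneg_right h2 hn.le
    refine h3.trans (le_of_eq ?_)
    ring
  have h4 : ∑ y, avT 𝒩 φ y ^ 2 ≤ ∑ x, φ x ^ 2 := by
    refine (sum_le_sum fun y _ => h1 y).trans (le_of_eq ?_)
    rw [← sum_div, 𝒩.sum_T, nsmul_eq_mul]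
    field_simp
  unfold nsq
  exact div_le_div_of_nonneg_right h4 (Nat.cast_nonneg _)

/-- [AW-D1] `avT` is linear and does not increase `nsq` (Cauchy-Schwarz over the `n` cells coming
into a state, and each state has `n` outgoing cells). -/
theorem nsq_avT_le (𝒩 : Net S C) (φ : S → ℝ) (j : ℕ) : nsq ((avT 𝒩)^[j] φ) ≤ nsq φ := by
  induction j with
  | zero => exact le_refl _
  | succ j ih =>
    rw [Function.iterate_succ_apply']
    exact (nsq_avT_one_DinA 𝒩 _).trans ih

theorem avT_iter_add (𝒩 : Net S C) (φ ψ : S → ℝ) (j : ℕ) :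
    (avT 𝒩)^[j] (fun x => φ x + ψ x) = fun x => (avT 𝒩)^[j] φ x + (avT 𝒩)^[j] ψ x := by
  induction j with
  | zero => rfl
  | succ j ih =>
    rw [Function.iterate_succ_apply', Function.iterate_succ_apply', Function.iterate_succ_apply', ih]
    funext y
    unfold avT
    rw [Net.T_apply, Net.T_apply, Net.T_apply, sum_add_distrib, add_div]

theorem avT_iter_smul (𝒩 : Net S C) (c : ℝ) (φ : S → ℝ) (j : ℕ) :
    (avT 𝒩)^[j] (fun x => c * φ x) = fun x => c * (avT 𝒩)^[j] φ x := by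
  induction j with
  | zero => rfl
  | succ j ih =>
    rw [Function.iterate_succ_apply', Function.iterate_succ_apply', ih]
    funext y
    unfold avT
    rw [Net.T_apply, Net.T_apply, ← mul_sum, mul_div_assoc]

/-- [AW-D1] After `r` steps the average is constant (`T_iter`, `card_S`). -/
theorem avT_iter_r (𝒩 : Net S C) (φ : S → ℝ) (y : S) :
    (avT 𝒩)^[𝒩.r] φ y = (∑ x, φ x) / Fintype.card S := by
  have h1 : ∀ (j : ℕ), (avT 𝒩)^[j] φ = fun y => (𝒩.T)^[j] φ y / (𝒩.n : ℝ) ^ j := by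
    intro j
    induction j with
    | zero =>
      funext y
      simp
    | succ j ih =>
      rw [Function.iterate_succ_apply', Function.iterate_succ_apply', ih]
      funext y
      unfold avT
      rw [Net.T_apply, Net.T_apply, ← sum_div, div_div, pow_succ]
  rw [h1]
  show (𝒩.T)^[𝒩.r] φ y / (𝒩.n : ℝ) ^ 𝒩.r = _
  rw [𝒩.T_iter, 𝒩.card_S, Nat.cast_pow]

end

end AW
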