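import Pool.Agent.Lib_c1afad_aw.DinA

/-!
# [AW-D2] The moments
-/

open Finset

namespace AW

open scoped Classical

noncomputable section

variable {S C A : Type} [Fintype S] [Fintype C] [Fintype A]

variable {𝒩 : Net S C} {f : C → A} {p L : ℕ} {W : Type} [Fintype W] {P : W → Finset S}

private theorem sum_indR_DinB (Q : Finset S) : ∑ x, indR Q x = #Q := by
  simp [indR]

private theorem sum_indR_sq_DinB (Q : Finset S) : ∑ x, indR Q x ^ 2 = #Q := by
  rw [← sum_indR_DinB]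
  refine sum_congr rfl fun x _ => ?_
  unfold indR
  split_ifs <;> norm_num

private theorem T_indR_DinB (𝒩 : Net S C) (Q : Finset S) (y : S) :
    𝒩.T (indR Q) y = (inn 𝒩 Q y : ℝ) := by
  rw [Net.T_apply]
  simp only [indR, inn]
  rw [← sum_filter, filter_filter, sum_const, nsmul_eq_mul, mul_one]

private theorem pS_DinB (𝒩 : Net S C) (hpL : p * L = Fintype.card S) :
    (p : ℝ) / Fintype.card S = 1 / L := by
  have h1 := 𝒩.card_S_pos
  rw [← hpL] at h1
  have hp : (p : ℝ) ≠ 0 := by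
    have : p ≠ 0 := by
      rintro rfl
      simp at h1
    exact_mod_cast this
  have hL : (L : ℝ) ≠ 0 := by
    have : L ≠ 0 := by
      rintro rfl
      simp at h1
    exact_mod_cast this
  rw [← hpL, Nat.cast_mul]
  field_simp

/-- [AW-D2] `mom 0 = 1 / L` (use `card`), `mom r = (1 / L) ^ 2` (use `avT_iter_r`), and
`mom 1 = (1 / L) * (the mean of alpha)`. -/
theorem mom_zero (h : Sys 𝒩 f p W P) (hpL : p * L = Fintype.card S) : mom 𝒩 P 0 = 1 / L := by
  have hW := h.ne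
  have h1 : mom 𝒩 P 0 = Ex fun _ : W => (1 : ℝ) / L := by
    unfold mom
    refine Ex_congr fun w => ?_
    show nsq (indR (P w)) = _
    unfold nsq
    rw [sum_indR_sq_DinB, h.card w, pS_DinB 𝒩 hpL]
  rw [h1, Ex_const]

theorem mom_r (h : Sys 𝒩 f p W P) (hpL : p * L = Fintype.card S) : mom 𝒩 P 𝒩.r = (1 / L) ^ 2 := by
  have hW := h.ne
  have hS : (Fintype.card S : ℝ) ≠ 0 := by exact_mod_cast 𝒩.card_S_pos.ne'
  have h1 : mom 𝒩 P 𝒩.r = Ex fun _ : W => ((1 : ℝ) / L) ^ 2 := by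
    unfold mom
    refine Ex_congr fun w => ?_
    unfold nsq
    have h2 : ∀ y, (avT 𝒩)^[𝒩.r] (indR (P w)) y = 1 / L := by
      intro y
      rw [avT_iter_r, sum_indR_DinB, h.card w, pS_DinB 𝒩 hpL]
    simp only [h2]
    rw [sum_const, card_univ, nsmul_eq_mul, mul_div_cancel_left₀ _ hS]
  rw [h1, Ex_const]

theorem mom_one (hL : 1 ≤ L) : L * mom 𝒩 P 1 = (∑ y, alpha 𝒩 L P y) / Fintype.card S := by
  have h1 : mom 𝒩 P 1 = ∑ y, Ex (fun w => ((inn 𝒩 (P w) y : ℝ) / 𝒩.n) ^ 2) / Fintype.card S := by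
    have h2 : mom 𝒩 P 1 =
        Ex fun w => ∑ y, (((inn 𝒩 (P w) y : ℝ) / 𝒩.n) ^ 2) / Fintype.card S := by
      unfold mom
      refine Ex_congr fun w => ?_
      rw [Function.iterate_one]
      unfold nsq avT
      simp only [T_indR_DinB]
      rw [sum_div]
    rw [h2, Ex_sum]
    refine sum_congr rfl fun y _ => ?_
    rw [Ex_div]
  rw [h1, ← sum_div, ← mul_div_assoc, mul_sum]
  rfl

end

end AW
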