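import Pool.Agent.Lib_c1afad_aw.DinA

/-!
# [AW-D3] The moments of the next generation
-/

open Finset

namespace AW

open scoped Classical

noncomputable section

variable {S C A : Type} [Fintype S] [Fintype C] [Fintype A]

variable {𝒩 : Net S C} {f : C → A} {p L : ℕ} {W : Type} [Fintype W] {P : W → Finset S}

private theorem avT_Ex_DinC (𝒩 : Net S C) (g : A → S → ℝ) :
    avT 𝒩 (fun x => Ex fun a => g a x) = fun y => Ex fun a => avT 𝒩 (g a) y := by
  funext y
  simp only [avT, Net.T_apply]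
  rw [← Ex_sum, ← Ex_div]

private theorem iter_Ex_DinC (𝒩 : Net S C) (j : ℕ) : ∀ g : A → S → ℝ,
    (avT 𝒩)^[j] (fun x => Ex fun a => g a x) = fun y => Ex fun a => (avT 𝒩)^[j] (g a) y := by
  induction j with
  | zero => intro g; rfl
  | succ j ih =>
    intro g
    rw [Function.iterate_succ_apply, avT_Ex_DinC, ih]
    rfl

private theorem key_DinC [Nonempty A] (𝒩 : Net S C) (g : A → S → ℝ) (j : ℕ) :
    (Ex fun a => nsq ((avT 𝒩)^[j] (g a))) =
      nsq ((avT 𝒩)^[j] (fun x => Ex fun a => g a x)) +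
        Ex fun a => nsq ((avT 𝒩)^[j] (fun x => g a x - Ex fun a => g a x)) := by
  set m : S → ℝ := fun x => Ex fun a => g a x with hm
  set M : S → ℝ := (avT 𝒩)^[j] m with hM
  set D : A → S → ℝ := fun a => (avT 𝒩)^[j] (fun x => g a x - m x) with hD
  have hG : ∀ a, (avT 𝒩)^[j] (g a) = fun x => M x + D a x := by
    intro a
    rw [hM, hD, ← avT_iter_add]
    congr 1
    funext x
    ring
  have h0 : ∀ x, (Ex fun a => D a x) = 0 := by
    intro x
    have e1 : M x = Ex fun a => (avT 𝒩)^[j] (g a) x := congrFun (iter_Ex_DinC 𝒩 j g) x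
    have e2 : (Ex fun a => (avT 𝒩)^[j] (g a) x) = M x + Ex fun a => D a x := by
      rw [show (fun a => (avT 𝒩)^[j] (g a) x) = fun a => M x + D a x from
        funext fun a => congrFun (hG a) x, Ex_add, Ex_const]
    linarith
  have h1 : ∀ a, nsq ((avT 𝒩)^[j] (g a)) =
      nsq M + nsq (D a) + (2 * ∑ x, M x * D a x) / Fintype.card S := by
    intro a
    rw [hG a]
    unfold nsq
    rw [← add_div, ← add_div, mul_sum, ← sum_add_distrib, ← sum_add_distrib]
    congr 1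
    exact sum_congr rfl fun x _ => by ring
  rw [Ex_congr h1, Ex_add, Ex_add, Ex_const, Ex_div, Ex_mul, Ex_sum]
  have h2 : ∑ x, (Ex fun a => M x * D a x) = 0 := by
    refine sum_eq_zero fun x _ => ?_
    rw [Ex_mul, h0, mul_zero]
  rw [h2, mul_zero, zero_div, add_zero]

private theorem mean_DinC (hA : Fintype.card A = 𝒩.n) (h : Sys 𝒩 f p W P) (w : W) :
    (fun x => Ex fun a => indR (fw 𝒩 f (P w) a) x) = avT 𝒩 (indR (P w)) := by
  funext x
  have h1 : ∀ a, indR (fw 𝒩 f (P w) a) x = 𝒩.F f a (indR (P w)) x := by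
    intro a
    have h2 : indR (fw 𝒩 f (P w) a) x = ((ind (fw 𝒩 f (P w) a) x : ℕ) : ℝ) := by
      unfold indR ind
      split_ifs <;> simp
    rw [h2, ind_fw (h.le_one w a), Net.F_apply, Net.F_apply, Nat.cast_sum]
    refine sum_congr rfl fun e _ => ?_
    unfold indR ind
    split_ifs <;> simp
  unfold Ex avT
  rw [sum_congr rfl fun a _ => h1 a, Net.sum_F, hA]

/-- [AW-D3] For a set `P` with `F f a (ind P) ≤ 1` for all `a`, and `g a = indR (fw P a)`,
`g` has mean `avT (indR P)` over the labels `a`.  So with `d a = g a - avT (indR P)`, of mean `0`,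
`Ex_a nsq (avT^[j] (g a)) = nsq (avT^[j+1] (indR P)) + Ex_a nsq (avT^[j] (d a))`
`≤ nsq (avT^[j+1] (indR P)) + Ex_a nsq (d a)` and
`Ex_a nsq (d a) = Ex_a nsq (g a) - nsq (avT (indR P))`.  Average over `w`. -/
theorem mom_next (hA : Fintype.card A = 𝒩.n) (h : Sys 𝒩 f p W P) (j : ℕ) :
    mom 𝒩 (fun q : W × A => fw 𝒩 f (P q.1) q.2) j ≤ mom 𝒩 P (j + 1)
      + (mom 𝒩 (fun q : W × A => fw 𝒩 f (P q.1) q.2) 0 - mom 𝒩 P 1) := by
  have hA' : Nonempty A := Fintype.card_pos_iff.1 (hA ▸ 𝒩.n_pos)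
  have hw : ∀ w, (Ex fun a => nsq ((avT 𝒩)^[j] (indR (fw 𝒩 f (P w) a)))) ≤
      nsq ((avT 𝒩)^[j + 1] (indR (P w))) +
        ((Ex fun a => nsq ((avT 𝒩)^[0] (indR (fw 𝒩 f (P w) a)))) -
          nsq ((avT 𝒩)^[1] (indR (P w)))) := by
    intro w
    have k1 := key_DinC 𝒩 (fun a => indR (fw 𝒩 f (P w) a)) j
    have k2 := key_DinC 𝒩 (fun a => indR (fw 𝒩 f (P w) a)) 0
    have k3 := mean_DinC hA h w
    have k4 : (Ex fun a => nsq ((avT 𝒩)^[j] (fun x => indR (fw 𝒩 f (P w) a) x -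
        Ex fun a => indR (fw 𝒩 f (P w) a) x))) ≤
        Ex fun a => nsq ((avT 𝒩)^[0] (fun x => indR (fw 𝒩 f (P w) a) x -
        Ex fun a => indR (fw 𝒩 f (P w) a) x)) :=
      Ex_mono fun a => nsq_avT_le 𝒩 _ j
    rw [k3] at k1 k2
    rw [Function.iterate_succ_apply, k1, k2]
    have e1 : (avT 𝒩)^[1] (indR (P w)) = (avT 𝒩)^[0] (avT 𝒩 (indR (P w))) := rfl
    rw [e1]
    linarith
  unfold mom
  rw [Ex_prod, Ex_prod, ← Ex_sub, ← Ex_add]
  exact Ex_mono hw

end

end AW
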