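import Pool.Agent.Lib_c1afad_aw.DinB
import Pool.Agent.Lib_c1afad_aw.DinC

/-!
# [AW-D4] A generation with a small second moment
-/

open Finset

namespace AW

open scoped Classical

noncomputable section

variable {S C A : Type} [Fintype S] [Fintype C] [Fintype A]

variable {𝒩 : Net S C} {f : C → A} {p L : ℕ} {W : Type} [Fintype W] {P : W → Finset S}

/-- [AW-D4] Proof.  Suppose not, then all systems `(W, P)` with `p` and with `Cross` for all `Y` in
`𝒴` have `mom 0 - mom 1 < δ := (1 / L - (1 / L) ^ 2) / r` (by `mom_one`).  By induction on `j ≥ 1`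
all these systems have `1 / L < mom j + j * δ` (step: `mom_next`, `mom_zero` for the next system).
For `j = r` this contradicts `mom_r`. -/
theorem exists_mom (hA : Fintype.card A = 𝒩.n) (h : Sys 𝒩 f p W P)
    (hpL : p * L = Fintype.card S) (hL : 2 ≤ L) (𝒴 : Set (Finset S))
    (hc : ∀ w, ∀ Y ∈ 𝒴, Cross 𝒩 f (P w) Y) :
    ∃ (W' : Type) (_ : Fintype W') (P' : W' → Finset S), Sys 𝒩 f p W' P' ∧
      (∀ w, ∀ Y ∈ 𝒴, Cross 𝒩 f (P' w) Y) ∧
      (Fintype.card S : ℝ) / (2 * 𝒩.r) ≤ ∑ y, (1 - alpha 𝒩 L P' y) := by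
  by_contra hcon
  have hL0 : (0 : ℝ) < L := by
    have : 0 < L := by omega
    exact_mod_cast this
  have hr0 : (0 : ℝ) < 𝒩.r := by exact_mod_cast 𝒩.rpos
  have hS0 : (0 : ℝ) < Fintype.card S := by exact_mod_cast 𝒩.card_S_pos
  set δ : ℝ := 1 / (2 * 𝒩.r * L) with hδ
  have hone : ∀ (W' : Type) [Fintype W'] (P' : W' → Finset S), Sys 𝒩 f p W' P' →
      (∀ w, ∀ Y ∈ 𝒴, Cross 𝒩 f (P' w) Y) → 1 / (L : ℝ) < mom 𝒩 P' 1 + δ := by
    intro W' i P' h' hc'
    have h1 : ∑ y, (1 - alpha 𝒩 L P' y) < (Fintype.card S : ℝ) / (2 * 𝒩.r) := by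
      by_contra hh
      exact hcon ⟨W', i, P', h', hc', not_lt.1 hh⟩
    have h2 := mom_one (𝒩 := 𝒩) (P := P') (L := L) (by omega)
    rw [sum_sub_distrib, sum_const, card_univ, nsmul_eq_mul, mul_one] at h1
    have h3 : ∑ y, alpha 𝒩 L P' y = L * mom 𝒩 P' 1 * Fintype.card S := by
      rw [h2]
      field_simp
    rw [h3] at h1
    have h4 : (Fintype.card S : ℝ) / (2 * 𝒩.r) = Fintype.card S * (L * δ) := by
      rw [hδ]
      field_simp
    rw [h4] at h1
    have h5 : (1 : ℝ) < L * mom 𝒩 P' 1 + L * δ := by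
      by_contra hh
      have h6 := mul_le_mul_of_nonneg_left (not_lt.1 hh) hS0.le
      linarith [mul_add (Fintype.card S : ℝ) (L * mom 𝒩 P' 1) (L * δ),
        mul_comm (Fintype.card S : ℝ) (L * mom 𝒩 P' 1)]
    rw [div_lt_iff₀ hL0]
    linarith
  have key : ∀ (j : ℕ) (W' : Type) [Fintype W'] (P' : W' → Finset S), Sys 𝒩 f p W' P' →
      (∀ w, ∀ Y ∈ 𝒴, Cross 𝒩 f (P' w) Y) →
      1 / (L : ℝ) < mom 𝒩 P' (j + 1) + (j + 1) * δ := by
    intro j
    induction j with
    | zero =>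
      intro W' i P' h' hc'
      have := hone W' P' h' hc'
      simpa using this
    | succ j ih =>
      intro W' i P' h' hc'
      have h1 := hone W' P' h' hc'
      have h2 := h'.next hA
      have h3 := ih (W' × A) (fun q => fw 𝒩 f (P' q.1) q.2) h2
        fun q Y hY => (hc' q.1 Y hY).next (h'.le_one q.1 q.2)
      have h4 := mom_next hA h' (j + 1)
      have h5 := mom_zero h2 hpL
      rw [h5] at h4
      push_cast
      linarith
  obtain ⟨j, hj⟩ : ∃ j, 𝒩.r = j + 1 := ⟨𝒩.r - 1, by have := 𝒩.rpos; omega⟩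
  have h1 := key j W P h hc
  rw [← hj, mom_r h hpL] at h1
  have h2 : ((j : ℝ) + 1) * δ = 1 / (2 * L) := by
    have h3 : (𝒩.r : ℝ) = j + 1 := by rw [hj]; push_cast; ring
    rw [hδ, ← h3]
    field_simp
  rw [h2] at h1
  have h3 : (2 : ℝ) ≤ L := by exact_mod_cast hL
  have h4 : (1 / (L : ℝ)) ^ 2 ≤ 1 / (2 * L) := by
    rw [div_pow, one_pow, sq]
    exact one_div_le_one_div_of_le (by positivity) (mul_le_mul_of_nonneg_right h3 hL0.le)
  have h5 : 1 / (2 * (L : ℝ)) + 1 / (2 * L) = 1 / L := by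
    field_simp
    norm_num
  linarith

end

end AW
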