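import Pool.Agent.Lib_c1afad_aw.WordDefs
import Pool.Agent.Lib_c1afad_ap.Trans

/-!
# [AW-P4], [AW-P5] Transitive rules
-/

open Finset

namespace AW

open scoped Classical

noncomputable section

variable {A : Type}

private theorem pre_DpoC (k : ℕ) {f : (Fin (k + 2) → A) → A} (h : RPermW k f) (M : ℤ)
    (x₀ x' : ℤ → A) (h' : ∀ i : ℤ, i ≤ M - (k + 1) → x' i = CAw k f x₀ i) :
    ∃ x : ℤ → A, (∀ i ≤ M, x i = x₀ i) ∧ CAw k f x = x' := by
  have hs : ∀ (u : Fin (k + 1) → A) (b : A), ∃ a, f (Fin.snoc u a) = b := fun u b => (h u).2 b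
  choose ch hch using hs
  obtain ⟨X, hX0, hXs⟩ : ∃ X : ℕ → ℤ → A, X 0 = x₀ ∧ ∀ n : ℕ, X (n + 1) =
      Function.update (X n) (M + 1 + n) (ch (fun j => X n (M + 1 + n - (k + 1) + ((j : ℕ) : ℤ)))
        (x' (M + 1 + n - (k + 1)))) :=
    ⟨fun n => Nat.rec x₀ (fun n Xn => Function.update Xn (M + 1 + n)
      (ch (fun j => Xn (M + 1 + n - (k + 1) + ((j : ℕ) : ℤ))) (x' (M + 1 + n - (k + 1))))) n,
      rfl, fun n => rfl⟩
  -- stability
  have hst : ∀ (n m : ℕ) (i : ℤ), i ≤ M + n → n ≤ m → X m i = X n i := by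
    intro n m i hi hnm
    induction m, hnm using Nat.le_induction with
    | base => rfl
    | succ m hm ih =>
      rw [hXs, Function.update_of_ne (by omega), ih]
  have hle : ∀ (n : ℕ) (i : ℤ), i ≤ M → X n i = x₀ i := by
    intro n i hi
    rw [hst 0 n i (by simpa using hi) (Nat.zero_le n), hX0]
  obtain ⟨x, hx⟩ : ∃ x : ℤ → A, ∀ i, x i = X (i - M).toNat i := ⟨fun i => X (i - M).toNat i, fun _ => rfl⟩
  have hxn : ∀ (n : ℕ) (i : ℤ), i ≤ M + n → x i = X n i := by
    intro n i hi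
    rw [hx]
    exact (hst (i - M).toNat n i (by omega) (by omega)).symm
  refine ⟨x, fun i hi => ?_, ?_⟩
  · rw [hx]
    exact hle _ i hi
  · funext i
    by_cases hi : i ≤ M - (k + 1)
    · rw [h' i hi]
      show f (fun j => x (i + (j : ℕ))) = f (fun j => x₀ (i + (j : ℕ)))
      congr 1
      funext j
      have hj := j.2
      rw [hx]
      exact hle _ _ (by omega)
    · obtain ⟨n, hn⟩ : ∃ n : ℕ, i = M + 1 + n - (k + 1) := ⟨(i - M + k).toNat, by omega⟩
      show f (fun j => x (i + (j : ℕ))) = x' i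
      have h1 : (fun j : Fin (k + 2) => x (i + (j : ℕ))) =
          Fin.snoc (fun j : Fin (k + 1) => X n (M + 1 + n - (k + 1) + ((j : ℕ) : ℤ)))
            (ch (fun j => X n (M + 1 + n - (k + 1) + ((j : ℕ) : ℤ))) (x' (M + 1 + n - (k + 1)))) := by
        funext j
        refine Fin.lastCases ?_ (fun j => ?_) j
        · rw [Fin.snoc_last]
          have e : i + ((Fin.last (k + 1) : Fin (k + 2)) : ℕ) = M + 1 + n := by
            rw [Fin.val_last, hn]
            push_cast
            ring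
          rw [e, hxn (n + 1) _ (by push_cast; omega), hXs, Function.update_self]
        · rw [Fin.snoc_castSucc]
          have hj := j.2
          have e : i + ((j.castSucc : Fin (k + 2)) : ℕ) = M + 1 + n - (k + 1) + ((j : ℕ) : ℤ) := by
            rw [Fin.val_castSucc, hn]
          rw [e]
          exact hxn n _ (by omega)
      rw [h1, hch, hn]

private theorem claim_DpoC (k : ℕ) {f : (Fin (k + 2) → A) → A} (h : RPermW k f) (y₀ : ℤ → A) :
    ∀ (t : ℕ) (M : ℤ) (x₀ : ℤ → A), ∃ x : ℤ → A, (∀ i ≤ M, x i = x₀ i) ∧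
      ∀ i : ℤ, M - t * (k + 1) < i → ((CAw k f)^[t] x) i = y₀ i := by
  intro t
  induction t with
  | zero =>
    intro M x₀
    refine ⟨fun i => if i ≤ M then x₀ i else y₀ i, fun i hi => if_pos hi, fun i hi => ?_⟩
    rw [Nat.cast_zero, zero_mul, sub_zero] at hi
    exact if_neg (not_le.2 hi)
  | succ t ih =>
    intro M x₀
    obtain ⟨x', h1, h2⟩ := ih (M - (k + 1)) (CAw k f x₀)
    obtain ⟨x, h3, h4⟩ := pre_DpoC k h M x₀ x' h1
    refine ⟨x, h3, fun i hi => ?_⟩
    rw [Function.iterate_succ_apply, h4]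
    refine h2 i ?_
    push_cast at hi
    linarith

/-- [AW-P4] A right permutive rule is topologically transitive.  Proof.  Claim: for all `t`, `M : ℤ`
and `x₀, y₀` there is `x` with `x i = x₀ i` for `i ≤ M` and `F^t x i = y₀ i` for all
`i > M - t`.  For `t = 0` clear. Step: by the claim for `M - 1`, `F x₀`, `y₀`, `t` there is `x'` with
`x' i = F x₀ i` for `i ≤ M - 1` and `F^t x' i = y₀ i` for `i > M - 1 - t`; by permutivity choose
`x (i + k + 1)` recursively for `i + k + 1 > M` with `F x i = x' i`.  (For window `k + 2`: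
`F x i = x' i` for `i ≤ M - k - 1` must come from `x = x₀` on `(-∞, M]`, so use `M - (k + 1)`
in place of `M - 1`: the claim is `F^t x i = y₀ i` for `i > M - t * (k + 1)`.) -/
theorem transitive_of_rpermW [Finite A] [TopologicalSpace A] [DiscreteTopology A] (k : ℕ)
    {f : (Fin (k + 2) → A) → A} (h : RPermW k f) : PermCA.Transitive (CAw k f) := by
  intro U V hU hV ⟨x₀, hx₀⟩ ⟨y₀, hy₀⟩
  rw [isOpen_pi_iff] at hU hV
  obtain ⟨I, u, hu, hsub⟩ := hU x₀ hx₀
  obtain ⟨J, v, hv, hsub'⟩ := hV y₀ hy₀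
  obtain ⟨K, hK⟩ : ∃ K : ℕ, ∀ i ∈ I ∪ J, |i| ≤ (K : ℤ) := by
    refine ⟨(I ∪ J).sup fun i => i.natAbs, fun i hi => ?_⟩
    have : i.natAbs ≤ (I ∪ J).sup fun i => i.natAbs := le_sup (f := fun i : ℤ => i.natAbs) hi
    rw [← Int.natCast_natAbs]
    exact_mod_cast this
  obtain ⟨x, h1, h2⟩ := claim_DpoC k h y₀ (2 * K + 1) K x₀
  refine ⟨2 * K + 1, (CAw k f)^[2 * K + 1] x, ⟨x, hsub fun i hi => ?_, rfl⟩, hsub' fun j hj => ?_⟩
  · have hik := hK i (mem_union_left _ hi)
    rw [abs_le] at hik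
    rw [h1 i hik.2]
    exact (hu i hi).2
  · have hjk := hK j (mem_union_right _ hj)
    rw [abs_le] at hjk
    rw [h2 j ?_]
    · exact (hv j hj).2
    · push_cast
      have h3 : (0 : ℤ) ≤ (2 * K + 1) * k := by positivity
      nlinarith [hjk.1]

/-- [AW-P5] -/
theorem continuous_CAw [Finite A] [TopologicalSpace A] [DiscreteTopology A] (k : ℕ)
    (f : (Fin (k + 2) → A) → A) : Continuous (CAw k f) := by
  refine continuous_pi fun i => ?_
  have h1 : Continuous f := continuous_of_discreteTopology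
  exact h1.comp (continuous_pi fun j => continuous_apply (i + ((j : ℕ) : ℤ)))

theorem surjective_of_transitiveW [Finite A] [Nontrivial A] [TopologicalSpace A]
    [DiscreteTopology A] (k : ℕ) {f : (Fin (k + 2) → A) → A} (h : PermCA.Transitive (CAw k f)) :
    Function.Surjective (CAw k f) := by
  intro y
  by_contra hy
  have hV : IsOpen (Set.range (CAw k f))ᶜ :=
    (isCompact_range (continuous_CAw k f)).isClosed.isOpen_compl
  have hy' : y ∈ (Set.range (CAw k f))ᶜ := hy
  obtain ⟨I, u, hu, hsub⟩ := isOpen_pi_iff.1 hV y hy'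
  obtain ⟨i₀, hi₀⟩ := Infinite.exists_notMem_finset I
  obtain ⟨a, ha⟩ := exists_ne (y i₀)
  have hc : Continuous fun x : ℤ → A => x i₀ := continuous_apply i₀
  have h1 : IsOpen ((Set.range (CAw k f))ᶜ ∩ {x | x i₀ = y i₀}) :=
    hV.inter ((isOpen_discrete {y i₀}).preimage hc)
  have h2 : IsOpen ((Set.range (CAw k f))ᶜ ∩ {x | x i₀ ≠ y i₀}) :=
    hV.inter ((isOpen_discrete {y i₀}ᶜ).preimage hc)
  have hz : Function.update y i₀ a ∈ (Set.range (CAw k f))ᶜ := by
    apply hsub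
    intro i hi
    have : i ≠ i₀ := fun e => hi₀ (e ▸ hi)
    rw [Function.update_of_ne this]
    exact (hu i hi).2
  obtain ⟨n, z, ⟨x, hx, hxz⟩, hzV⟩ := h _ _ h1 h2 ⟨y, hy', rfl⟩
    ⟨Function.update y i₀ a, hz, by simpa using ha⟩
  cases n with
  | zero =>
    have : x = z := hxz
    exact hzV.2 (this ▸ hx.2)
  | succ n =>
    rw [Function.iterate_succ_apply'] at hxz
    exact hzV.1 ⟨_, hxz⟩

end

end AW
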