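import Pool.Agent.Lib_c1afad_aw.WordDefs

/-!
# [AW-W5] The number of right permutive rules
-/

open Finset

namespace AW

open scoped Classical

noncomputable section

/-- A right permutive rule is a family of permutations. -/
private def equiv_WordD (n k : ℕ) :
    {f : (Fin (k + 2) → Fin n) → Fin n // RPermW k f} ≃ ((Fin (k + 1) → Fin n) → Equiv.Perm (Fin n)) where
  toFun f := fun u => Equiv.ofBijective _ (f.2 u)
  invFun g := ⟨fun e => g (Fin.init (α := fun _ => Fin n) e) (e (Fin.last _)), by
    intro u
    have : (fun a => g (Fin.init (α := fun _ => Fin n) (Fin.snoc (α := fun _ => Fin n) u a))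
        ((Fin.snoc (α := fun _ => Fin n) u a : Fin (k + 2) → Fin n) (Fin.last _))) = g u := by
      funext a
      rw [Fin.init_snoc, Fin.snoc_last]
    show Function.Bijective (fun a => g (Fin.init (α := fun _ => Fin n) (Fin.snoc (α := fun _ => Fin n) u a))
        ((Fin.snoc (α := fun _ => Fin n) u a : Fin (k + 2) → Fin n) (Fin.last _)))
    rw [this]
    exact (g u).bijective⟩
  left_inv f := by
    apply Subtype.ext
    funext e
    show f.1 (Fin.snoc (α := fun _ => Fin n) (Fin.init (α := fun _ => Fin n) e) (e (Fin.last _))) = f.1 e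
    rw [Fin.snoc_init_self]
  right_inv g := by
    funext u
    apply Equiv.ext
    intro a
    show g (Fin.init (α := fun _ => Fin n) (Fin.snoc (α := fun _ => Fin n) u a))
        ((Fin.snoc (α := fun _ => Fin n) u a : Fin (k + 2) → Fin n) (Fin.last _)) = g u a
    rw [Fin.init_snoc, Fin.snoc_last]

/-- [AW-W5] The number of right permutive rules. -/
theorem card_rpermW (n k : ℕ) :
    {f : (Fin (k + 2) → Fin n) → Fin n | RPermW k f}.ncard = n.factorial ^ (n ^ (k + 1)) := by
  rw [← Nat.card_coe_set_eq]
  have h := Nat.card_congr (equiv_WordD n k)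
  rw [Nat.card_fun, Nat.card_perm, Nat.card_fun, Nat.card_fin, Nat.card_fin] at h
  exact h

end

end AW
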