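import Pool.Agent.Lib_c1afad_aw.WordC
import Pool.Agent.Lib_c1afad_aw.WordD

/-!
# Words
-/

open Finset

namespace AW

open scoped Classical

noncomputable section

variable {A : Type}

end

end AW
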