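import Pool.Agent.Lib_c1afad_aw.DpoB
import Pool.Agent.Lib_c1afad_aw.DpoC
import Pool.Agent.Lib_c1afad_aw.Words

/-!
# Permutive rules of window `k + 2`
-/

open Finset

namespace AW

open scoped Classical

noncomputable section



end

end AW
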