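import Pool.Agent.Lib_c1afad_aw.WordDefs
import Pool.Agent.Lib_c1afad_ap.Per

/-!
# [AW-P1], [AW-P2] The rule on blocks
-/

open Finset

namespace AW

open scoped Classical

noncomputable section

variable {A : Type}

/-- The rule of window two on the blocks of length `k + 1`. -/
def blkR (k : ℕ) (f : (Fin (k + 2) → A) → A) (u v : Fin (k + 1) → A) : Fin (k + 1) → A :=
  fun j => f fun l => if h : (j : ℕ) + l < k + 1 then u ⟨j + l, h⟩ else v ⟨j + l - (k + 1), by omega⟩

/-- The block coding. -/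
def cod (k : ℕ) (x : ℤ → A) : ℤ → Fin (k + 1) → A := fun i j => x (i * (k + 1) + (j : ℕ))

private theorem div_DpoA (k : ℕ) (i : ℤ) (j : Fin (k + 1)) :
    (i * (k + 1) + (j : ℕ)) / ((k : ℤ) + 1) = i := by
  have hj : ((j : ℕ) : ℤ) < (k : ℤ) + 1 := by exact_mod_cast j.isLt
  have h0 : (0 : ℤ) ≤ ((j : ℕ) : ℤ) := Int.natCast_nonneg _
  have hk : (0 : ℤ) < (k : ℤ) + 1 := by positivity
  rw [add_comm, Int.add_mul_ediv_right _ _ hk.ne', Int.ediv_eq_zero_of_lt h0 hj, zero_add]

private theorem mod_DpoA (k : ℕ) (i : ℤ) (j : Fin (k + 1)) :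
    ((i * (k + 1) + (j : ℕ)) % ((k : ℤ) + 1)).toNat = (j : ℕ) := by
  have hj : ((j : ℕ) : ℤ) < (k : ℤ) + 1 := by exact_mod_cast j.isLt
  have h0 : (0 : ℤ) ≤ ((j : ℕ) : ℤ) := Int.natCast_nonneg _
  rw [add_comm, Int.add_mul_emod_self_right, Int.emod_eq_of_lt h0 hj, Int.toNat_natCast]

private theorem modlt_DpoA (k : ℕ) (i : ℤ) : (i % ((k : ℤ) + 1)).toNat < k + 1 := by
  have hk : (0 : ℤ) < (k : ℤ) + 1 := by positivity
  have h1 := Int.emod_lt_of_pos i hk
  have h2 := Int.emod_nonneg i hk.ne'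
  omega

private theorem decomp_DpoA (k : ℕ) (i : ℤ) :
    i / ((k : ℤ) + 1) * ((k : ℤ) + 1) + (((i % ((k : ℤ) + 1)).toNat : ℕ) : ℤ) = i := by
  have hk : (0 : ℤ) < (k : ℤ) + 1 := by positivity
  rw [Int.toNat_of_nonneg (Int.emod_nonneg i hk.ne'), mul_comm]
  exact Int.mul_ediv_add_emod i _

/-- [AW-P1] `cod` is a bijection (inverse: `x i = z (i / (k + 1)) (i % (k + 1))`). -/
theorem cod_bijective (k : ℕ) : Function.Bijective (cod (A := A) k) := by
  constructor
  · intro x y h
    funext i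
    have h1 := congrFun (congrFun h (i / ((k : ℤ) + 1))) ⟨(i % ((k : ℤ) + 1)).toNat, modlt_DpoA k i⟩
    simp only [cod] at h1
    rw [decomp_DpoA] at h1
    exact h1
  · intro z
    refine ⟨fun i => z (i / ((k : ℤ) + 1)) ⟨(i % ((k : ℤ) + 1)).toNat, modlt_DpoA k i⟩, ?_⟩
    funext i j
    simp only [cod]
    have h2 : (⟨((i * (k + 1) + (j : ℕ)) % ((k : ℤ) + 1)).toNat, modlt_DpoA k _⟩ : Fin (k + 1)) = j :=
      Fin.ext (mod_DpoA k i j)
    rw [h2, div_DpoA]

theorem cod_CAw (k : ℕ) (f : (Fin (k + 2) → A) → A) (x : ℤ → A) :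
    cod k (CAw k f x) = PermCA.CA (blkR k f) (cod k x) := by
  funext i j
  show f (fun l : Fin (k + 2) => x (i * (k + 1) + (j : ℕ) + (l : ℕ)))
    = f fun l : Fin (k + 2) => if h : (j : ℕ) + l < k + 1 then x (i * (k + 1) + ((j + l : ℕ) : ℕ))
        else x ((i + 1) * (k + 1) + ((j + l - (k + 1) : ℕ) : ℕ))
  congr 1
  funext l
  split_ifs with h
  · congr 1
    push_cast
    ring
  · congr 1
    have : (((j : ℕ) + l - (k + 1) : ℕ) : ℤ) = (j : ℕ) + (l : ℕ) - (k + 1) := by omega
    rw [this]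
    ring

/-- [AW-P2] If `f` is permutive then so is the rule on blocks. -/
theorem blkR_lperm [Finite A] (k : ℕ) {f : (Fin (k + 2) → A) → A} (h : LPermW k f) :
    PermCA.LPerm (blkR k f) := by
  intro v
  rw [← Finite.injective_iff_bijective]
  intro u u' huv
  have key : ∀ m : ℕ, ∀ j : Fin (k + 1), k - (j : ℕ) < m → u j = u' j := by
    intro m
    induction m with
    | zero => intro j hj; omega
    | succ m ih =>
      intro j hj
      have h1 : f _ = f _ := congrFun huv j
      have hrest : ∀ l : Fin (k + 1),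
          (if h : (j : ℕ) + ((Fin.succ l : Fin (k + 2)) : ℕ) < k + 1 then u ⟨j + ((Fin.succ l : Fin (k + 2)) : ℕ), h⟩
            else v ⟨j + ((Fin.succ l : Fin (k + 2)) : ℕ) - (k + 1), by omega⟩)
          = (if h : (j : ℕ) + ((Fin.succ l : Fin (k + 2)) : ℕ) < k + 1 then u' ⟨j + ((Fin.succ l : Fin (k + 2)) : ℕ), h⟩
            else v ⟨j + ((Fin.succ l : Fin (k + 2)) : ℕ) - (k + 1), by omega⟩) := by
        intro l
        split_ifs with hl
        · apply ih
          rw [Fin.val_succ] at *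
          show k - ((j : ℕ) + ((l : ℕ) + 1)) < m
          omega
        · rfl
      have h2 := (h (fun l : Fin (k + 1) =>
        if h : (j : ℕ) + ((Fin.succ l : Fin (k + 2)) : ℕ) < k + 1 then u ⟨j + ((Fin.succ l : Fin (k + 2)) : ℕ), h⟩
            else v ⟨j + ((Fin.succ l : Fin (k + 2)) : ℕ) - (k + 1), by omega⟩)).1
      apply h2
      show f (Fin.cons (u j) _) = f (Fin.cons (u' j) _)
      have e1 : (Fin.cons (α := fun _ => A) (u j) (fun l : Fin (k + 1) =>
          if h : (j : ℕ) + ((Fin.succ l : Fin (k + 2)) : ℕ) < k + 1 then u ⟨j + ((Fin.succ l : Fin (k + 2)) : ℕ), h⟩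
            else v ⟨j + ((Fin.succ l : Fin (k + 2)) : ℕ) - (k + 1), by omega⟩) : Fin (k + 2) → A)
          = fun l : Fin (k + 2) => if h : (j : ℕ) + (l : ℕ) < k + 1 then u ⟨j + l, h⟩ else v ⟨j + l - (k + 1), by omega⟩ := by
        funext l
        refine Fin.cases ?_ (fun l => ?_) l
        · rw [Fin.cons_zero]
          simp
          intro hh
          have := j.isLt
          omega
        · rw [Fin.cons_succ]
      have e2 : (Fin.cons (α := fun _ => A) (u' j) (fun l : Fin (k + 1) =>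
          if h : (j : ℕ) + ((Fin.succ l : Fin (k + 2)) : ℕ) < k + 1 then u ⟨j + ((Fin.succ l : Fin (k + 2)) : ℕ), h⟩
            else v ⟨j + ((Fin.succ l : Fin (k + 2)) : ℕ) - (k + 1), by omega⟩) : Fin (k + 2) → A)
          = fun l : Fin (k + 2) => if h : (j : ℕ) + (l : ℕ) < k + 1 then u' ⟨j + l, h⟩ else v ⟨j + l - (k + 1), by omega⟩ := by
        funext l
        refine Fin.cases ?_ (fun l => ?_) l
        · rw [Fin.cons_zero]
          simp
          intro hh
          have := j.isLt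
          omega
        · rw [Fin.cons_succ]
          exact hrest l
      rw [e1, e2]
      exact h1
  funext j
  exact key (k + 1) j (by omega)

theorem blkR_rperm [Finite A] (k : ℕ) {f : (Fin (k + 2) → A) → A} (h : RPermW k f) :
    PermCA.RPerm (blkR k f) := by
  intro u
  rw [← Finite.injective_iff_bijective]
  intro v v' huv
  have key : ∀ m : ℕ, ∀ j : Fin (k + 1), (j : ℕ) < m → v j = v' j := by
    intro m
    induction m with
    | zero => intro j hj; omega
    | succ m ih =>
      intro j hj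
      have h1 : f _ = f _ := congrFun huv j
      have hrest : ∀ l : Fin (k + 1),
          (if h : (j : ℕ) + ((Fin.castSucc l : Fin (k + 2)) : ℕ) < k + 1 then u ⟨j + ((Fin.castSucc l : Fin (k + 2)) : ℕ), h⟩
            else v ⟨j + ((Fin.castSucc l : Fin (k + 2)) : ℕ) - (k + 1), by omega⟩)
          = (if h : (j : ℕ) + ((Fin.castSucc l : Fin (k + 2)) : ℕ) < k + 1 then u ⟨j + ((Fin.castSucc l : Fin (k + 2)) : ℕ), h⟩
            else v' ⟨j + ((Fin.castSucc l : Fin (k + 2)) : ℕ) - (k + 1), by omega⟩) := by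
        intro l
        split_ifs with hl
        · rfl
        · apply ih
          rw [Fin.val_castSucc] at *
          show (j : ℕ) + (l : ℕ) - (k + 1) < m
          omega
      have h2 := (h (fun l : Fin (k + 1) =>
        if h : (j : ℕ) + ((Fin.castSucc l : Fin (k + 2)) : ℕ) < k + 1 then u ⟨j + ((Fin.castSucc l : Fin (k + 2)) : ℕ), h⟩
            else v ⟨j + ((Fin.castSucc l : Fin (k + 2)) : ℕ) - (k + 1), by omega⟩)).1
      apply h2
      show f (Fin.snoc _ (v j)) = f (Fin.snoc _ (v' j))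
      have e1 : (Fin.snoc (α := fun _ => A) (fun l : Fin (k + 1) =>
          if h : (j : ℕ) + ((Fin.castSucc l : Fin (k + 2)) : ℕ) < k + 1 then u ⟨j + ((Fin.castSucc l : Fin (k + 2)) : ℕ), h⟩
            else v ⟨j + ((Fin.castSucc l : Fin (k + 2)) : ℕ) - (k + 1), by omega⟩) (v j) : Fin (k + 2) → A)
          = fun l : Fin (k + 2) => if h : (j : ℕ) + (l : ℕ) < k + 1 then u ⟨j + l, h⟩ else v ⟨j + l - (k + 1), by omega⟩ := by
        funext l
        refine Fin.lastCases ?_ (fun l => ?_) l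
        · rw [Fin.snoc_last]
          simp
          intro hh
          omega
        · rw [Fin.snoc_castSucc]
      have e2 : (Fin.snoc (α := fun _ => A) (fun l : Fin (k + 1) =>
          if h : (j : ℕ) + ((Fin.castSucc l : Fin (k + 2)) : ℕ) < k + 1 then u ⟨j + ((Fin.castSucc l : Fin (k + 2)) : ℕ), h⟩
            else v ⟨j + ((Fin.castSucc l : Fin (k + 2)) : ℕ) - (k + 1), by omega⟩) (v' j) : Fin (k + 2) → A)
          = fun l : Fin (k + 2) => if h : (j : ℕ) + (l : ℕ) < k + 1 then u ⟨j + l, h⟩ else v' ⟨j + l - (k + 1), by omega⟩ := by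
        funext l
        refine Fin.lastCases ?_ (fun l => ?_) l
        · rw [Fin.snoc_last]
          simp
          intro hh
          omega
        · rw [Fin.snoc_castSucc]
          exact hrest l
      rw [e1, e2]
      exact h1
  funext j
  exact key (k + 1) j j.isLt

end

end AW
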