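import Pool.Agent.Lib_c1afad_aw.DpoA

/-!
# [AW-P3] Dense periodic points
-/

open Finset

namespace AW

open scoped Classical

noncomputable section

variable {A : Type}

private theorem rem_DpoB (k : ℕ) (i : ℤ) : (i % ((k : ℤ) + 1)).toNat < k + 1 := by
  have h1 : (0 : ℤ) < (k : ℤ) + 1 := by positivity
  have h2 := Int.emod_nonneg i h1.ne'
  have h3 := Int.emod_lt_of_pos i h1
  omega

private theorem val_DpoB (k : ℕ) (x : ℤ → A) (i : ℤ) :
    cod k x (i / ((k : ℤ) + 1)) ⟨(i % ((k : ℤ) + 1)).toNat, rem_DpoB k i⟩ = x i := by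
  have h1 : (0 : ℤ) < (k : ℤ) + 1 := by positivity
  have h2 := Int.emod_nonneg i h1.ne'
  show x (i / ((k : ℤ) + 1) * ((k : ℤ) + 1) + ((i % ((k : ℤ) + 1)).toNat : ℕ)) = x i
  congr 1
  rw [Int.toNat_of_nonneg h2]
  exact Int.ediv_mul_add_emod i _

private theorem abs_DpoB (k K : ℕ) (i : ℤ) (hi : |i| ≤ K) : |i / ((k : ℤ) + 1)| ≤ K := by
  have h1 : (0 : ℤ) < (k : ℤ) + 1 := by positivity
  rw [abs_le] at hi ⊢
  constructor
  · rw [Int.le_ediv_iff_mul_le h1]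
    nlinarith [hi.1, hi.2, Int.natCast_nonneg k, Int.natCast_nonneg K]
  · refine Int.ediv_le_of_le_mul h1 ?_
    nlinarith [hi.1, hi.2, Int.natCast_nonneg k, Int.natCast_nonneg K]

/-- [AW-P3] Density of the jointly periodic points. -/
theorem dense_of_permW [Finite A] [TopologicalSpace A] [DiscreteTopology A] (k : ℕ)
    {f : (Fin (k + 2) → A) → A} (h : LPermW k f ∨ RPermW k f) :
    Dense (PermCA.JP (CAw k f)) := by
  have hg : PermCA.LPerm (blkR k f) ∨ PermCA.RPerm (blkR k f) := h.imp (blkR_lperm k) (blkR_rperm k)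
  have hw : ∀ (z : ℤ → Fin (k + 1) → A) (K : ℕ),
      ∃ y ∈ PermCA.JP (PermCA.CA (blkR k f)), ∀ i : ℤ, |i| ≤ K → y i = z i := by
    intro z K
    rcases hg with h | h
    · exact PermCA.lperm_window h (@PermCA.surjective_of_lperm _ _ ⊥ (@DiscreteTopology.mk _ ⊥ rfl) _ h) z K
    · exact PermCA.rperm_window h (@PermCA.surjective_of_rperm _ _ ⊥ (@DiscreteTopology.mk _ ⊥ rfl) _ h) z K
  refine PermCA.dense_of_window fun x K => ?_
  obtain ⟨z, ⟨⟨P, hP, hzP⟩, T, hT, hzT⟩, hzx⟩ := hw (cod k x) K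
  obtain ⟨y, rfl⟩ := (cod_bijective k).2 z
  have h1 : (0 : ℤ) < (k : ℤ) + 1 := by positivity
  refine ⟨y, ⟨⟨P * ((k : ℤ) + 1), ?_, fun i => ?_⟩, T, hT, ?_⟩, fun i hi => ?_⟩
  · exact Int.add_one_le_of_lt (mul_pos (by omega) h1)
  · have e1 : (i + P * ((k : ℤ) + 1)) / ((k : ℤ) + 1) = i / ((k : ℤ) + 1) + P :=
      Int.add_mul_ediv_right _ _ h1.ne'
    have e2 : (i + P * ((k : ℤ) + 1)) % ((k : ℤ) + 1) = i % ((k : ℤ) + 1) := Int.add_mul_emod_self_right _ _ _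
    have e3 : (⟨((i + P * ((k : ℤ) + 1)) % ((k : ℤ) + 1)).toNat, rem_DpoB k _⟩ : Fin (k + 1)) =
        ⟨(i % ((k : ℤ) + 1)).toNat, rem_DpoB k i⟩ := Fin.ext (by simp only [e2])
    rw [← val_DpoB k y (i + P * ((k : ℤ) + 1)), e3, e1, hzP, val_DpoB]
  · apply (cod_bijective k).1
    have hs : Function.Semiconj (cod (A := A) k) (CAw k f) (PermCA.CA (blkR k f)) := fun x => cod_CAw k f x
    rw [(hs.iterate_right T).eq, hzT]
  · rw [← val_DpoB k y i, ← val_DpoB k x i, hzx _ (abs_DpoB k K i hi)]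

end

end AW
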