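import Mathlib

/-!
# Averages over finite sample spaces
-/

open Finset

namespace AW

open scoped Classical

noncomputable section

/-- The average of a function over a finite type. -/
def Ex {Ω : Type} [Fintype Ω] (g : Ω → ℝ) : ℝ := (∑ ω, g ω) / Fintype.card Ω

variable {Ω Ω' : Type} [Fintype Ω] [Fintype Ω']

theorem Ex_add (g h : Ω → ℝ) : Ex (fun ω => g ω + h ω) = Ex g + Ex h := by
  simp only [Ex, sum_add_distrib, add_div]

theorem Ex_sub (g h : Ω → ℝ) : Ex (fun ω => g ω - h ω) = Ex g - Ex h := by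
  simp only [Ex, sum_sub_distrib, sub_div]

theorem Ex_mul (c : ℝ) (g : Ω → ℝ) : Ex (fun ω => c * g ω) = c * Ex g := by
  simp only [Ex, ← mul_sum, mul_div_assoc]

theorem Ex_mul_right (g : Ω → ℝ) (c : ℝ) : Ex (fun ω => g ω * c) = Ex g * c := by
  simp only [Ex, ← sum_mul, div_mul_eq_mul_div]

theorem Ex_div (g : Ω → ℝ) (c : ℝ) : Ex (fun ω => g ω / c) = Ex g / c := by
  simp only [div_eq_mul_inv, Ex_mul_right]

theorem Ex_sum {ι : Type} (I : Finset ι) (g : ι → Ω → ℝ) :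
    Ex (fun ω => ∑ i ∈ I, g i ω) = ∑ i ∈ I, Ex (g i) := by
  simp only [Ex]
  rw [sum_comm, sum_div]

theorem Ex_const [Nonempty Ω] (c : ℝ) : Ex (fun _ : Ω => c) = c := by
  have : (Fintype.card Ω : ℝ) ≠ 0 := by exact_mod_cast Fintype.card_ne_zero
  simp only [Ex, sum_const, card_univ, nsmul_eq_mul]
  field_simp

theorem Ex_zero : Ex (fun _ : Ω => (0 : ℝ)) = 0 := by simp [Ex]

theorem Ex_mono {g h : Ω → ℝ} (H : ∀ ω, g ω ≤ h ω) : Ex g ≤ Ex h := by
  unfold Ex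
  gcongr with ω
  exact H ω

theorem Ex_nonneg {g : Ω → ℝ} (H : ∀ ω, 0 ≤ g ω) : 0 ≤ Ex g := by
  unfold Ex
  have := sum_nonneg fun ω (_ : ω ∈ univ) => H ω
  positivity

theorem Ex_congr {g h : Ω → ℝ} (H : ∀ ω, g ω = h ω) : Ex g = Ex h := by
  rw [show g = h from funext H]

theorem exists_Ex_le [Nonempty Ω] (g : Ω → ℝ) : ∃ ω, Ex g ≤ g ω := by
  by_contra h
  push Not at h
  have h1 : ∑ ω, g ω < ∑ _ω : Ω, Ex g :=
    sum_lt_sum_of_nonempty univ_nonempty fun ω _ => h ω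
  have h2 : (0 : ℝ) < Fintype.card Ω := by exact_mod_cast Fintype.card_pos
  rw [sum_const, card_univ, nsmul_eq_mul] at h1
  unfold Ex at h1
  field_simp at h1
  exact lt_irrefl _ h1

theorem Ex_equiv (e : Ω ≃ Ω') (g : Ω' → ℝ) : Ex (fun ω => g (e ω)) = Ex g := by
  simp only [Ex, Fintype.card_congr e, Equiv.sum_comp e]

theorem Ex_prod (g : Ω × Ω' → ℝ) : Ex g = Ex fun ω => Ex fun ω' => g (ω, ω') := by
  simp only [Ex, Fintype.card_prod, Fintype.sum_prod_type, Nat.cast_mul, ← sum_div]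
  rw [div_div, mul_comm (Fintype.card Ω : ℝ)]

theorem Ex_swap (g : Ω → Ω' → ℝ) : (Ex fun ω => Ex fun ω' => g ω ω') = Ex fun ω' => Ex fun ω => g ω ω' := by
  simp only [Ex, ← sum_div]
  rw [sum_comm, div_div, div_div, mul_comm (Fintype.card Ω : ℝ)]

theorem Ex_prod_mul (g : Ω → ℝ) (h : Ω' → ℝ) :
    Ex (fun q : Ω × Ω' => g q.1 * h q.2) = Ex g * Ex h := by
  rw [Ex_prod]
  simp only [Ex_mul, Ex_mul_right]

theorem Ex_fst [Nonempty Ω'] (g : Ω → ℝ) : Ex (fun q : Ω × Ω' => g q.1) = Ex g := by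
  rw [Ex_prod]
  simp only [Ex_const]

theorem Ex_snd [Nonempty Ω] (g : Ω' → ℝ) : Ex (fun q : Ω × Ω' => g q.2) = Ex g := by
  rw [Ex_prod]
  simp only [Ex_const]

theorem Ex_cons {k : ℕ} (g : (Fin (k + 1) → Ω) → ℝ) :
    Ex g = Ex fun w : Ω => Ex fun ω : Fin k → Ω => g (Fin.cons w ω) := by
  rw [← Ex_equiv (Fin.consEquiv fun _ : Fin (k + 1) => Ω) g, Ex_prod]
  rfl

theorem Ex_apply [Nonempty Ω] {k : ℕ} (j : Fin k) (φ : Ω → ℝ) :
    Ex (fun ω : Fin k → Ω => φ (ω j)) = Ex φ := by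
  induction k with
  | zero => exact j.elim0
  | succ k ih =>
    rw [Ex_cons]
    refine Fin.cases ?_ (fun j => ?_) j
    · simp only [Fin.cons_zero, Ex_const]
    · simp only [Fin.cons_succ, ih, Ex_const]

theorem Ex_ite_card (Q : Ω → Prop) [DecidablePred Q] : Ex (fun ω => if Q ω then (1 : ℝ) else 0) =
    (#{ω | Q ω} : ℝ) / Fintype.card Ω := by
  simp [Ex]

end

end AW
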