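import Pool.Agent.Lib_c1afad_aw.Main
import Pool.Agent.Lib_c1afad_aw.Dpo

/-!
# Almost all surjective rules of window `k + 2` are permutive
-/

open Finset

namespace AW

/-- The rules of window `k + 2` on `n` letters with a surjective cellular automaton. -/
def SurjW (k n : ℕ) : Set ((Fin (k + 2) → Fin n) → Fin n) := {f | Function.Surjective (CAw k f)}

/-- The rules of window `k + 2` on `n` letters with a topologically transitive cellular automaton. -/
def TransW (k n : ℕ) : Set ((Fin (k + 2) → Fin n) → Fin n) := {f | PermCA.Transitive (CAw k f)}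

/-- The rules of `SurjW k n` which are neither left nor right permutive. -/
def BadW (k n : ℕ) : Set ((Fin (k + 2) → Fin n) → Fin n) :=
  {f | f ∈ SurjW k n ∧ ¬ LPermW k f ∧ ¬ RPermW k f}

theorem main (k : ℕ) {ε : ℝ} (hε : 0 < ε) : ∃ n₀ : ℕ, ∀ n : ℕ, n₀ ≤ n →
    ((BadW k n).ncard : ℝ) ≤ 2 ^ (-((n : ℝ) ^ ((k : ℝ) + 2 - ε))) * ((TransW k n).ncard : ℝ) ∧
    TransW k n ⊆ SurjW k n ∧
    ∀ f ∈ SurjW k n, f ∉ BadW k n → Dense (PermCA.JP (CAw k f)) := by
  obtain ⟨n₀, hn₀⟩ := numeric (k + 1) (by omega) hε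
  refine ⟨n₀, fun n hn => ?_⟩
  obtain ⟨q, lam, T, hn55, hq, hlam, h1, h2⟩ := hn₀ n hn
  have : Nonempty (Fin n) := ⟨⟨0, by omega⟩⟩
  have : Nontrivial (Fin n) := Fin.nontrivial_iff_two_le.2 (by omega)
  refine ⟨?_, fun f hf => surjective_of_transitiveW k hf, fun f hf hb => ?_⟩
  · have e1 : (wordNet (Fin n) k).n = n := Fintype.card_fin n
    have e2 : (wordNet (Fin n) k).r = k + 1 := rfl
    have hA : Fintype.card (Fin n) = (wordNet (Fin n) k).n := rfl
    have h := bad_le (wordNet (Fin n) k) (ε := ε) (q := q) (lam := lam) (T := T) hA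
      (by rw [e1]; exact hn55) hq hlam (by rw [e1, e2]; exact h1) (by rw [e1, e2]; exact_mod_cast h2)
    rw [e1, e2] at h
    have h3 : (BadW k n).ncard ≤ Set.ncard {f : (Fin (k + 2) → Fin n) → Fin n |
        Full (wordNet (Fin n) k) f ∧ ¬ PermT (wordNet (Fin n) k) f ∧
          ¬ PermT (wordNet (Fin n) k).rev f} := by
      apply Set.ncard_le_ncard _ (Set.toFinite _)
      rintro f ⟨hf, hl, hr⟩
      exact ⟨full_of_surjective k hf, fun h => hl (lpermW_of_permT k h),
        fun h => hr (rpermW_of_permT k h)⟩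
    have h5 : (n.factorial : ℝ) ^ (n ^ (k + 1)) ≤ ((TransW k n).ncard : ℝ) := by
      have : n.factorial ^ (n ^ (k + 1)) ≤ (TransW k n).ncard := by
        rw [← card_rpermW n k]
        exact Set.ncard_le_ncard (fun f hf => transitive_of_rpermW k hf) (Set.toFinite _)
      exact_mod_cast this
    have h6 : ((k + 1 : ℕ) : ℝ) + 1 - ε = (k : ℝ) + 2 - ε := by push_cast; ring
    rw [h6] at h
    have h3' : ((BadW k n).ncard : ℝ) ≤ _ := Nat.cast_le.2 h3
    exact h3'.trans (h.trans (mul_le_mul_of_nonneg_left h5 (by positivity)))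
  · apply dense_of_permW
    by_contra hh
    push Not at hh
    exact hb ⟨hf, hh.1, hh.2⟩

end AW
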