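import Pool.Agent.Lib_c1afad_aw.GainA

/-!
# [AW-G2] Two functions which are large at one end of every cell
-/

open Finset

namespace AW

open scoped Classical

noncomputable section

variable {S C : Type} [Fintype S] [Fintype C]

private theorem card_eq_sum_Gain (p : S → Prop) [DecidablePred p] :
    ((#(univ.filter fun x => p x) : ℕ) : ℝ) = ∑ x, if p x then (1 : ℝ) else 0 := by
  rw [card_filter]
  push_cast
  rfl

private theorem half_Gain {N E u v x r : ℝ} (hE : 0 ≤ E) (hN : 0 < N) (h8 : 8 * E < N)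
    (hx : x ≤ 4 * E) (hcov : N ≤ u + v + x) (huv : v ≤ u) (hv0 : 0 ≤ v) (hr : 0 ≤ r)
    (hmix : u * v ≤ r * x * N) : v ≤ 16 * r * E := by
  have hu : N / 4 ≤ u := by linarith
  have h1 : N / 4 * v ≤ u * v := mul_le_mul_of_nonneg_right hu hv0
  have h2 : r * x * N ≤ r * (4 * E) * N := by
    have := mul_le_mul_of_nonneg_left hx hr
    exact mul_le_mul_of_nonneg_right this hN.le
  have h3 : N * v ≤ N * (16 * r * E) := by nlinarith
  exact le_of_mul_le_mul_left h3 hN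

/-- [AW-G2] Proof.  Let `U = {h < 1/2}`, `V = {g < 1/2}`, `X = {g ≥ 1/2, h ≥ 1/2}`.  By `hedge`
a cell starting in `U` ends outside of `V`, so in `X` or in `U`.  By `mix_bound`
`#U #V ≤ r #X N`.  Put `ε N = ∑ g h`.  Then `#X ≤ 4 ε N`, and the sum of `h` over `U \ V` (where
`g ≥ 1/2`) is at most `2 ε N`, similarly for `g` over `V \ U`.  As `#U + #V ≥ N - #X`, one of them,
say `#U`, is at least `(1 - 4 ε) N / 2` and then `#V ≤ 8 r ε N / (1 - 4 ε)`.  Then
`δ N ≤ ∑ h ≤ 2 ε N + #V + #X`, so `δ ≤ 6 ε + 8 r ε / (1 - 4 ε)`.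
If `ε ≤ 1/8` this is at most `(6 + 16 r) ε`; if `ε > 1/8` the claim holds as `δ ≤ 1`. -/
theorem gain (𝒩 : Net S C) {g h : S → ℝ} (hg0 : ∀ x, 0 ≤ g x) (hg1 : ∀ x, g x ≤ 1)
    (hh0 : ∀ x, 0 ≤ h x) (hh1 : ∀ x, h x ≤ 1) (hedge : ∀ e, 1 / 2 ≤ g (𝒩.t e) ∨ 1 / 2 ≤ h (𝒩.s e))
    {δ : ℝ} (hg : δ * Fintype.card S ≤ ∑ x, g x) (hh : δ * Fintype.card S ≤ ∑ x, h x) :
    δ * Fintype.card S ≤ (16 * 𝒩.r + 16) * ∑ x, g x * h x := by
  have hN : (0 : ℝ) < Fintype.card S := by exact_mod_cast 𝒩.card_S_pos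
  obtain ⟨N, hNd⟩ : ∃ N : ℝ, N = Fintype.card S := ⟨_, rfl⟩
  obtain ⟨E, hEd⟩ : ∃ E : ℝ, E = ∑ x, g x * h x := ⟨_, rfl⟩
  have hN' : N = ∑ _x : S, (1 : ℝ) := by
    rw [hNd]
    simp
  have hE0 : 0 ≤ E := by
    rw [hEd]
    exact sum_nonneg fun x _ => mul_nonneg (hg0 x) (hh0 x)
  have hr0 : (0 : ℝ) ≤ 𝒩.r := Nat.cast_nonneg _
  rw [← hNd] at hg hh hN ⊢
  rw [← hEd]
  have hgN : ∑ x, g x ≤ N := by
    rw [hN']
    exact sum_le_sum fun x _ => hg1 x
  by_cases h8 : N ≤ 8 * E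
  · nlinarith
  · rw [not_le] at h8
    have hmix := mix_bound 𝒩 (univ.filter fun x => h x < 1 / 2) (univ.filter fun x => g x < 1 / 2)
      (univ.filter fun x => 1 / 2 ≤ g x ∧ 1 / 2 ≤ h x) (by
        intro e he
        rw [mem_filter] at he
        have h1 : 1 / 2 ≤ g (𝒩.t e) := by
          rcases hedge e with h1 | h1
          · exact h1
          · linarith [he.2]
        by_cases h2 : h (𝒩.t e) < 1 / 2
        · left
          exact mem_filter.2 ⟨mem_univ _, h2⟩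
        · right
          exact mem_filter.2 ⟨mem_univ _, h1, not_lt.1 h2⟩) (by
        intro e he
        rw [mem_filter] at he
        rw [mem_filter]
        rintro ⟨-, h3⟩
        rcases hedge e with h1 | h1
        · linarith
        · linarith [he.2])
    have hmix' : ((#(univ.filter fun x => h x < 1 / 2) : ℕ) : ℝ) *
        ((#(univ.filter fun x => g x < 1 / 2) : ℕ) : ℝ) ≤
        (𝒩.r : ℝ) * ((#(univ.filter fun x => 1 / 2 ≤ g x ∧ 1 / 2 ≤ h x) : ℕ) : ℝ) * N := by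
      rw [hNd]
      exact_mod_cast hmix
    have hX : ((#(univ.filter fun x => 1 / 2 ≤ g x ∧ 1 / 2 ≤ h x) : ℕ) : ℝ) ≤ 4 * E := by
      rw [card_eq_sum_Gain, hEd, mul_sum]
      refine sum_le_sum fun x _ => ?_
      have h0 := mul_nonneg (hg0 x) (hh0 x)
      split_ifs with hx
      · nlinarith [hx.1, hx.2]
      · linarith
    have hcov : N ≤ ((#(univ.filter fun x => h x < 1 / 2) : ℕ) : ℝ) +
        ((#(univ.filter fun x => g x < 1 / 2) : ℕ) : ℝ) +
        ((#(univ.filter fun x => 1 / 2 ≤ g x ∧ 1 / 2 ≤ h x) : ℕ) : ℝ) := by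
      rw [card_eq_sum_Gain, card_eq_sum_Gain, card_eq_sum_Gain, ← sum_add_distrib,
        ← sum_add_distrib, hN']
      refine sum_le_sum fun x _ => ?_
      by_cases h1 : h x < 1 / 2
      · rw [if_pos h1]
        split_ifs <;> norm_num
      · by_cases h2 : g x < 1 / 2
        · rw [if_pos h2]
          split_ifs <;> norm_num
        · rw [if_pos (⟨not_lt.1 h2, not_lt.1 h1⟩ : 1 / 2 ≤ g x ∧ 1 / 2 ≤ h x)]
          split_ifs
          norm_num
    have hSh : ∑ x, h x ≤ 2 * E + ((#(univ.filter fun x => g x < 1 / 2) : ℕ) : ℝ) := by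
      rw [card_eq_sum_Gain, hEd, mul_sum, ← sum_add_distrib]
      refine sum_le_sum fun x _ => ?_
      have h0 := mul_nonneg (hg0 x) (hh0 x)
      split_ifs with hx
      · linarith [hh1 x]
      · nlinarith [not_lt.1 hx, hh0 x]
    have hSg : ∑ x, g x ≤ 2 * E + ((#(univ.filter fun x => h x < 1 / 2) : ℕ) : ℝ) := by
      rw [card_eq_sum_Gain, hEd, mul_sum, ← sum_add_distrib]
      refine sum_le_sum fun x _ => ?_
      have h0 := mul_nonneg (hg0 x) (hh0 x)
      split_ifs with hx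
      · linarith [hg1 x]
      · nlinarith [not_lt.1 hx, hg0 x]
    rcases le_total ((#(univ.filter fun x => g x < 1 / 2) : ℕ) : ℝ)
      ((#(univ.filter fun x => h x < 1 / 2) : ℕ) : ℝ) with hc | hc
    · have h5 := half_Gain hE0 hN h8 hX hcov hc (Nat.cast_nonneg _) hr0 hmix'
      nlinarith
    · rw [mul_comm ((#(univ.filter fun x => h x < 1 / 2) : ℕ) : ℝ)] at hmix'
      have h5 := half_Gain hE0 hN h8 hX (by linarith) hc (Nat.cast_nonneg _) hr0 hmix'
      nlinarith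

end

end AW
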