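import Pool.Agent.Lib_c1afad_aw.Sys

/-!
# [AW-G1] Mixing
-/

open Finset

namespace AW

open scoped Classical

noncomputable section

variable {S C : Type} [Fintype S] [Fintype C]

private theorem T_mono_GainA (𝒩 : Net S C) {φ ψ : S → ℕ} (h : ∀ x, φ x ≤ ψ x) (y : S) :
    𝒩.T φ y ≤ 𝒩.T ψ y := by
  rw [Net.T_apply, Net.T_apply]
  exact Finset.sum_le_sum fun e _ => h _

private theorem T_lin_GainA (𝒩 : Net S C) (a b : ℕ) (φ ψ χ : S → ℕ) (y : S) :
    𝒩.T (fun x => a * φ x + b * ψ x + χ x) y = a * 𝒩.T φ y + b * 𝒩.T ψ y + 𝒩.T χ y := by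
  simp only [Net.T_apply, Finset.sum_add_distrib, Finset.mul_sum]

private theorem T_le_GainA (𝒩 : Net S C) (U : Finset S) (j : ℕ) (x : S) :
    (𝒩.T)^[j] (ind U) x ≤ 𝒩.n ^ j := by
  induction j generalizing x with
  | zero =>
    simp only [Function.iterate_zero, id_eq, pow_zero, ind]
    split_ifs <;> simp
  | succ j ih =>
    rw [Function.iterate_succ_apply', Net.T_apply]
    refine (Finset.sum_le_sum fun e _ => ih (𝒩.s e)).trans ?_
    rw [Finset.sum_const, 𝒩.ct, smul_eq_mul, pow_succ, mul_comm]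

private theorem sum_ind_GainA (U : Finset S) : ∑ x, ind U x = #U := by
  simp [ind]

/-- [AW-G1] Proof.  Show by induction on `j` : there is `R : S → ℕ` with
`T^[j + 1] (ind U) y ≤ n ^ j * T (ind U) y + R y` for all `y` and
`∑ y, R y ≤ j * n ^ (j + 1) * #X`.  Step: for every state `x`,
`T^[j + 1] (ind U) x ≤ n ^ (j + 1) * ind U x + n ^ (j + 1) * ind X x + R x` :
if `x ∈ U` or `x ∈ X` use `T^[j + 1] (ind U) x ≤ n ^ (j + 1)`; otherwise no cell goes from `U` to `x`
by `h1`, so `T (ind U) x = 0`.  Apply `T` : the new `R` is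
`n ^ (j + 1) * T (ind X) + T R`, with sum `n ^ (j + 2) * #X + n * ∑ R` (`sum_T`).
For `j + 1 = r` and `y ∈ V` : `#U = T^[r] (ind U) y ≤ R y` (`T_iter`, and `T (ind U) y = 0` by `h2`);
sum over `V` and use `card_S`. -/
theorem mix_bound (𝒩 : Net S C) (U V X : Finset S)
    (h1 : ∀ e, 𝒩.s e ∈ U → 𝒩.t e ∈ U ∨ 𝒩.t e ∈ X) (h2 : ∀ e, 𝒩.s e ∈ U → 𝒩.t e ∉ V) :
    #U * #V ≤ 𝒩.r * #X * Fintype.card S := by
  have key : ∀ j : ℕ, ∃ R : S → ℕ, (∀ y, (𝒩.T)^[j + 1] (ind U) y ≤ 𝒩.n ^ j * 𝒩.T (ind U) y + R y) ∧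
      ∑ y, R y ≤ j * 𝒩.n ^ (j + 1) * #X := by
    intro j
    induction j with
    | zero => exact ⟨fun _ => 0, fun y => by simp, by simp⟩
    | succ j ih =>
      obtain ⟨R, hR, hs⟩ := ih
      refine ⟨fun y => 𝒩.n ^ (j + 1) * 𝒩.T (ind X) y + 𝒩.T R y, fun y => ?_, ?_⟩
      · have h3 : ∀ x, (𝒩.T)^[j + 1] (ind U) x ≤
            𝒩.n ^ (j + 1) * ind U x + 𝒩.n ^ (j + 1) * ind X x + R x := by
          intro x
          by_cases hxU : x ∈ U
          · have h4 := T_le_GainA 𝒩 U (j + 1) x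
            simp only [ind, hxU, if_true, mul_one] at h4 ⊢
            omega
          · by_cases hxX : x ∈ X
            · have h4 := T_le_GainA 𝒩 U (j + 1) x
              simp only [ind, hxX, if_true, mul_one] at h4 ⊢
              omega
            · have h5 : 𝒩.T (ind U) x = 0 := by
                rw [Net.T_apply]
                refine Finset.sum_eq_zero fun e he => ?_
                have h6 : 𝒩.t e = x := (Finset.mem_filter.1 he).2
                by_cases h7 : 𝒩.s e ∈ U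
                · rcases h1 e h7 with h8 | h8
                  · exact absurd (h6 ▸ h8) hxU
                  · exact absurd (h6 ▸ h8) hxX
                · simp [ind, h7]
              have h9 := hR x
              rw [h5, mul_zero, zero_add] at h9
              exact h9.trans (Nat.le_add_left _ _)
        rw [Function.iterate_succ_apply']
        refine (T_mono_GainA 𝒩 h3 y).trans ?_
        rw [T_lin_GainA, add_assoc]
      · rw [Finset.sum_add_distrib, ← Finset.mul_sum, 𝒩.sum_T, 𝒩.sum_T, sum_ind_GainA, smul_eq_mul,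
          smul_eq_mul]
        have h4 := Nat.mul_le_mul_left 𝒩.n hs
        calc 𝒩.n ^ (j + 1) * (𝒩.n * #X) + 𝒩.n * ∑ x, R x
            ≤ 𝒩.n ^ (j + 1) * (𝒩.n * #X) + 𝒩.n * (j * 𝒩.n ^ (j + 1) * #X) := by gcongr
          _ = (j + 1) * 𝒩.n ^ (j + 1 + 1) * #X := by ring
  have hr := 𝒩.rpos
  obtain ⟨j, hj⟩ : ∃ j, 𝒩.r = j + 1 := ⟨𝒩.r - 1, by omega⟩
  obtain ⟨R, hR, hs⟩ := key j
  have h3 : ∀ y ∈ V, #U ≤ R y := by
    intro y hy
    have h4 := hR y
    rw [← hj, 𝒩.T_iter, sum_ind_GainA] at h4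
    have h5 : 𝒩.T (ind U) y = 0 := by
      rw [Net.T_apply]
      refine Finset.sum_eq_zero fun e he => ?_
      have h6 : 𝒩.t e = y := (Finset.mem_filter.1 he).2
      by_cases h7 : 𝒩.s e ∈ U
      · exact absurd (h6 ▸ hy) (h2 e h7)
      · simp [ind, h7]
    rwa [h5, mul_zero, zero_add] at h4
  have h4 : #V * #U ≤ ∑ y, R y := by
    calc #V * #U = ∑ _y ∈ V, #U := by rw [Finset.sum_const, smul_eq_mul]
      _ ≤ ∑ y ∈ V, R y := Finset.sum_le_sum h3
      _ ≤ ∑ y, R y := Finset.sum_le_sum_of_subset (Finset.subset_univ _)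
  have h5 : Fintype.card S = 𝒩.n ^ (j + 1) := by rw [𝒩.card_S, hj]
  rw [h5, hj]
  calc #U * #V = #V * #U := mul_comm _ _
    _ ≤ j * 𝒩.n ^ (j + 1) * #X := h4.trans hs
    _ ≤ (j + 1) * 𝒩.n ^ (j + 1) * #X := by gcongr; omega
    _ = (j + 1) * #X * 𝒩.n ^ (j + 1) := by ring

end

end AW
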