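import Pool.Agent.Lib_c1afad_aw.BlkDefs

/-!
# [AW-H1], [AW-H2], [AW-H3] First hits of a random sequence
-/

open Finset

namespace AW

open scoped Classical

noncomputable section

/-- The value of `φ` at the first hit (`0` if there is none). -/
def hv {W : Type} (Q : W → Prop) (φ : W → ℝ) {k : ℕ} (ω : Fin k → W) : ℝ :=
  if h : fh Q ω < k then φ (ω ⟨fh Q ω, h⟩) else 0

/-- [AW-H1] Recursion. -/
theorem fh_cons {W : Type} (Q : W → Prop) {k : ℕ} (w : W) (ω : Fin k → W) :
    fh Q (Fin.cons w ω : Fin (k + 1) → W) = if Q w then 0 else fh Q ω + 1 := by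
  by_cases h : Q w
  · rw [if_pos h]
    have h1 : Q ((Fin.cons w ω : Fin (k + 1) → W) 0) := h
    exact Nat.le_zero.1 (fh_le_of h1)
  · rw [if_neg h]
    apply le_antisymm
    · rcases Nat.lt_or_ge (fh Q ω) k with h1 | h1
      · have h2 : Q ((Fin.cons w ω : Fin (k + 1) → W) (Fin.succ ⟨fh Q ω, h1⟩)) := fh_spec h1
        exact fh_le_of h2
      · exact (fh_le Q _).trans (Nat.succ_le_succ h1)
    · rcases Nat.lt_or_ge (fh Q (Fin.cons w ω : Fin (k + 1) → W)) (k + 1) with h1 | h1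
      · have h2 := fh_spec h1
        obtain ⟨m, hm⟩ : ∃ m, m = fh Q (Fin.cons w ω : Fin (k + 1) → W) := ⟨_, rfl⟩
        have h3 : ∀ hlt : m < k + 1, Q ((Fin.cons w ω : Fin (k + 1) → W) ⟨m, hlt⟩) := by
          intro hlt
          subst hm
          exact h2
        rw [← hm] at h1 ⊢
        rcases m with _ | m
        · exact absurd (h3 h1) h
        · have h4 : Q (ω ⟨m, Nat.lt_of_succ_lt_succ h1⟩) := h3 h1
          exact Nat.succ_le_succ (fh_le_of h4)
      · exact (Nat.succ_le_succ (fh_le Q ω)).trans h1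

theorem hv_cons {W : Type} (Q : W → Prop) (φ : W → ℝ) {k : ℕ} (w : W) (ω : Fin k → W) :
    hv Q φ (Fin.cons w ω : Fin (k + 1) → W) = if Q w then φ w else hv Q φ ω := by
  have key : ∀ m, fh Q (Fin.cons w ω : Fin (k + 1) → W) = m →
      hv Q φ (Fin.cons w ω : Fin (k + 1) → W) =
        if h : m < k + 1 then φ ((Fin.cons w ω : Fin (k + 1) → W) ⟨m, h⟩) else 0 := by
    rintro m rfl
    rfl
  by_cases h : Q w
  · rw [if_pos h, key 0 (by rw [fh_cons, if_pos h]), dif_pos (Nat.succ_pos k)]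
    rfl
  · rw [if_neg h, key (fh Q ω + 1) (by rw [fh_cons, if_neg h])]
    unfold hv
    by_cases h1 : fh Q ω < k
    · rw [dif_pos h1, dif_pos (Nat.succ_lt_succ h1)]
      rfl
    · rw [dif_neg h1, dif_neg fun h2 => h1 (Nat.lt_of_succ_lt_succ h2)]

variable {W : Type} [Fintype W] [Nonempty W]

/-- The probability of `Q`. -/
def pr (Q : W → Prop) : ℝ := Ex fun w => if Q w then (1 : ℝ) else 0

/-- [AW-H2] `Ex_cons` and `hv_cons` give
`Ex (hv on Fin (k + 1)) = Ex (if Q then φ else 0) + (1 - pr Q) * Ex (hv on Fin k)`. -/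
theorem Ex_hv (Q : W → Prop) (φ : W → ℝ) (k : ℕ) :
    pr Q * Ex (fun ω : Fin k → W => hv Q φ ω)
      = (1 - (1 - pr Q) ^ k) * Ex fun w => if Q w then φ w else 0 := by
  induction k with
  | zero =>
    have h1 : Ex (fun ω : Fin 0 → W => hv Q φ ω) = 0 := by
      rw [← Ex_zero (Ω := Fin 0 → W)]
      refine Ex_congr fun ω => ?_
      unfold hv
      rw [dif_neg (Nat.not_lt_zero _)]
    rw [h1, pow_zero, sub_self, mul_zero, zero_mul]
  | succ k ih =>
    have h1 : Ex (fun ω : Fin (k + 1) → W => hv Q φ ω) =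
        (Ex fun w => if Q w then φ w else 0) + (1 - pr Q) * Ex (fun ω : Fin k → W => hv Q φ ω) := by
      rw [Ex_cons]
      obtain ⟨E, hE⟩ : ∃ E : ℝ, E = Ex (fun ω : Fin k → W => hv Q φ ω) := ⟨_, rfl⟩
      have h2 : ∀ w : W, (Ex fun ω : Fin k → W => hv Q φ (Fin.cons w ω : Fin (k + 1) → W)) =
          (if Q w then φ w else 0) + (E - (if Q w then (1 : ℝ) else 0) * E) := by
        intro w
        by_cases h : Q w
        · rw [if_pos h, if_pos h, Ex_congr (h := fun _ => φ w) fun ω => by rw [hv_cons, if_pos h],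
            Ex_const]
          ring
        · rw [if_neg h, if_neg h, Ex_congr (h := fun ω => hv Q φ ω) fun ω => by rw [hv_cons, if_neg h],
            ← hE]
          ring
      rw [Ex_congr h2, Ex_add, Ex_sub, Ex_const, Ex_mul_right, ← hE]
      unfold pr
      ring
    rw [h1, mul_add, mul_left_comm, ih]
    ring

/-- [AW-H3] The probability that there is no hit. -/
theorem Ex_nohit (Q : W → Prop) (k : ℕ) :
    Ex (fun ω : Fin k → W => if fh Q ω = k then (1 : ℝ) else 0) = (1 - pr Q) ^ k := by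
  induction k with
  | zero =>
    rw [Ex_congr (h := fun _ => (1 : ℝ)) fun ω => if_pos (Nat.le_zero.1 (fh_le Q ω)), Ex_const,
      pow_zero]
  | succ k ih =>
    rw [Ex_cons]
    obtain ⟨E, hE⟩ : ∃ E : ℝ, E = (1 - pr Q) ^ k := ⟨_, rfl⟩
    rw [← hE] at ih
    have h2 : ∀ w : W, (Ex fun ω : Fin k → W =>
        if fh Q (Fin.cons w ω : Fin (k + 1) → W) = k + 1 then (1 : ℝ) else 0) =
          E - (if Q w then (1 : ℝ) else 0) * E := by
      intro w
      by_cases h : Q w
      · rw [if_pos h, Ex_congr (h := fun _ => (0 : ℝ)) fun ω => ?_, Ex_const]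
        · ring
        · rw [fh_cons, if_pos h, if_neg (Nat.succ_ne_zero k).symm]
      · rw [if_neg h, Ex_congr (h := fun ω => if fh Q ω = k then (1 : ℝ) else 0) fun ω => ?_, ih]
        · ring
        · rw [fh_cons, if_neg h]
          by_cases h3 : fh Q ω = k
          · rw [if_pos h3, if_pos (by rw [h3])]
          · rw [if_neg h3, if_neg fun h4 => h3 (Nat.succ.inj h4)]
    rw [Ex_congr h2, Ex_sub, Ex_const, Ex_mul_right, pow_succ, ← hE]
    unfold pr
    ring

/-- `(1 - 1 / L) ^ (L * q) ≤ exp (- q)`, and the same for a larger probability. -/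
theorem pow_le_exp {μ : ℝ} {L q : ℕ} (h0 : 0 ≤ 1 - μ) (h : 1 ≤ L * μ) :
    (1 - μ) ^ (L * q) ≤ Real.exp (-q) := by
  have h1 : 1 - μ ≤ Real.exp (-μ) := Real.one_sub_le_exp_neg μ
  refine (pow_le_pow_left₀ h0 h1 _).trans ?_
  rw [← Real.exp_nat_mul]
  apply Real.exp_le_exp.2
  push_cast
  have hq : (0 : ℝ) ≤ q := Nat.cast_nonneg q
  nlinarith

end

end AW
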