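import Mathlib
import Pool.Agent.Lib_c1afad_ap.Est

/-!
# The final numerical estimate

Pieces [AW-N1], [AW-N2].
-/

open Finset

namespace AW

noncomputable section

/-- The lower bound for the gain.  `n` letters, `r` the length of the states, `N = n ^ r`. -/
def Gam (n r q : ℕ) (lam T : ℝ) : ℝ :=
  min (T * (n : ℝ) ^ r / 2 - 4 * Real.exp (-q) * (n * (n : ℝ) ^ r))
    ((1 / 2 - 2 * Real.exp (-q)) * (1 - Real.exp (-q)) * n
        * ((n : ℝ) ^ r / (2 * r * (16 * r + 16)))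
      - 2 * lam * q * (T * (n : ℝ) ^ r) - 2 * Real.exp (-q) * (n * (n : ℝ) ^ r))

private lemma coreB_Numeric {r L X Y q s w : ℝ} (hr : 1 ≤ r) (hL0 : 0 ≤ L) (hLX : L ≤ X) (hY : 1 ≤ Y)
    (hXY : X ≤ Y) (hs0 : 0 ≤ s) (hs : s ≤ Y) (hw : w ≤ Y) (hq0 : 0 ≤ q)
    (hq : q ≤ (r + 3) * X) (hX1 : 1 ≤ X) :
    (2 * q + 3) * (r * L) + 1 + (1 + L) * s + w ≤ ((2 * r + 9) * r + 4) * (X * Y) := by
  have h1 : (2 * q + 3) * (r * L) ≤ ((2 * r + 9) * X) * (r * X) := by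
    refine mul_le_mul ?_ ?_ (by positivity) (by positivity)
    · nlinarith
    · exact mul_le_mul_of_nonneg_left hLX (by linarith)
  have h2 : ((2 * r + 9) * X) * (r * X) ≤ ((2 * r + 9) * r) * (X * Y) := by
    have : X * X ≤ X * Y := mul_le_mul_of_nonneg_left hXY (by linarith)
    have h3 : 0 ≤ (2 * r + 9) * r := by positivity
    calc ((2 * r + 9) * X) * (r * X) = ((2 * r + 9) * r) * (X * X) := by ring
      _ ≤ _ := mul_le_mul_of_nonneg_left this h3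
  have h3 : (1 + L) * s ≤ (2 * X) * Y :=
    mul_le_mul (by linarith) hs hs0 (by linarith)
  have h4 : Y ≤ X * Y := by nlinarith
  have h5 : 1 ≤ X * Y := by nlinarith
  linarith

private lemma core_Numeric {r x L X Y q e s w : ℝ} (hr : 1 ≤ r) (hL0 : 0 ≤ L) (hLX : L ≤ X)
    (hY : 1 ≤ Y) (hXY : X ≤ Y) (hx : x = X ^ 8 * Y) (hs0 : 0 ≤ s) (hs : s ≤ Y) (hw : w ≤ Y)
    (hq0 : 0 ≤ q) (hq : q ≤ (r + 3) * X) (he0 : 0 ≤ e) (he : e ≤ 1 / 16) (hex : e * x ≤ 1)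
    (hX1 : 1 ≤ X)
    (hX : (8 * r * (16 * r + 16)) * (((2 * r + 9) * r + 4) + 4 * (r + 1) * (r + 3) + 2) ≤ X)
    (hX' : 2 * (((2 * r + 9) * r + 4) + 4) ≤ X) :
    (2 * q + 3) * (r * L) + 1 + (1 + L) * s + w ≤
      min (X ^ 4 * Y / 2 - 4 * (e * x))
        ((1 / 2 - 2 * e) * (1 - e) * (x / (2 * r * (16 * r + 16))) -
          2 * ((2 * r + 2) * L) * q * (X ^ 4 * Y) - 2 * (e * x)) := by
  have hB := coreB_Numeric hr hL0 hLX hY hXY hs0 hs hw hq0 hq hX1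
  have hXY0 : 0 ≤ X * Y := by nlinarith
  have hXY1 : 1 ≤ X * Y := by nlinarith
  have hC : 0 ≤ (2 * r + 9) * r + 4 := by positivity
  refine hB.trans (le_min ?_ ?_)
  · have h1 : X ≤ X ^ 3 := by nlinarith [mul_nonneg (by linarith : (0 : ℝ) ≤ X) (by nlinarith : (0 : ℝ) ≤ X ^ 2 - 1)]
    have h2 : 2 * (((2 * r + 9) * r + 4) + 4) * (X * Y) ≤ X ^ 3 * (X * Y) :=
      mul_le_mul_of_nonneg_right (hX'.trans h1) hXY0
    have h3 : X ^ 4 * Y = X ^ 3 * (X * Y) := by ring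
    rw [h3]
    linarith
  · have hr0 : 0 < r := by linarith
    have hD : 0 < 2 * r * (16 * r + 16) := by positivity
    have hx0 : 0 ≤ x := by rw [hx]; positivity
    have h1 : (1 / 4 : ℝ) ≤ (1 / 2 - 2 * e) * (1 - e) := by nlinarith
    have h2 : 1 / 4 * (x / (2 * r * (16 * r + 16))) ≤
        (1 / 2 - 2 * e) * (1 - e) * (x / (2 * r * (16 * r + 16))) :=
      mul_le_mul_of_nonneg_right h1 (by positivity)
    have h3 : 2 * ((2 * r + 2) * L) * q * (X ^ 4 * Y) ≤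
        (4 * (r + 1) * (r + 3)) * (X ^ 6 * Y) := by
      have h4 : L * q ≤ X * ((r + 3) * X) := mul_le_mul hLX hq hq0 (by linarith)
      have h5 : 0 ≤ 2 * (2 * r + 2) * (X ^ 4 * Y) := by positivity
      calc 2 * ((2 * r + 2) * L) * q * (X ^ 4 * Y) = 2 * (2 * r + 2) * (X ^ 4 * Y) * (L * q) := by ring
        _ ≤ 2 * (2 * r + 2) * (X ^ 4 * Y) * (X * ((r + 3) * X)) := mul_le_mul_of_nonneg_left h4 h5
        _ = _ := by ring
    have h6 : (8 * r * (16 * r + 16)) * (((2 * r + 9) * r + 4) + 4 * (r + 1) * (r + 3) + 2) ≤ X ^ 2 := by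
      nlinarith
    have h7 : (((2 * r + 9) * r + 4) + 4 * (r + 1) * (r + 3) + 2) * (X ^ 6 * Y) ≤
        1 / 4 * (x / (2 * r * (16 * r + 16))) := by
      have h8 : 1 / 4 * (x / (2 * r * (16 * r + 16))) = (X ^ 2 * (X ^ 6 * Y)) / (8 * r * (16 * r + 16)) := by
        rw [hx]
        field_simp
        ring
      rw [h8, le_div_iff₀ (by positivity)]
      have h9 : 0 ≤ X ^ 6 * Y := by positivity
      calc _ = (8 * r * (16 * r + 16)) * (((2 * r + 9) * r + 4) + 4 * (r + 1) * (r + 3) + 2) *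
            (X ^ 6 * Y) := by ring
        _ ≤ _ := mul_le_mul_of_nonneg_right h6 h9
    have h10 : X * Y ≤ X ^ 6 * Y := by
      have h11 : X ≤ X ^ 6 := le_self_pow₀ hX1 (by norm_num)
      exact mul_le_mul_of_nonneg_right h11 (by linarith)
    have h12 : ((2 * r + 9) * r + 4) * (X * Y) ≤ ((2 * r + 9) * r + 4) * (X ^ 6 * Y) :=
      mul_le_mul_of_nonneg_left h10 hC
    linarith

/-- [AW-N1] The final estimate, divided by `N = n ^ r`.  Let `ℓ = log n`,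
`q = ⌈(r + 2) ℓ⌉₊ ≤ (r + 2) ℓ + 1`, so that `exp (-q) * n ≤ 1` and `exp (-q) ≤ 1 / 16`;
`lam = (2 r + 2) ℓ`, `T = n ^ (1 - ε / 2)`.  WLOG `ε ≤ 1 / 2`.
`q ≤ n` for large `n` gives `N * (N * q) * n ≤ n ^ (2 r + 2) = exp lam`.
`Gam / N ≥ min (T / 2 - 4) (n / (8 r (16 r + 16)) - 2 lam q T - 2)`, and for large `n` both are at least
`T / 4`, because `lam q = O (ℓ ^ 2) = o (n ^ (ε / 2))`; and
`T / 4 ≥ (2 q + 3) r ℓ + 1 + (1 + ℓ) √n + n ^ (1 - ε)` for large `n`.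
Finally `exp (n N (ℓ - 1)) ≤ (n !) ^ N` by `PermCA.fact_ge`, `N ^ m = exp (m r ℓ)`,
and `N n ^ (1 - ε) = n ^ (r + 1 - ε)`, `2 ^ (-x) ≥ exp (-x)`. -/
theorem numeric (r : ℕ) (hr : 1 ≤ r) {ε : ℝ} (hε : 0 < ε) : ∃ n₀ : ℕ, ∀ n : ℕ, n₀ ≤ n →
    ∃ (q : ℕ) (lam T : ℝ), 55 ≤ n ∧ 2 * Real.exp (-q) ≤ 1 / 2 ∧ 0 ≤ lam ∧
      ((n : ℝ) ^ r * ((n : ℝ) ^ r * q) * n ≤ Real.exp lam) ∧
      ((n : ℝ) ^ r) ^ 2 * ((n : ℝ) ^ r) ^ (2 * n ^ r * q + n ^ r)
        * Real.exp (n * (n : ℝ) ^ r * (Real.log n - 1) - Gam n r q lam T + 1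
          + (1 + Real.log n) * √n * (n : ℝ) ^ r)
        ≤ 2 ^ (-((n : ℝ) ^ ((r : ℝ) + 1 - ε))) * ((n.factorial : ℝ)) ^ (n ^ r) := by
  set ε' : ℝ := min ε (1 / 2) with hε'
  have he0 : 0 < ε' := lt_min hε (by norm_num)
  have he1 : ε' ≤ ε := min_le_left _ _
  have he2 : ε' ≤ 1 / 2 := min_le_right _ _
  set δ : ℝ := ε' / 8 with hδ
  have hδ0 : 0 < δ := by positivity
  have hr1 : (1 : ℝ) ≤ r := by exact_mod_cast hr
  set K : ℝ := (8 * (r : ℝ) * (16 * r + 16)) *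
    (((2 * (r : ℝ) + 9) * r + 4) + 4 * (r + 1) * (r + 3) + 2) + 2 * (((2 * (r : ℝ) + 9) * r + 4) + 4) with hK
  have ev1 : ∀ᶠ n : ℕ in Filter.atTop, Real.log n ≤ (n : ℝ) ^ δ := by
    have h := (isLittleO_log_rpow_atTop hδ0).bound (c := 1) one_pos
    have h2 := tendsto_natCast_atTop_atTop (R := ℝ) |>.eventually h
    filter_upwards [h2, Filter.eventually_ge_atTop 1] with n hn hn1
    rw [one_mul, Real.norm_eq_abs, Real.norm_eq_abs,
      abs_of_nonneg (Real.rpow_nonneg (Nat.cast_nonneg n) δ)] at hn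
    exact (le_abs_self _).trans hn
  have ev2 : ∀ᶠ n : ℕ in Filter.atTop, K ≤ (n : ℝ) ^ δ :=
    ((tendsto_rpow_atTop hδ0).comp (tendsto_natCast_atTop_atTop (R := ℝ))).eventually_ge_atTop K
  obtain ⟨n₀, hn₀⟩ := Filter.eventually_atTop.1 (ev1.and (ev2.and (Filter.eventually_ge_atTop 55)))
  refine ⟨n₀, fun n hn => ?_⟩
  obtain ⟨hlog, hKX, hn55⟩ := hn₀ n hn
  set x : ℝ := (n : ℝ) with hxdef
  have hx55 : (55 : ℝ) ≤ x := by
    rw [hxdef]
    exact_mod_cast hn55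
  have hx0 : 0 < x := by linarith
  have hx1 : 1 ≤ x := by linarith
  set L : ℝ := Real.log x with hL
  have hL1 : 1 ≤ L := by
    rw [hL, Real.le_log_iff_exp_le hx0]
    have := Real.exp_one_lt_d9
    linarith
  have hL0 : 0 ≤ L := by linarith
  set X : ℝ := x ^ δ with hX
  set Y : ℝ := x ^ (1 - ε') with hYdef
  set q : ℕ := ⌈((r : ℝ) + 2) * L⌉₊ with hq
  have hxL : Real.exp L = x := Real.exp_log hx0
  have hX1 : 1 ≤ X := Real.one_le_rpow hx1 hδ0.le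
  have hY1 : 1 ≤ Y := Real.one_le_rpow hx1 (by linarith)
  have hxXY : x = X ^ 8 * Y := by
    rw [hX, hYdef, ← Real.rpow_natCast, ← Real.rpow_mul hx0.le, ← Real.rpow_add hx0]
    have : δ * ((8 : ℕ) : ℝ) + (1 - ε') = 1 := by
      rw [hδ]
      push_cast
      ring
    rw [this, Real.rpow_one]
  have hsY : √x ≤ Y := by
    rw [Real.sqrt_eq_rpow]
    exact Real.rpow_le_rpow_of_exponent_le hx1 (by linarith)
  have hXY : X ≤ Y := Real.rpow_le_rpow_of_exponent_le hx1 (by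
    have : δ ≤ 1 / 16 := by rw [hδ]; linarith
    linarith)
  have hw : x ^ (1 - ε) ≤ Y := Real.rpow_le_rpow_of_exponent_le hx1 (by linarith)
  have hq1 : ((r : ℝ) + 2) * L ≤ q := Nat.le_ceil _
  have hq2 : (q : ℝ) ≤ ((r : ℝ) + 2) * L + 1 := (Nat.ceil_lt_add_one (by positivity)).le
  have hqX : (q : ℝ) ≤ ((r : ℝ) + 3) * X := by nlinarith
  have hqL : L ≤ q := by nlinarith
  have hexq : Real.exp (-(q : ℝ)) * x ≤ 1 := by
    calc Real.exp (-(q : ℝ)) * x = Real.exp (-(q : ℝ) + L) := by rw [Real.exp_add, hxL]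
      _ ≤ 1 := by
          rw [Real.exp_le_one_iff]
          linarith
  have heq0 : 0 < Real.exp (-(q : ℝ)) := Real.exp_pos _
  have heq : Real.exp (-(q : ℝ)) ≤ 1 / 16 := by
    have : Real.exp (-(q : ℝ)) * 16 ≤ 1 := by nlinarith
    linarith
  have hC1 : 0 ≤ (8 * (r : ℝ) * (16 * r + 16)) *
    (((2 * (r : ℝ) + 9) * r + 4) + 4 * (r + 1) * (r + 3) + 2) := by positivity
  have hC2 : 0 ≤ 2 * (((2 * (r : ℝ) + 9) * r + 4) + 4) := by positivity
  have core := core_Numeric (r := (r : ℝ)) (x := x) (L := L) (X := X) (Y := Y) (q := (q : ℝ))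
    (e := Real.exp (-(q : ℝ))) (s := √x) (w := x ^ (1 - ε)) hr1 hL0 hlog hY1 hXY hxXY
    (Real.sqrt_nonneg _) hsY hw (Nat.cast_nonneg q) hqX heq0.le heq hexq hX1
    (by rw [hK] at hKX; linarith) (by rw [hK] at hKX; linarith)
  refine ⟨q, (2 * (r : ℝ) + 2) * L, X ^ 4 * Y, hn55, by linarith, by positivity, ?_, ?_⟩
  · -- `N (N q) n ≤ exp lam`
    have h1 : (q : ℝ) ≤ x := by
      have h2 : ((r : ℝ) + 3) ≤ X := by
        have h3 : ((r : ℝ) + 3) ≤ 2 * (((2 * (r : ℝ) + 9) * r + 4) + 4) := by nlinarith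
        linarith
      have h4 : (q : ℝ) ≤ X * X := hqX.trans (mul_le_mul_of_nonneg_right h2 (by linarith))
      have h5 : X * X ≤ X ^ 8 * Y := by
        have h6 : X ^ 2 ≤ X ^ 8 := pow_le_pow_right₀ hX1 (by norm_num)
        nlinarith
      rw [hxXY]
      exact h4.trans h5
    have h2 : Real.exp ((2 * (r : ℝ) + 2) * L) = x ^ (2 * r + 2) := by
      rw [← hxL, ← Real.exp_nat_mul]
      push_cast
      ring_nf
    rw [h2]
    have h3 : 0 ≤ x ^ r * x ^ r * x := by positivity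
    calc x ^ r * (x ^ r * q) * x = x ^ r * x ^ r * x * q := by ring
      _ ≤ x ^ r * x ^ r * x * x := mul_le_mul_of_nonneg_left h1 h3
      _ = x ^ (2 * r + 2) := by ring
  · set N : ℝ := x ^ r with hN
    have hN1 : 1 ≤ N := one_le_pow₀ hx1
    have hN0 : 0 < N := by linarith
    have hNn : ((n ^ r : ℕ) : ℝ) = N := by
      push_cast
      rfl
    have hNe : N = Real.exp (r * L) := by
      rw [Real.exp_nat_mul, hxL]
    -- the gain
    have hGam : N * ((2 * (q : ℝ) + 3) * (r * L) + 1 + (1 + L) * √x + x ^ (1 - ε)) ≤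
        Gam n r q ((2 * (r : ℝ) + 2) * L) (X ^ 4 * Y) := by
      have h1 := mul_le_mul_of_nonneg_left core hN0.le
      refine h1.trans ?_
      rw [mul_min_of_nonneg _ _ hN0.le]
      unfold Gam
      rw [← hxdef, ← hN]
      refine min_le_min (le_of_eq ?_) (le_of_eq ?_)
      · ring
      · ring
    -- the right side
    have hR : Real.exp (-(N * x ^ (1 - ε)) + N * (x * (L - 1))) ≤
        2 ^ (-(x ^ ((r : ℝ) + 1 - ε))) * ((n.factorial : ℝ)) ^ (n ^ r) := by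
      rw [Real.exp_add]
      refine mul_le_mul ?_ ?_ (Real.exp_pos _).le (by positivity)
      · have h1 : x ^ ((r : ℝ) + 1 - ε) = N * x ^ (1 - ε) := by
          rw [hN, ← Real.rpow_natCast, ← Real.rpow_add hx0]
          congr 1
          ring
        rw [h1, Real.rpow_def_of_pos (by norm_num : (0 : ℝ) < 2)]
        refine Real.exp_le_exp.2 ?_
        have h2 : Real.log 2 ≤ 1 := by linarith [Real.log_two_lt_d9]
        have h3 : 0 ≤ N * x ^ (1 - ε) := by positivity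
        nlinarith
      · have h1 := PermCA.fact_ge n (by omega)
        have h2 : Real.exp (N * (x * (L - 1))) = (Real.exp (x * (L - 1))) ^ (n ^ r) := by
          rw [← Real.exp_nat_mul, hNn]
        rw [h2]
        exact pow_le_pow_left₀ (Real.exp_pos _).le h1 _
    refine le_trans ?_ hR
    have hpow : N ^ (2 * n ^ r * q + n ^ r) = Real.exp ((2 * N * q + N) * (r * L)) := by
      have : ((2 * n ^ r * q + n ^ r : ℕ) : ℝ) = 2 * N * q + N := by
        push_cast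
        rfl
      rw [← this, Real.exp_nat_mul, ← hNe]
    have hsq : N ^ 2 = Real.exp (2 * (r * L)) := by
      rw [hNe, ← Real.exp_nat_mul]
      norm_num
    rw [hpow, hsq, ← Real.exp_add, ← Real.exp_add]
    refine Real.exp_le_exp.2 ?_
    have hrL : 0 ≤ (r : ℝ) * L := by positivity
    have h1 : 2 * ((r : ℝ) * L) ≤ N * (2 * (r * L)) := by nlinarith
    nlinarith [hGam, h1, hN1]

end

end AW
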