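import Pool.Agent.Lib_c1afad_aw.Blocks

/-!
# The union bound

Pieces [AW-U1], [AW-U2].
-/

open Finset

namespace AW

open scoped Classical

noncomputable section

/-- [AW-U1] The sum over all finite sets.  `∑ D : Finset X, exp (- lam * #D) = (1 + exp (-lam)) ^ card X
≤ exp (card X * exp (-lam)) ≤ exp 1`. -/
theorem sum_exp_card {X : Type} [Fintype X] {lam : ℝ} (h : (Fintype.card X : ℝ) ≤ Real.exp lam) :
    ∑ D : Finset X, Real.exp (-lam * #D) ≤ Real.exp 1 := by
  have h1 : ∑ D : Finset X, Real.exp (-lam * #D) = (Real.exp (-lam) + 1) ^ Fintype.card X := by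
    have h2 := Finset.sum_pow_mul_eq_add_pow (Real.exp (-lam)) 1 (univ : Finset X)
    rw [powerset_univ, card_univ] at h2
    rw [← h2]
    refine sum_congr rfl fun D _ => ?_
    rw [one_pow, mul_one, ← Real.exp_nat_mul, mul_comm]
  rw [h1]
  have h3 : Real.exp (-lam) + 1 ≤ Real.exp (Real.exp (-lam)) := Real.add_one_le_exp _
  calc (Real.exp (-lam) + 1) ^ Fintype.card X
      ≤ Real.exp (Real.exp (-lam)) ^ Fintype.card X := pow_le_pow_left₀ (by positivity) h3 _
    _ = Real.exp (Fintype.card X * Real.exp (-lam)) := (Real.exp_nat_mul _ _).symm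
    _ ≤ Real.exp 1 := by
      refine Real.exp_le_exp.2 ?_
      calc (Fintype.card X : ℝ) * Real.exp (-lam) ≤ Real.exp lam * Real.exp (-lam) :=
            mul_le_mul_of_nonneg_right h (Real.exp_pos _).le
        _ = 1 := by rw [← Real.exp_add, add_neg_cancel, Real.exp_zero]

/-- [AW-U2] The number of sequences of sets of size `p`. -/
theorem card_seq {S : Type} [Fintype S] (k p : ℕ) :
    #{P : Fin k → Finset S | ∀ j, #(P j) = p} ≤ Fintype.card S ^ (p * k) := by
  have h1 : ({P : Fin k → Finset S | ∀ j, #(P j) = p} : Finset (Fin k → Finset S)) =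
      Fintype.piFinset fun _ : Fin k => powersetCard p (univ : Finset S) := by
    ext P
    simp [Fintype.mem_piFinset, mem_powersetCard]
  rw [h1, Fintype.card_piFinset]
  simp only [card_powersetCard, card_univ, prod_const, Fintype.card_fin]
  rw [pow_mul]
  exact Nat.pow_le_pow_left (Nat.choose_le_pow _ _) _

variable {S C A : Type} [Fintype S] [Fintype C] [Fintype A]

/-- the labellings with data for one pair `p, L` -/
private theorem one_pair_Union (𝒩 : Net S C) (hA : Fintype.card A = 𝒩.n) (hn : 55 ≤ 𝒩.n) (q : ℕ)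
    {Γ lam : ℝ} (hlam : (Fintype.card S : ℝ) * (Fintype.card S * q) * 𝒩.n ≤ Real.exp lam)
    (F : Finset (C → A)) (p L : ℕ) (hpL : p * L = Fintype.card S)
    (hF : ∀ f ∈ F, ∃ (P : Fin (L * q) → Finset S) (Y : Fin (p * q) → Finset S) (ref : S → S)
        (D : Finset (S × Fin (L * q) × A)), (∀ j, #(P j) = p) ∧ (∀ i, #(Y i) = L) ∧
          Comp 𝒩 P Y ref D f ∧ Γ ≤ Gn 𝒩 P Y ref - #(unc 𝒩 P Y) - lam * #D) :
    (#F : ℝ) ≤ (Fintype.card S : ℝ) ^ (2 * Fintype.card S * q + Fintype.card S)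
      * Real.exp (𝒩.n * Fintype.card S * (Real.log 𝒩.n - 1) - Γ + 1
        + (1 + Real.log 𝒩.n) * √𝒩.n * Fintype.card S) := by
  obtain ⟨I1, hI1⟩ : ∃ I1 : Finset (Fin (L * q) → Finset S),
      I1 = ({P : Fin (L * q) → Finset S | ∀ j, #(P j) = p} : Finset _) := ⟨_, rfl⟩
  obtain ⟨I2, hI2⟩ : ∃ I2 : Finset (Fin (p * q) → Finset S),
      I2 = ({Y : Fin (p * q) → Finset S | ∀ j, #(Y j) = L} : Finset _) := ⟨_, rfl⟩
  obtain ⟨B, hB⟩ : ∃ B : ℝ, B = Real.exp (𝒩.n * Fintype.card S * (Real.log 𝒩.n - 1) - Γ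
      + (1 + Real.log 𝒩.n) * √𝒩.n * Fintype.card S) := ⟨_, rfl⟩
  have hB0 : 0 < B := by rw [hB]; exact Real.exp_pos _
  obtain ⟨G, hG⟩ : ∃ G : (Fin (L * q) → Finset S) × (Fin (p * q) → Finset S) × (S → S) ×
      Finset (S × Fin (L * q) × A) → Finset (C → A), ∀ ω, G ω = ({f : C → A |
        Comp 𝒩 ω.1 ω.2.1 ω.2.2.1 ω.2.2.2 f ∧
          Γ ≤ Gn 𝒩 ω.1 ω.2.1 ω.2.2.1 - #(unc 𝒩 ω.1 ω.2.1) - lam * #ω.2.2.2} : Finset (C → A)) :=
    ⟨_, fun _ => rfl⟩
  have hsub : F ⊆ (I1 ×ˢ (I2 ×ˢ (univ ×ˢ univ))).biUnion G := by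
    intro f hf
    obtain ⟨P, Y, ref, D, h1, h2, h3, h4⟩ := hF f hf
    rw [mem_biUnion]
    refine ⟨(P, Y, ref, D), ?_, ?_⟩
    · rw [hI1, hI2]
      simp only [mem_product, mem_filter, mem_univ, true_and, and_true]
      exact ⟨h1, h2⟩
    · rw [hG]
      simp only [mem_filter, mem_univ, true_and]
      exact ⟨h3, h4⟩
  have hterm : ∀ ω, (#(G ω) : ℝ) ≤ B * Real.exp (-lam * #ω.2.2.2) := by
    intro ω
    by_cases h : Γ ≤ Gn 𝒩 ω.1 ω.2.1 ω.2.2.1 - #(unc 𝒩 ω.1 ω.2.1) - lam * #ω.2.2.2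
    · have h1 : #(G ω) ≤ #{f : C → A | Comp 𝒩 ω.1 ω.2.1 ω.2.2.1 ω.2.2.2 f} := by
        refine card_le_card fun f hf => ?_
        rw [hG] at hf
        simp only [mem_filter, mem_univ, true_and] at hf ⊢
        exact hf.1
      have h2 := comp_exp 𝒩 hA hn ω.1 ω.2.1 ω.2.2.1 ω.2.2.2
      have h3 : (#(G ω) : ℝ) ≤ #{f : C → A | Comp 𝒩 ω.1 ω.2.1 ω.2.2.1 ω.2.2.2 f} := by
        exact_mod_cast h1
      refine h3.trans (h2.trans ?_)
      rw [hB, ← Real.exp_add]
      refine Real.exp_le_exp.2 ?_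
      linarith
    · have h1 : G ω = ∅ := by
        rw [hG, filter_eq_empty_iff]
        rintro f - ⟨-, h2⟩
        exact h h2
      rw [h1, card_empty, Nat.cast_zero]
      positivity
  have hD : ∑ D : Finset (S × Fin (L * q) × A), Real.exp (-lam * #D) ≤ Real.exp 1 := by
    refine sum_exp_card (le_trans ?_ hlam)
    have hL : L ≤ Fintype.card S := by
      rw [← hpL]
      have hp : 0 < p := by
        rcases Nat.eq_zero_or_pos p with h | h
        · rw [h, zero_mul] at hpL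
          have := 𝒩.card_S_pos
          omega
        · exact h
      exact Nat.le_mul_of_pos_left _ hp
    have h1 : Fintype.card (S × Fin (L * q) × A) ≤ Fintype.card S * (Fintype.card S * q) * 𝒩.n := by
      rw [Fintype.card_prod, Fintype.card_prod, Fintype.card_fin, hA, ← mul_assoc]
      exact Nat.mul_le_mul_right _ (Nat.mul_le_mul_left _ (Nat.mul_le_mul_right _ hL))
    exact_mod_cast h1
  have hI1c : #I1 ≤ Fintype.card S ^ (p * (L * q)) := by
    rw [hI1]
    exact card_seq _ _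
  have hI2c : #I2 ≤ Fintype.card S ^ (L * (p * q)) := by
    rw [hI2]
    exact card_seq _ _
  have hexp : p * (L * q) + (L * (p * q) + Fintype.card S) =
      2 * Fintype.card S * q + Fintype.card S := by
    rw [← hpL]
    ring
  calc (#F : ℝ) ≤ ∑ ω ∈ I1 ×ˢ (I2 ×ˢ (univ ×ˢ univ)), (#(G ω) : ℝ) := by
        have h1 := (card_le_card hsub).trans card_biUnion_le
        exact_mod_cast h1
    _ ≤ ∑ ω ∈ I1 ×ˢ (I2 ×ˢ (univ ×ˢ univ)), B * Real.exp (-lam * #ω.2.2.2) :=
        sum_le_sum fun ω _ => hterm ω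
    _ = (#I1 : ℝ) * (#I2 * (Fintype.card (S → S) * (B *
          ∑ D : Finset (S × Fin (L * q) × A), Real.exp (-lam * #D)))) := by
        simp only [sum_product, sum_const, nsmul_eq_mul, card_univ, mul_sum]
    _ ≤ ((Fintype.card S : ℝ) ^ (p * (L * q))) * ((Fintype.card S : ℝ) ^ (L * (p * q)) *
          ((Fintype.card S : ℝ) ^ Fintype.card S * (B * Real.exp 1))) := by
        have e1 : (#I1 : ℝ) ≤ (Fintype.card S : ℝ) ^ (p * (L * q)) := by exact_mod_cast hI1c
        have e2 : (#I2 : ℝ) ≤ (Fintype.card S : ℝ) ^ (L * (p * q)) := by exact_mod_cast hI2c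
        have e3 : (Fintype.card (S → S) : ℝ) = (Fintype.card S : ℝ) ^ Fintype.card S := by
          rw [Fintype.card_fun]
          push_cast
          rfl
        rw [e3]
        have e4 : 0 ≤ ∑ D : Finset (S × Fin (L * q) × A), Real.exp (-lam * #D) :=
          sum_nonneg fun D _ => (Real.exp_pos _).le
        gcongr
    _ = (Fintype.card S : ℝ) ^ (2 * Fintype.card S * q + Fintype.card S)
      * Real.exp (𝒩.n * Fintype.card S * (Real.log 𝒩.n - 1) - Γ + 1
        + (1 + Real.log 𝒩.n) * √𝒩.n * Fintype.card S) := by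
        rw [← hexp, pow_add, pow_add, hB, ← Real.exp_add]
        have e5 : 𝒩.n * Fintype.card S * (Real.log 𝒩.n - 1) - Γ
            + (1 + Real.log 𝒩.n) * √𝒩.n * Fintype.card S + 1 =
            𝒩.n * Fintype.card S * (Real.log 𝒩.n - 1) - Γ + 1
              + (1 + Real.log 𝒩.n) * √𝒩.n * Fintype.card S := by ring
        rw [e5]
        ring

/-- [AW-U3] Proof.  For `f ∈ F` choose the data; the pairs `p, L` are in `[1, N]²` (`p * L = N > 0`),
so `F` is covered by the sets of the `f` with data `p, L, P, Y, ref, D`; there are at most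
`N ^ 2` pairs, for each at most `N ^ (p * (L * q)) * N ^ (L * (p * q)) = N ^ (2 * N * q)` pairs of
sequences, `N ^ N` maps `ref`, and for each `D` the number of `f` is at most
`exp (n N (log n - 1) + #unc - Gn + (1 + log n) √n N) ≤ exp (n N (log n - 1) - Γ - lam #D + ..)` by
`comp_exp`.  Sum over `D` with `sum_exp_card` (`S × Fin k × A` has `N * (L q) * n ≤ N * (N q) * n`
elements). -/
theorem union_bound (𝒩 : Net S C) (hA : Fintype.card A = 𝒩.n) (hn : 55 ≤ 𝒩.n) (q : ℕ) {Γ lam : ℝ}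
    (hlam : (Fintype.card S : ℝ) * (Fintype.card S * q) * 𝒩.n ≤ Real.exp lam)
    (F : Finset (C → A))
    (hF : ∀ f ∈ F, ∃ p L : ℕ, p * L = Fintype.card S ∧
      ∃ (P : Fin (L * q) → Finset S) (Y : Fin (p * q) → Finset S) (ref : S → S)
        (D : Finset (S × Fin (L * q) × A)), (∀ j, #(P j) = p) ∧ (∀ i, #(Y i) = L) ∧
          Comp 𝒩 P Y ref D f ∧ Γ ≤ Gn 𝒩 P Y ref - #(unc 𝒩 P Y) - lam * #D) :
    (#F : ℝ) ≤ (Fintype.card S : ℝ) ^ 2
      * (Fintype.card S : ℝ) ^ (2 * Fintype.card S * q + Fintype.card S)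
      * Real.exp (𝒩.n * Fintype.card S * (Real.log 𝒩.n - 1) - Γ + 1
        + (1 + Real.log 𝒩.n) * √𝒩.n * Fintype.card S) := by
  obtain ⟨N, hN⟩ : ∃ N : ℕ, N = Fintype.card S := ⟨_, rfl⟩
  obtain ⟨Fp, hFp⟩ : ∃ Fp : ℕ × ℕ → Finset (C → A), ∀ z, Fp z = {f ∈ F |
      z.1 * z.2 = Fintype.card S ∧
      ∃ (P : Fin (z.2 * q) → Finset S) (Y : Fin (z.1 * q) → Finset S) (ref : S → S)
        (D : Finset (S × Fin (z.2 * q) × A)), (∀ j, #(P j) = z.1) ∧ (∀ i, #(Y i) = z.2) ∧
          Comp 𝒩 P Y ref D f ∧ Γ ≤ Gn 𝒩 P Y ref - #(unc 𝒩 P Y) - lam * #D} := ⟨_, fun _ => rfl⟩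
  have hS0 := 𝒩.card_S_pos
  have hsub : F ⊆ (Icc 1 N ×ˢ Icc 1 N).biUnion Fp := by
    intro f hf
    obtain ⟨p, L, hpL, hdata⟩ := hF f hf
    have hp : 0 < p := by
      rcases Nat.eq_zero_or_pos p with h | h
      · rw [h, zero_mul] at hpL
        omega
      · exact h
    have hL : 0 < L := by
      rcases Nat.eq_zero_or_pos L with h | h
      · rw [h, mul_zero] at hpL
        omega
      · exact h
    rw [mem_biUnion]
    refine ⟨(p, L), ?_, ?_⟩
    · simp only [mem_product, mem_Icc]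
      rw [hN, ← hpL]
      exact ⟨⟨hp, Nat.le_mul_of_pos_right _ hL⟩, hL, Nat.le_mul_of_pos_left _ hp⟩
    · rw [hFp, mem_filter]
      exact ⟨hf, hpL, hdata⟩
  obtain ⟨K, hK⟩ : ∃ K : ℝ, K = (Fintype.card S : ℝ) ^ (2 * Fintype.card S * q + Fintype.card S)
      * Real.exp (𝒩.n * Fintype.card S * (Real.log 𝒩.n - 1) - Γ + 1
        + (1 + Real.log 𝒩.n) * √𝒩.n * Fintype.card S) := ⟨_, rfl⟩
  have hK0 : 0 ≤ K := by rw [hK]; positivity
  have hterm : ∀ z, (#(Fp z) : ℝ) ≤ K := by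
    intro z
    by_cases hz : z.1 * z.2 = Fintype.card S
    · rw [hK]
      refine one_pair_Union 𝒩 hA hn q hlam (Fp z) z.1 z.2 hz fun f hf => ?_
      rw [hFp, mem_filter] at hf
      exact hf.2.2
    · have h1 : Fp z = ∅ := by
        rw [hFp, filter_eq_empty_iff]
        rintro f - ⟨h2, -⟩
        exact hz h2
      rw [h1, card_empty, Nat.cast_zero]
      exact hK0
  calc (#F : ℝ) ≤ ∑ z ∈ Icc 1 N ×ˢ Icc 1 N, (#(Fp z) : ℝ) := by
        have h1 := (card_le_card hsub).trans card_biUnion_le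
        exact_mod_cast h1
    _ ≤ ∑ z ∈ Icc 1 N ×ˢ Icc 1 N, K := sum_le_sum fun z _ => hterm z
    _ = (Fintype.card S : ℝ) ^ 2 * K := by
        rw [sum_const, nsmul_eq_mul, card_product, Nat.card_Icc, Nat.add_sub_cancel, hN]
        push_cast
        ring
    _ = _ := by rw [hK, ← mul_assoc]

end

end AW
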