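import Pool.Agent.Lib_c1afad_aw.Min
import Pool.Agent.Lib_c1afad_aw.Dineq
import Pool.Agent.Lib_c1afad_aw.Gain
import Pool.Agent.Lib_c1afad_aw.Avg
import Pool.Agent.Lib_c1afad_aw.Union
import Pool.Agent.Lib_c1afad_aw.Numeric

/-!
# The number of full labellings which are not permutive
-/

open Finset

namespace AW

open scoped Classical

noncomputable section

variable {S C A : Type} [Fintype S] [Fintype C] [Fintype A]

/-- [AW-F1] Both systems with small second moments. -/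
theorem exists_sys2 (𝒩 : Net S C) (f : C → A) (hA : Fintype.card A = 𝒩.n) (hfull : Full 𝒩 f)
    (h1 : ¬ PermT 𝒩 f) (h2 : ¬ PermT 𝒩.rev f) :
    ∃ p L : ℕ, 2 ≤ p ∧ 2 ≤ L ∧ p * L = Fintype.card S ∧
      ∃ (W : Type) (_ : Fintype W) (P : W → Finset S) (V : Type) (_ : Fintype V) (Y : V → Finset S),
        Sys 𝒩 f p W P ∧ Sys 𝒩.rev f L V Y ∧ (∀ w v, Cross 𝒩 f (P w) (Y v)) ∧
        (Fintype.card S : ℝ) / (2 * 𝒩.r) ≤ ∑ y, (1 - alpha 𝒩 L P y) ∧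
        (Fintype.card S : ℝ) / (2 * 𝒩.r) ≤ ∑ y, (1 - alpha 𝒩.rev p Y y) := by
  obtain ⟨p, L, hp, hL, hpL, W, iW, P, V, iV, Y, hW, hV, hc⟩ := exists_sys 𝒩 f hA hfull h1 h2
  obtain ⟨W', iW', P', hW', hc', ha⟩ := exists_mom hA hW hpL hL (Set.range Y)
    (by rintro w _ ⟨v, rfl⟩; exact hc w v)
  obtain ⟨V', iV', Y', hV', hc'', hb⟩ := exists_mom (𝒩 := 𝒩.rev) hA hV
    (by rw [mul_comm]; exact hpL) hp (Set.range P')
    (by rintro v _ ⟨w, rfl⟩; exact (hc' w _ ⟨v, rfl⟩).symm)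
  exact ⟨p, L, hp, hL, hpL, W', iW', P', V', iV', Y', hW', hV',
    fun w v => (hc'' v _ ⟨w, rfl⟩).symm, ha, hb⟩

/-- [AW-F2] The data for one labelling. -/
theorem exists_data (𝒩 : Net S C) (hA : Fintype.card A = 𝒩.n) (hn : 55 ≤ 𝒩.n) (q : ℕ)
    (hq : 2 * Real.exp (-q) ≤ 1 / 2) {lam T : ℝ} (hlam : 0 ≤ lam)
    (f : C → A) (hfull : Full 𝒩 f) (h1 : ¬ PermT 𝒩 f) (h2 : ¬ PermT 𝒩.rev f) :
    ∃ p L : ℕ, p * L = Fintype.card S ∧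
      ∃ (P : Fin (L * q) → Finset S) (Y : Fin (p * q) → Finset S) (ref : S → S)
        (D : Finset (S × Fin (L * q) × A)), (∀ j, #(P j) = p) ∧ (∀ i, #(Y i) = L) ∧
          Comp 𝒩 P Y ref D f ∧
            Gam 𝒩.n 𝒩.r q lam T ≤ Gn 𝒩 P Y ref - #(unc 𝒩 P Y) - lam * #D := by
  obtain ⟨p, L, hp, hL, hpL, W, iW, P, V, iV, Y, hW, hV, hc, ha, hb⟩ :=
    exists_sys2 𝒩 f hA hfull h1 h2
  have hr : (1 : ℝ) ≤ 𝒩.r := by exact_mod_cast 𝒩.rpos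
  have hn0 : (0 : ℝ) < 𝒩.n := by exact_mod_cast 𝒩.n_pos
  have hS : (Fintype.card S : ℝ) = (𝒩.n : ℝ) ^ 𝒩.r := by exact_mod_cast 𝒩.card_S
  have hS0 : (0 : ℝ) < Fintype.card S := by exact_mod_cast 𝒩.card_S_pos
  rcases le_total (T * (𝒩.n : ℝ) ^ 𝒩.r) (Del 𝒩 L p (fun q : W × A => fw 𝒩 f (P q.1) q.2) Y) with
    hD | hD
  · -- first case
    obtain ⟨ω, υ, h⟩ := avg1 hA (hW.next hA) hV hpL (by omega) (by omega)
      (fun w v => (hc w.1 v).next (hW.le_one w.1 w.2)) q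
    refine ⟨p, L, hpL, _, _, id, ∅, fun j => (hW.next hA).card (ω j), fun i => hV.card (υ i),
      ?_, ?_⟩
    · have := comp_of_sys (hW.next hA) (fun w v => (hc w.1 v).next (hW.le_one w.1 w.2)) ω υ id
      rwa [Dset_id] at this
    · rw [card_empty, Nat.cast_zero, mul_zero, sub_zero]
      refine le_trans ?_ h
      refine (min_le_left _ _).trans ?_
      rw [hS]
      linarith
  · -- second case
    obtain ⟨ω, υ, ref, h⟩ := avg2 hA hW hV hpL (by omega) (by omega) hc q hq hlam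
    refine ⟨p, L, hpL, _, _, ref, _, fun j => hW.card (ω j), fun i => hV.card (υ i),
      comp_of_sys hW hc ω υ ref, ?_⟩
    refine le_trans ?_ h
    refine (min_le_right _ _).trans ?_
    have hg : (1 / (2 * 𝒩.r) : ℝ) * Fintype.card S ≤
        (16 * 𝒩.r + 16) * ∑ y, (1 - alpha 𝒩 L P y) * (1 - alpha 𝒩.rev p Y y) := by
      refine gain 𝒩 (fun y => sub_nonneg.2 (hW.alpha_le hpL y))
        (fun y => sub_le_self _ (alpha_nonneg L P y))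
        (fun y => sub_nonneg.2 (hV.alpha_le (by rw [mul_comm]; exact hpL) y))
        (fun y => sub_le_self _ (alpha_nonneg p Y y)) (fun e => ?_) ?_ ?_
      · by_contra hh
        push Not at hh
        have h3 := alpha_mul_le hA hW hV hpL hc e
        have h4 : (1 / 𝒩.n : ℝ) ≤ 1 / 55 := by
          apply one_div_le_one_div_of_le (by norm_num)
          exact_mod_cast hn
        nlinarith [hh.1, hh.2]
      · rw [one_div_mul_eq_div]; exact ha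
      · rw [one_div_mul_eq_div]; exact hb
    have hsum : (𝒩.n : ℝ) ^ 𝒩.r / (2 * 𝒩.r * (16 * 𝒩.r + 16)) ≤
        ∑ y, (1 - alpha 𝒩 L P y) * (1 - alpha 𝒩.rev p Y y) := by
      rw [← hS, div_le_iff₀ (by positivity)]
      rw [one_div_mul_eq_div, div_le_iff₀ (by positivity)] at hg
      linarith
    have h5 : 0 ≤ (1 / 2 - 2 * Real.exp (-q)) * (1 - Real.exp (-q)) * 𝒩.n := by
      have : 0 < Real.exp (-(q : ℝ)) := Real.exp_pos _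
      apply mul_nonneg (mul_nonneg (by linarith) (by linarith)) hn0.le
    have h6 := mul_le_mul_of_nonneg_left hsum h5
    have h7 : 2 * lam * q * Del 𝒩 L p (fun q : W × A => fw 𝒩 f (P q.1) q.2) Y ≤
        2 * lam * q * (T * (𝒩.n : ℝ) ^ 𝒩.r) := mul_le_mul_of_nonneg_left hD (by positivity)
    rw [hS]
    linarith

/-- [AW-F3] The number of full labellings which are not permutive. -/
theorem bad_le (𝒩 : Net S C) (hA : Fintype.card A = 𝒩.n) {ε : ℝ}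
    {q : ℕ} {lam T : ℝ} (hn : 55 ≤ 𝒩.n) (hq : 2 * Real.exp (-q) ≤ 1 / 2) (hlam : 0 ≤ lam)
    (h1 : ((𝒩.n : ℝ) ^ 𝒩.r * ((𝒩.n : ℝ) ^ 𝒩.r * q) * 𝒩.n ≤ Real.exp lam))
    (h2 : ((𝒩.n : ℝ) ^ 𝒩.r) ^ 2 * ((𝒩.n : ℝ) ^ 𝒩.r) ^ (2 * 𝒩.n ^ 𝒩.r * q + 𝒩.n ^ 𝒩.r)
        * Real.exp (𝒩.n * (𝒩.n : ℝ) ^ 𝒩.r * (Real.log 𝒩.n - 1) - Gam 𝒩.n 𝒩.r q lam T + 1
          + (1 + Real.log 𝒩.n) * √𝒩.n * (𝒩.n : ℝ) ^ 𝒩.r)
        ≤ 2 ^ (-((𝒩.n : ℝ) ^ ((𝒩.r : ℝ) + 1 - ε))) * ((𝒩.n.factorial : ℝ)) ^ (𝒩.n ^ 𝒩.r)) :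
    (Set.ncard {f : C → A | Full 𝒩 f ∧ ¬ PermT 𝒩 f ∧ ¬ PermT 𝒩.rev f} : ℝ)
      ≤ 2 ^ (-((𝒩.n : ℝ) ^ ((𝒩.r : ℝ) + 1 - ε))) * ((𝒩.n.factorial : ℝ)) ^ (𝒩.n ^ 𝒩.r) := by
  have hS : (Fintype.card S : ℝ) = (𝒩.n : ℝ) ^ 𝒩.r := by exact_mod_cast 𝒩.card_S
  have h := union_bound 𝒩 hA hn q (Γ := Gam 𝒩.n 𝒩.r q lam T) (lam := lam) (by rw [hS]; exact h1)
    {f : C → A | Full 𝒩 f ∧ ¬ PermT 𝒩 f ∧ ¬ PermT 𝒩.rev f} (fun f hf => by
      obtain ⟨hf1, hf2, hf3⟩ := (mem_filter.1 hf).2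
      exact exists_data 𝒩 hA hn q hq hlam f hf1 hf2 hf3)
  rw [hS, 𝒩.card_S] at h
  have h4 : Set.ncard {f : C → A | Full 𝒩 f ∧ ¬ PermT 𝒩 f ∧ ¬ PermT 𝒩.rev f}
      = #{f : C → A | Full 𝒩 f ∧ ¬ PermT 𝒩 f ∧ ¬ PermT 𝒩.rev f} := by
    rw [Set.ncard_eq_toFinset_card _ (Set.toFinite _)]
    congr 1
    ext f
    simp
  rw [h4]
  exact h.trans h2

end

end AW
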