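import Pool.Agent.Lib_c1afad_aw.MinC

/-!
# [AW-M5] Existence of systems for a full labelling
-/

open Finset

namespace AW

open scoped Classical

noncomputable section

variable {S C A : Type} [Fintype S] [Fintype C] [Fintype A]

private theorem ind_supp_Min (φ : S → ℕ) (h : ∀ x, φ x ≤ 1) :
    ind (univ.filter fun x => φ x ≠ 0) = φ := by
  funext x
  unfold ind
  have h1 := h x
  by_cases h0 : φ x = 0
  · rw [if_neg (by simp [h0]), h0]
  · rw [if_pos (by simp [h0])]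
    omega

private theorem eq_one_Min (φ : S → ℕ) (h : ∀ x, φ x ≤ 1) (hs : ∑ x, φ x = Fintype.card S) (x : S) :
    φ x = 1 := by
  have h1 : ∑ x, φ x = ∑ _x : S, 1 := by rw [hs, sum_const, card_univ, smul_eq_mul, mul_one]
  exact (sum_eq_sum_iff_of_le fun i _ => h i).1 h1 x (mem_univ x)

private theorem perm_Min (𝒩 : Net S C) (f : C → A)
    (h : ∀ (a : A) (y : S), 𝒩.F f a (fun _ => (1 : ℕ)) y = 1) : PermT 𝒩 f := by
  intro y e he e' he' hee
  have h1 := h (f e) y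
  rw [Net.F_apply, sum_const, smul_eq_mul, mul_one] at h1
  exact card_le_one.1 h1.le e (by simpa using he) e' (by simpa using ⟨he', hee.symm⟩)

private theorem sys_Min (𝒩 : Net S C) (f : C → A) (hA : Fintype.card A = 𝒩.n) (p : ℕ) (φ : S → ℕ)
    (hle : ∀ (u : List A) (x), 𝒩.FW f u φ x ≤ 1) (htot : ∀ u : List A, ∑ x, 𝒩.FW f u φ x = p) :
    Sys 𝒩 f p (Fin 𝒩.r → A) fun w => univ.filter fun x => 𝒩.FW f (List.ofFn w) φ x ≠ 0 := by
  have hA' : Nonempty A := Fintype.card_pos_iff.1 (hA ▸ 𝒩.n_pos)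
  have hind : ∀ w : Fin 𝒩.r → A, ind (univ.filter fun x => 𝒩.FW f (List.ofFn w) φ x ≠ 0) =
      𝒩.FW f (List.ofFn w) φ := fun w => ind_supp_Min _ (hle _)
  refine ⟨inferInstance, fun w u y => ?_, fun w u => ?_, fun x => ?_⟩
  · rw [hind w, ← Net.FW_append]
    exact hle _ y
  · rw [hind w, ← Net.FW_append]
    exact htot _
  · have h1 : #{w : Fin 𝒩.r → A | x ∈ univ.filter fun x => 𝒩.FW f (List.ofFn w) φ x ≠ 0} =
        ∑ w : Fin 𝒩.r → A, 𝒩.FW f (List.ofFn w) φ x := by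
      rw [card_filter]
      refine sum_congr rfl fun w _ => ?_
      have h2 := congrFun (hind w) x
      unfold ind at h2
      exact h2
    rw [h1, Net.sum_FW, Net.T_iter, show ∑ x, φ x = p from htot [], 𝒩.card_S, Fintype.card_fun,
      Fintype.card_fin, hA, mul_comm]

/-- [AW-M5] Existence of systems. -/
theorem exists_sys (𝒩 : Net S C) (f : C → A) (hA : Fintype.card A = 𝒩.n) (hfull : Full 𝒩 f)
    (h1 : ¬ PermT 𝒩 f) (h2 : ¬ PermT 𝒩.rev f) :
    ∃ p L : ℕ, 2 ≤ p ∧ 2 ≤ L ∧ p * L = Fintype.card S ∧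
      ∃ (W : Type) (_ : Fintype W) (P : W → Finset S) (V : Type) (_ : Fintype V) (Y : V → Finset S),
        Sys 𝒩 f p W P ∧ Sys 𝒩.rev f L V Y ∧ ∀ w v, Cross 𝒩 f (P w) (Y v) := by
  obtain ⟨p, w₁, φ, hp, hw₁, hφ⟩ := exists_tight 𝒩 f hfull
  obtain ⟨L, ψ, hpL, hψtot, hψle, hcross⟩ := exists_dual 𝒩 f hA hfull hp hw₁ hφ
  have hφle : ∀ (u : List A) (x), 𝒩.FW f u φ x ≤ 1 := fun u => (hφ.word hA u).le
  have hφtot : ∀ u : List A, ∑ x, 𝒩.FW f u φ x = p := fun u => (hφ.word hA u).tot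
  have hS := 𝒩.card_S_pos
  have hL1 : 1 ≤ L := by
    rcases Nat.eq_zero_or_pos L with h | h
    · rw [h, mul_zero] at hpL
      omega
    · exact h
  have hp2 : 2 ≤ p := by
    by_contra hc
    have hp1 : p = 1 := by omega
    rw [hp1, one_mul] at hpL
    apply h2
    have hone : ∀ (v : List A) (x), 𝒩.rev.FW f v ψ x = 1 := fun v x =>
      eq_one_Min _ (hψle v) (by rw [hψtot v, hpL]) x
    have hψ1 : ψ = fun _ => 1 := funext fun x => hone [] x
    refine perm_Min _ f fun a y => ?_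
    have h3 := hone [a] y
    rw [hψ1] at h3
    exact h3
  have hL2 : 2 ≤ L := by
    by_contra hc
    have hL' : L = 1 := by omega
    rw [hL', mul_one] at hpL
    apply h1
    have hone : ∀ (v : List A) (x), 𝒩.FW f v φ x = 1 := fun v x =>
      eq_one_Min _ (hφle v) (by rw [hφtot v, hpL]) x
    have hφ1 : φ = fun _ => 1 := funext fun x => hone [] x
    refine perm_Min _ f fun a y => ?_
    have h3 := hone [a] y
    rw [hφ1] at h3
    exact h3
  refine ⟨p, L, hp2, hL2, hpL, (Fin 𝒩.r → A), inferInstance, _, (Fin 𝒩.rev.r → A), inferInstance, _,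
    sys_Min 𝒩 f hA p φ hφle hφtot, sys_Min 𝒩.rev f hA L ψ hψle hψtot, fun w v => ?_⟩
  intro u
  rw [ind_supp_Min _ (hφle _), ind_supp_Min _ (hψle _), ← Net.FW_append]
  exact hcross _ _ (by simp)

end

end AW
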