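import Pool.Agent.Lib_c1afad_aw.MinDefs

/-!
# [AW-M1] Balance
-/

open Finset

namespace AW

open scoped Classical

noncomputable section

variable {S C A : Type} [Fintype S] [Fintype C] [Fintype A]

/-- the number of paths with the label `w` -/
private def cc_MinA (𝒩 : Net S C) (f : C → A) (w : List A) : ℕ := ∑ y, 𝒩.FW f w (fun _ => (1 : ℕ)) y

private theorem mul_MinA (𝒩 : Net S C) (f : C → A) (w v : List A) :
    ∑ u : Fin 𝒩.r → A, cc_MinA 𝒩 f (w ++ List.ofFn u ++ v) = cc_MinA 𝒩 f w * cc_MinA 𝒩 f v := by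
  have h1 : ∀ u : Fin 𝒩.r → A, cc_MinA 𝒩 f (w ++ List.ofFn u ++ v) =
      ∑ y, 𝒩.FW f v (𝒩.FW f (List.ofFn u) (𝒩.FW f w (fun _ => (1 : ℕ)))) y := by
    intro u
    unfold cc_MinA
    rw [Net.FW_append, Net.FW_append]
  rw [Finset.sum_congr rfl fun u _ => h1 u, Finset.sum_comm]
  have h2 : ∀ y, ∑ u : Fin 𝒩.r → A, 𝒩.FW f v (𝒩.FW f (List.ofFn u) (𝒩.FW f w (fun _ => (1 : ℕ)))) y =
      cc_MinA 𝒩 f w * 𝒩.FW f v (fun _ => (1 : ℕ)) y := by
    intro y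
    have h3 := congrFun (Net.FW_sum 𝒩 f v (Finset.univ : Finset (Fin 𝒩.r → A))
      (fun u => 𝒩.FW f (List.ofFn u) (𝒩.FW f w (fun _ => (1 : ℕ))))) y
    rw [← h3]
    have h4 : (fun x => ∑ u : Fin 𝒩.r → A, 𝒩.FW f (List.ofFn u) (𝒩.FW f w (fun _ => (1 : ℕ))) x) =
        fun _ => cc_MinA 𝒩 f w * 1 := by
      funext x
      rw [Net.sum_FW, Net.T_iter, mul_one]
      rfl
    rw [h4]
    exact congrFun (Net.FW_smul 𝒩 f v (cc_MinA 𝒩 f w) (fun _ => (1 : ℕ))) y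
  rw [Finset.sum_congr rfl fun y _ => h2 y, ← Finset.mul_sum]
  rfl

private theorem iter_MinA (𝒩 : Net S C) (l : ℕ) :
    ∑ y, (𝒩.T)^[l] (fun _ => (1 : ℕ)) y = 𝒩.n ^ l * Fintype.card S := by
  induction l with
  | zero => simp
  | succ l ih =>
    rw [Function.iterate_succ_apply', Net.sum_T, ih, smul_eq_mul, pow_succ]
    ring

/-- [AW-M1] (Hedlund) Every word is the label of exactly `card S` paths.
Proof. Let `c w = ∑ y, FW f w 1 y`.  For all `w, v` : `∑ u : Fin r → A, c (w ++ List.ofFn u ++ v) =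
c w * c v`: use `FW_append`, `FW_sum`, `sum_FW`, `T_iter` and `FW_smul` (the sum over `u` of
`FW (ofFn u) (FW w 1)` is the constant `c w`).  Let `c₀` be the least value of `c`, attained at `w`;
`c₀ > 0` by `h`.  With `v = w` all `card A ^ r = card S` terms are at least `c₀`, so
`card S * c₀ ≤ c₀ ^ 2` and `card S ≤ c₀`.  Finally the sum of `c` over all words of length `l`
is `∑ y, T^[l] 1 y = n ^ l * card S` (`sum_FW`, `sum_T`), so all `c w = card S`. -/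
theorem bal (𝒩 : Net S C) (f : C → A) (hA : Fintype.card A = 𝒩.n) (h : Full 𝒩 f) (w : List A) :
    ∑ y, 𝒩.FW f w (fun _ => (1 : ℕ)) y = Fintype.card S := by
  show cc_MinA 𝒩 f w = Fintype.card S
  have hpos : ∀ w, 0 < cc_MinA 𝒩 f w := by
    intro w
    obtain ⟨y, hy⟩ := h w
    unfold cc_MinA
    exact lt_of_lt_of_le (Nat.pos_of_ne_zero hy)
      (Finset.single_le_sum (f := fun y => 𝒩.FW f w (fun _ => (1 : ℕ)) y) (fun _ _ => Nat.zero_le _) (Finset.mem_univ y))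
  obtain ⟨w₀, hw₀⟩ : ∃ w₀, ∀ w, cc_MinA 𝒩 f w₀ ≤ cc_MinA 𝒩 f w := by
    obtain ⟨x, ⟨w₀, hx⟩, hmin⟩ := WellFounded.has_min (wellFounded_lt (α := ℕ)) (Set.range (cc_MinA 𝒩 f))
      ⟨_, ⟨[], rfl⟩⟩
    refine ⟨w₀, fun w => ?_⟩
    have := hmin (cc_MinA 𝒩 f w) ⟨w, rfl⟩
    rw [hx]
    exact not_lt.1 this
  have h1 := mul_MinA 𝒩 f w₀ w₀
  have h2 : Fintype.card S * cc_MinA 𝒩 f w₀ ≤ cc_MinA 𝒩 f w₀ * cc_MinA 𝒩 f w₀ := by
    rw [← h1]
    have h3 : ∑ _u : Fin 𝒩.r → A, cc_MinA 𝒩 f w₀ = Fintype.card S * cc_MinA 𝒩 f w₀ := by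
      rw [Finset.sum_const, Finset.card_univ, Fintype.card_fun, Fintype.card_fin, hA, 𝒩.card_S, smul_eq_mul]
    rw [← h3]
    exact Finset.sum_le_sum fun u _ => hw₀ _
  have h3 : Fintype.card S ≤ cc_MinA 𝒩 f w₀ := Nat.le_of_mul_le_mul_right h2 (hpos w₀)
  have h4 : ∀ w, Fintype.card S ≤ cc_MinA 𝒩 f w := fun w => h3.trans (hw₀ w)
  have h5 : ∑ u : Fin w.length → A, cc_MinA 𝒩 f (List.ofFn u) = 𝒩.n ^ w.length * Fintype.card S := by
    unfold cc_MinA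
    rw [Finset.sum_comm, ← iter_MinA]
    exact Finset.sum_congr rfl fun y _ => Net.sum_FW 𝒩 f w.length _ y
  have h6 : ∑ _u : Fin w.length → A, Fintype.card S = 𝒩.n ^ w.length * Fintype.card S := by
    rw [Finset.sum_const, Finset.card_univ, Fintype.card_fun, Fintype.card_fin, hA, smul_eq_mul]
  have h7 := (Finset.sum_eq_sum_iff_of_le (s := (Finset.univ : Finset (Fin w.length → A)))
    (f := fun _ => Fintype.card S) (g := fun u => cc_MinA 𝒩 f (List.ofFn u)) fun u _ => h4 _).1 (h6.trans h5.symm)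
    (fun i => w.get i) (Finset.mem_univ _)
  have h8 : List.ofFn (fun i => w.get i) = w := List.ofFn_get w
  rw [h8] at h7
  exact h7.symm

end

end AW
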