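import Pool.Agent.Lib_c1afad_aw.MinDefs

/-!
# [AW-M2], [AW-M3] Tight functions
-/

open Finset

namespace AW

open scoped Classical

noncomputable section

variable {S C A : Type} [Fintype S] [Fintype C] [Fintype A]

private theorem le_one_of_sum_MinB {g : S → ℕ} (h : ∑ y, g y ≤ #{y | g y ≠ 0}) :
    ∀ y, g y ≤ 1 := by
  intro y
  by_contra hy
  push Not at hy
  have h1 : #{y | g y ≠ 0} = ∑ y, (if g y ≠ 0 then 1 else 0) := by rw [card_filter]
  have h2 : ∑ y, (if g y ≠ 0 then 1 else 0) < ∑ y, g y := by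
    apply sum_lt_sum
    · intro i _
      split_ifs with hi <;> omega
    · exact ⟨y, mem_univ y, by rw [if_pos (by omega)]; exact hy⟩
  omega

private theorem card_le_sum_MinB (g : S → ℕ) : #{y | g y ≠ 0} ≤ ∑ y, g y := by
  rw [card_filter]
  apply sum_le_sum
  intro i _
  split_ifs with hi <;> omega

/-- [AW-M2] Tightness is preserved.  Proof. `∑ a, ∑ y, F f a φ y = ∑ y, T φ y = n * p`
(`sum_F`, `sum_T`), there are `n` labels and `∑ y, F f a φ y ≥ #{y | F f a φ y ≠ 0} ≥ p` for each, so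
all these are equalities; a function with natural values whose sum is the size of its support has
values at most one. -/
theorem Tight.step {𝒩 : Net S C} {f : C → A} {p : ℕ} {φ : S → ℕ} (hA : Fintype.card A = 𝒩.n)
    (h : Tight 𝒩 f p φ) (a : A) : Tight 𝒩 f p (𝒩.F f a φ) := by
  have hs : ∀ b : A, p ≤ #{y | 𝒩.F f b φ y ≠ 0} := fun b => h.supp [b]
  have hge : ∀ b : A, p ≤ ∑ y, 𝒩.F f b φ y := fun b =>
    (hs b).trans (card_le_sum_MinB (𝒩.F f b φ))
  have htot : ∑ b : A, ∑ y, 𝒩.F f b φ y = ∑ _b : A, p := by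
    rw [sum_comm]
    have h1 : ∀ y, ∑ b : A, 𝒩.F f b φ y = 𝒩.T φ y := fun y => 𝒩.sum_F f φ y
    rw [sum_congr rfl fun y _ => h1 y, 𝒩.sum_T, h.tot, sum_const, card_univ, hA]
  have heq : ∀ b : A, ∑ y, 𝒩.F f b φ y = p := by
    intro b
    have h2 := (sum_eq_sum_iff_of_le (s := univ) (f := fun _ : A => p)
      (g := fun b : A => ∑ y, 𝒩.F f b φ y) (fun b _ => hge b)).1 htot.symm
    exact (h2 b (mem_univ b)).symm
  refine ⟨le_one_of_sum_MinB ?_, heq a, fun u => h.supp (a :: u)⟩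
  rw [heq a]
  exact hs a

theorem Tight.word {𝒩 : Net S C} {f : C → A} {p : ℕ} (hA : Fintype.card A = 𝒩.n)
    (w : List A) : ∀ {φ : S → ℕ}, Tight 𝒩 f p φ → Tight 𝒩 f p (𝒩.FW f w φ) := by
  induction w with
  | nil => intro φ h; exact h
  | cons a w ih => intro φ h; exact ih (h.step hA a)

/-- [AW-M3] There is a tight function whose size `p` is the least size of an image; a word `w₁`
whose image has this size.  Proof: choose `w₁` with `#{y | FW f w₁ 1 y ≠ 0}` least and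
`φ = ind` of this set; the support of `FW f u φ` is the support of `FW f (w₁ ++ u) 1`
(the support of `FW f u φ` depends only on the support of `φ`, by `FW_mono` and `FW_smul`, since
`φ ≤ FW f w₁ 1 ≤ c * φ` for a constant `c`). -/
theorem exists_tight (𝒩 : Net S C) (f : C → A) (h : Full 𝒩 f) : ∃ (p : ℕ) (w₁ : List A) (φ : S → ℕ),
    1 ≤ p ∧ #{y | 𝒩.FW f w₁ (fun _ => (1 : ℕ)) y ≠ 0} = p ∧ Tight 𝒩 f p φ := by
  obtain ⟨w₁, hmin⟩ : ∃ w₁ : List A, ∀ w : List A,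
      #{y | 𝒩.FW f w₁ (fun _ => (1 : ℕ)) y ≠ 0} ≤ #{y | 𝒩.FW f w (fun _ => (1 : ℕ)) y ≠ 0} := by
    have hex : ∃ k : ℕ, ∃ w : List A, #{y | 𝒩.FW f w (fun _ => (1 : ℕ)) y ≠ 0} = k :=
      ⟨_, [], rfl⟩
    obtain ⟨w₁, hw₁⟩ := Nat.find_spec hex
    refine ⟨w₁, fun w => ?_⟩
    rw [hw₁]
    exact Nat.find_min' hex ⟨w, rfl⟩
  refine ⟨_, w₁, ind (univ.filter fun y => 𝒩.FW f w₁ (fun _ => (1 : ℕ)) y ≠ 0), ?_, rfl, ?_, ?_, ?_⟩
  · obtain ⟨y, hy⟩ := h w₁
    exact card_pos.2 ⟨y, by simpa using hy⟩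
  · intro x
    unfold ind
    split_ifs <;> omega
  · rw [sum_ind]
  · intro u
    refine (hmin (w₁ ++ u)).trans (card_le_card ?_)
    intro y hy
    rw [mem_filter] at hy ⊢
    refine ⟨mem_univ _, fun h0 => hy.2 ?_⟩
    rw [𝒩.FW_append]
    have hle : ∀ x, 𝒩.FW f w₁ (fun _ => (1 : ℕ)) x ≤
        (∑ z, 𝒩.FW f w₁ (fun _ => (1 : ℕ)) z) *
          ind (univ.filter fun y => 𝒩.FW f w₁ (fun _ => (1 : ℕ)) y ≠ 0) x := by
      intro x
      by_cases hx : 𝒩.FW f w₁ (fun _ => (1 : ℕ)) x = 0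
      · rw [hx]; exact Nat.zero_le _
      · have h1 : ind (univ.filter fun y => 𝒩.FW f w₁ (fun _ => (1 : ℕ)) y ≠ 0) x = 1 := by
          unfold ind
          rw [if_pos (by simpa using hx)]
        rw [h1, mul_one]
        exact single_le_sum (f := fun z => 𝒩.FW f w₁ (fun _ => (1 : ℕ)) z)
          (fun z _ => Nat.zero_le _) (mem_univ x)
    have h2 := 𝒩.FW_mono f u hle y
    rw [𝒩.FW_smul] at h2
    beta_reduce at h2
    rw [h0, mul_zero] at h2
    exact Nat.le_zero.1 h2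

end

end AW
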