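import Pool.Agent.Lib_c1afad_aw.MinA
import Pool.Agent.Lib_c1afad_aw.MinB

/-!
# [AW-M4] The dual object
-/

open Finset

namespace AW

open scoped Classical

noncomputable section

variable {S C A : Type} [Fintype S] [Fintype C] [Fintype A]

/-- [AW-M4] The dual object.  Proof: all values of `FW f w 1` are at most `card S` by `bal`; let `L`
be the greatest value, at `w₀, t₀`, and `ψ = rev.FW f w₀.reverse (ind {t₀})`.  By `dualW`,
`∑ x, rev.FW f v ψ x = FW f (v.reverse ++ w₀) 1 t₀ ≤ L`, with equality for `v = []`; by induction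
on `v` (appending a letter at the end) there is equality for all `v`, as
`∑ a, ∑ x, rev.F f a ψ' x = n * ∑ x, ψ' x`.  For tight `φ`
`∑ x, FW f u φ x * rev.FW f v ψ x = FW f (u ++ v.reverse ++ w₀) φ t₀ ≤ 1`.
`card S = ∑ y, FW f w₁ 1 y ≤ p * L`. The sum over all `u` of length `r` of
`∑ x, FW f u φ x * ψ' x` is `(∑ φ) * (∑ ψ') = p * L` and has `card S` terms, all `≤ 1`. -/
theorem exists_dual (𝒩 : Net S C) (f : C → A) (hA : Fintype.card A = 𝒩.n) (h : Full 𝒩 f)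
    {p : ℕ} {w₁ : List A} {φ : S → ℕ} (hp : 1 ≤ p)
    (hw₁ : #{y | 𝒩.FW f w₁ (fun _ => (1 : ℕ)) y ≠ 0} = p) (hφ : Tight 𝒩 f p φ) :
    ∃ (L : ℕ) (ψ : S → ℕ), p * L = Fintype.card S ∧
      (∀ v : List A, ∑ x, 𝒩.rev.FW f v ψ x = L) ∧ (∀ (v : List A) (x), 𝒩.rev.FW f v ψ x ≤ 1) ∧
      ∀ u v : List A, 𝒩.r ≤ u.length → ∑ x, 𝒩.FW f u φ x * 𝒩.rev.FW f v ψ x = 1 := by
  have hbal := bal 𝒩 f hA h
  -- the greatest value
  obtain ⟨L, ⟨w₀, t₀, hL⟩, hmax⟩ : ∃ L : ℕ, (∃ (w : List A) (t : S),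
      𝒩.FW f w (fun _ => (1 : ℕ)) t = L) ∧ ∀ w t, 𝒩.FW f w (fun _ => (1 : ℕ)) t ≤ L := by
    have hle : ∀ (w : List A) (t : S), 𝒩.FW f w (fun _ => (1 : ℕ)) t ≤ Fintype.card S := by
      intro w t
      rw [← hbal w]
      exact single_le_sum (f := fun y => 𝒩.FW f w (fun _ => (1 : ℕ)) y) (fun _ _ => Nat.zero_le _)
        (mem_univ t)
    let Q : ℕ → Prop := fun l => ∃ (w : List A) (t : S), 𝒩.FW f w (fun _ => (1 : ℕ)) t = l
    obtain ⟨y₀⟩ := 𝒩.ne
    refine ⟨Nat.findGreatest Q (Fintype.card S), ?_, ?_⟩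
    · exact Nat.findGreatest_spec (P := Q) (hle [] y₀) ⟨[], y₀, rfl⟩
    · intro w t
      exact Nat.le_findGreatest (P := Q) (hle w t) ⟨w, t, rfl⟩
  -- the dual function
  obtain ⟨ψ, hψ⟩ : ∃ ψ : S → ℕ, ψ = 𝒩.rev.FW f w₀.reverse (ind {t₀}) := ⟨_, rfl⟩
  have key : ∀ (g : S → ℕ) (v : List A), ∑ x, g x * 𝒩.rev.FW f v ψ x =
      𝒩.FW f (v.reverse ++ w₀) g t₀ := by
    intro g v
    have h1 := 𝒩.dualW f (v.reverse ++ w₀) g (ind {t₀})
    rw [List.reverse_append, List.reverse_reverse] at h1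
    rw [hψ, ← Net.FW_append, ← h1]
    unfold ind
    simp
  have key2 : ∀ (g : S → ℕ) (u v : List A), ∑ x, 𝒩.FW f u g x * 𝒩.rev.FW f v ψ x =
      𝒩.FW f (u ++ (v.reverse ++ w₀)) g t₀ := by
    intro g u v
    rw [key, ← Net.FW_append]
  have hle : ∀ v : List A, ∑ x, 𝒩.rev.FW f v ψ x ≤ L := by
    intro v
    have h1 := key (fun _ => 1) v
    simp only [one_mul] at h1
    rw [h1]
    exact hmax _ _
  have hsum : ∀ v : List A, ∑ x, 𝒩.rev.FW f v ψ x = L := by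
    intro v
    induction v using List.reverseRecOn with
    | nil =>
      have h1 := key (fun _ => 1) []
      simp only [one_mul] at h1
      rw [h1, List.reverse_nil, List.nil_append]
      exact hL
    | append_singleton v a ih =>
      have h1 : ∑ b : A, ∑ x, 𝒩.rev.F f b (𝒩.rev.FW f v ψ) x = ∑ _b : A, L := by
        rw [sum_comm]
        have h2 : ∀ x, ∑ b : A, 𝒩.rev.F f b (𝒩.rev.FW f v ψ) x = 𝒩.rev.T (𝒩.rev.FW f v ψ) x :=
          fun x => Net.sum_F _ f _ x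
        simp only [h2]
        rw [Net.sum_T, ih, sum_const, card_univ, hA]
        rfl
      have h3 : ∀ b ∈ (univ : Finset A), ∑ x, 𝒩.rev.F f b (𝒩.rev.FW f v ψ) x ≤ L := by
        intro b _
        have h4 := hle (v ++ [b])
        rw [Net.FW_append, Net.FW_cons, Net.FW_nil] at h4
        exact h4
      have h5 := (sum_eq_sum_iff_of_le h3).1 h1 a (mem_univ a)
      rw [Net.FW_append, Net.FW_cons, Net.FW_nil]
      exact h5
  -- `card S ≤ p * L`
  have hN : Fintype.card S ≤ p * L := by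
    rw [← hbal w₁, ← sum_filter_ne_zero, ← hw₁, ← smul_eq_mul]
    exact sum_le_card_nsmul _ _ _ fun y _ => hmax _ _
  have hcard : Fintype.card (Fin 𝒩.r → A) = Fintype.card S := by
    rw [Fintype.card_fun, Fintype.card_fin, hA, 𝒩.card_S]
  -- the sum over all words of length `r`
  have hall : ∀ {g : S → ℕ}, Tight 𝒩 f p g → ∀ v : List A,
      ∑ u : Fin 𝒩.r → A, ∑ x, 𝒩.FW f (List.ofFn u) g x * 𝒩.rev.FW f v ψ x = p * L := by
    intro g hg v
    rw [sum_comm]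
    have h1 : ∀ x, ∑ u : Fin 𝒩.r → A, 𝒩.FW f (List.ofFn u) g x * 𝒩.rev.FW f v ψ x =
        p * 𝒩.rev.FW f v ψ x := by
      intro x
      rw [← sum_mul, Net.sum_FW, Net.T_iter, hg.tot]
    simp only [h1]
    rw [← mul_sum, hsum]
  have hone : ∀ {g : S → ℕ}, Tight 𝒩 f p g → ∀ u v : List A,
      ∑ x, 𝒩.FW f u g x * 𝒩.rev.FW f v ψ x ≤ 1 := by
    intro g hg u v
    rw [key2]
    exact (Tight.word hA _ hg).le _
  have hpL : p * L = Fintype.card S := by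
    refine le_antisymm ?_ hN
    rw [← hall hφ [], ← hcard, ← card_univ, card_eq_sum_ones]
    exact sum_le_sum fun u _ => hone hφ _ _
  have heq : ∀ {g : S → ℕ}, Tight 𝒩 f p g → ∀ (u : Fin 𝒩.r → A) (v : List A),
      ∑ x, 𝒩.FW f (List.ofFn u) g x * 𝒩.rev.FW f v ψ x = 1 := by
    intro g hg u v
    have h1 : ∑ u : Fin 𝒩.r → A, ∑ x, 𝒩.FW f (List.ofFn u) g x * 𝒩.rev.FW f v ψ x =
        ∑ _u : Fin 𝒩.r → A, 1 := by
      rw [hall hg v, hpL, ← hcard, ← card_univ, card_eq_sum_ones]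
    exact (sum_eq_sum_iff_of_le fun u _ => hone hg _ _).1 h1 u (mem_univ u)
  refine ⟨L, ψ, hpL, hsum, ?_, ?_⟩
  · intro v x
    -- some word of length `r` leads to `x`
    have h1 : ∑ u : Fin 𝒩.r → A, 𝒩.FW f (List.ofFn u) φ x = p := by
      rw [Net.sum_FW, Net.T_iter, hφ.tot]
    obtain ⟨u, hu⟩ : ∃ u : Fin 𝒩.r → A, 1 ≤ 𝒩.FW f (List.ofFn u) φ x := by
      by_contra hcon
      have h2 : ∀ u : Fin 𝒩.r → A, 𝒩.FW f (List.ofFn u) φ x = 0 := by
        intro u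
        by_contra h3
        exact hcon ⟨u, Nat.one_le_iff_ne_zero.2 h3⟩
      rw [sum_eq_zero fun u _ => h2 u] at h1
      omega
    have h4 := heq hφ u v
    have h5 : 𝒩.FW f (List.ofFn u) φ x * 𝒩.rev.FW f v ψ x ≤ 1 := by
      rw [← h4]
      exact single_le_sum (f := fun x => 𝒩.FW f (List.ofFn u) φ x * 𝒩.rev.FW f v ψ x)
        (fun _ _ => Nat.zero_le _) (mem_univ x)
    calc 𝒩.rev.FW f v ψ x = 1 * 𝒩.rev.FW f v ψ x := (one_mul _).symm
      _ ≤ 𝒩.FW f (List.ofFn u) φ x * 𝒩.rev.FW f v ψ x := Nat.mul_le_mul_right _ hu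
      _ ≤ 1 := h5
  · intro u v hu
    have h1 : u = u.take (u.length - 𝒩.r) ++ u.drop (u.length - 𝒩.r) :=
      (List.take_append_drop _ _).symm
    have h2 : (u.drop (u.length - 𝒩.r)).length = 𝒩.r := by
      rw [List.length_drop]
      omega
    have h3 : ∃ u' : Fin 𝒩.r → A, List.ofFn u' = u.drop (u.length - 𝒩.r) := by
      obtain ⟨l, hl⟩ : ∃ l, l = u.drop (u.length - 𝒩.r) := ⟨_, rfl⟩
      rw [← hl] at h2 ⊢
      rw [← h2]
      exact ⟨l.get, List.ofFn_get l⟩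
    obtain ⟨u', hu'⟩ := h3
    have h4 := heq (Tight.word hA (u.take (u.length - 𝒩.r)) hφ) u' v
    rw [hu', ← Net.FW_append, ← h1] at h4
    exact h4

end

end AW
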