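import Pool.Agent.Lib_c1afad_aw.Sys

/-!
# Full labellings: definitions
-/

open Finset

namespace AW

open scoped Classical

noncomputable section

variable {S C A : Type} [Fintype S] [Fintype C] [Fintype A]

/-- Every word is the label of a path. -/
def Full (𝒩 : Net S C) (f : C → A) : Prop :=
  ∀ w : List A, ∃ y, 𝒩.FW f w (fun _ => (1 : ℕ)) y ≠ 0

/-- On the cells coming into a state the labels are different. -/
def PermT (𝒩 : Net S C) (f : C → A) : Prop := ∀ y, Set.InjOn f {e | 𝒩.t e = y}

/-- A function of total `p` all of whose images have at least `p` elements in the support. -/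
structure Tight (𝒩 : Net S C) (f : C → A) (p : ℕ) (φ : S → ℕ) : Prop where
  le : ∀ x, φ x ≤ 1
  tot : ∑ x, φ x = p
  supp : ∀ u : List A, p ≤ #{y | 𝒩.FW f u φ y ≠ 0}

end

end AW
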