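import Mathlib

/-!
# Nets: the combinatorial frame for block maps of a fixed window

A net has states `S` (words of length `r`), cells `C` (words of length `r + 1`), each cell `e` going
from the state `s e` to the state `t e`.
-/

open Finset

namespace AW

open scoped Classical

noncomputable section

/-- The operator summing a function over the cells ending in a state. -/
def opT {S C M : Type} [Fintype C] [AddCommMonoid M] (s t : C → S) (φ : S → M) : S → M :=
  fun y => ∑ e with t e = y, φ (s e)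

/-- The same with the cells of a given label. -/
def opF {S C A M : Type} [Fintype C] [AddCommMonoid M] (s t : C → S) (f : C → A) (a : A)
    (φ : S → M) : S → M :=
  fun y => ∑ e with t e = y ∧ f e = a, φ (s e)

/-- A net: every state has `n` cells going out and `n` cells coming in, a cell is determined by its
two ends, and there is exactly one path of length `r` between any two states. -/
structure Net (S C : Type) [Fintype S] [Fintype C] where
  n : ℕ
  r : ℕ
  s : C → S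
  t : C → S
  rpos : 1 ≤ r
  ne : Nonempty S
  inj : ∀ e e' : C, s e = s e' → t e = t e' → e = e'
  cs : ∀ x, #{e | s e = x} = n
  ct : ∀ y, #{e | t e = y} = n
  rect : ∀ e₁ e₂ e : C, t e₁ = t e → s e₂ = s e → ∃ e₃, s e₃ = s e₁ ∧ t e₃ = t e₂
  mixT : ∀ (M : Type) [AddCommMonoid M] (φ : S → M) (y : S), (opT s t)^[r] φ y = ∑ x, φ x
  mixS : ∀ (M : Type) [AddCommMonoid M] (φ : S → M) (y : S), (opT t s)^[r] φ y = ∑ x, φ x

/-- The indicator function of a set of states. -/
def ind {S : Type} (P : Finset S) (x : S) : ℕ := if x ∈ P then 1 else 0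

namespace Net

variable {S C A : Type} [Fintype S] [Fintype C]

/-- The reversed net. -/
def rev (𝒩 : Net S C) : Net S C where
  n := 𝒩.n
  r := 𝒩.r
  s := 𝒩.t
  t := 𝒩.s
  rpos := 𝒩.rpos
  ne := 𝒩.ne
  inj := fun e e' h1 h2 => 𝒩.inj e e' h2 h1
  cs := 𝒩.ct
  ct := 𝒩.cs
  rect := fun e₁ e₂ e h1 h2 => by
    obtain ⟨e₃, h3, h4⟩ := 𝒩.rect e₂ e₁ e h2 h1
    exact ⟨e₃, h4, h3⟩
  mixT := 𝒩.mixS
  mixS := 𝒩.mixT

@[simp] theorem rev_rev (𝒩 : Net S C) : 𝒩.rev.rev = 𝒩 := rfl
@[simp] theorem rev_n (𝒩 : Net S C) : 𝒩.rev.n = 𝒩.n := rfl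
@[simp] theorem rev_r (𝒩 : Net S C) : 𝒩.rev.r = 𝒩.r := rfl
@[simp] theorem rev_s (𝒩 : Net S C) : 𝒩.rev.s = 𝒩.t := rfl
@[simp] theorem rev_t (𝒩 : Net S C) : 𝒩.rev.t = 𝒩.s := rfl

variable {M : Type} [AddCommMonoid M]

/-- Sum over the incoming cells. -/
def T (𝒩 : Net S C) (φ : S → M) : S → M := opT 𝒩.s 𝒩.t φ

/-- Sum over the incoming cells with label `a`. -/
def F (𝒩 : Net S C) (f : C → A) (a : A) (φ : S → M) : S → M := opF 𝒩.s 𝒩.t f a φ

/-- Sum over the paths with a given word of labels, as a function of the last state. -/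
def FW (𝒩 : Net S C) (f : C → A) : List A → (S → M) → (S → M)
  | [], φ => φ
  | a :: w, φ => FW 𝒩 f w (𝒩.F f a φ)

theorem T_apply (𝒩 : Net S C) (φ : S → M) (y : S) : 𝒩.T φ y = ∑ e with 𝒩.t e = y, φ (𝒩.s e) := rfl

theorem F_apply (𝒩 : Net S C) (f : C → A) (a : A) (φ : S → M) (y : S) :
    𝒩.F f a φ y = ∑ e with 𝒩.t e = y ∧ f e = a, φ (𝒩.s e) := rfl

@[simp] theorem FW_nil (𝒩 : Net S C) (f : C → A) (φ : S → M) : 𝒩.FW f [] φ = φ := rfl

theorem FW_cons (𝒩 : Net S C) (f : C → A) (a : A) (w : List A) (φ : S → M) :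
    𝒩.FW f (a :: w) φ = 𝒩.FW f w (𝒩.F f a φ) := rfl

theorem FW_append (𝒩 : Net S C) (f : C → A) (w v : List A) : ∀ φ : S → M,
    𝒩.FW f (w ++ v) φ = 𝒩.FW f v (𝒩.FW f w φ) := by
  induction w with
  | nil => intro φ; rfl
  | cons a w ih => intro φ; rw [List.cons_append, FW_cons, FW_cons, ih]

theorem sum_F [Fintype A] (𝒩 : Net S C) (f : C → A) (φ : S → M) (y : S) :
    ∑ a, 𝒩.F f a φ y = 𝒩.T φ y := by
  simp only [F_apply, T_apply]
  rw [← sum_fiberwise (univ.filter fun e => 𝒩.t e = y) f]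
  refine sum_congr rfl fun a _ => ?_
  rw [filter_filter]

theorem T_iter (𝒩 : Net S C) (φ : S → M) (y : S) : (𝒩.T)^[𝒩.r] φ y = ∑ x, φ x :=
  𝒩.mixT M φ y

theorem sum_T (𝒩 : Net S C) (φ : S → M) : ∑ y, 𝒩.T φ y = 𝒩.n • ∑ x, φ x := by
  simp only [T_apply]
  rw [sum_fiberwise univ 𝒩.t, ← sum_fiberwise univ 𝒩.s, smul_sum]
  refine sum_congr rfl fun x _ => ?_
  rw [sum_congr rfl (g := fun _ => φ x), sum_const, 𝒩.cs]
  intro e he
  rw [(mem_filter.1 he).2]

theorem card_S (𝒩 : Net S C) : Fintype.card S = 𝒩.n ^ 𝒩.r := by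
  obtain ⟨y⟩ := 𝒩.ne
  have h1 := 𝒩.T_iter (fun _ => (1 : ℕ)) y
  have h2 : ∀ j : ℕ, (𝒩.T)^[j] (fun _ => (1 : ℕ)) = fun _ => 𝒩.n ^ j := by
    intro j
    induction j with
    | zero => rfl
    | succ j ih =>
      rw [Function.iterate_succ_apply', ih]
      funext y
      rw [T_apply, sum_const, 𝒩.ct, smul_eq_mul, pow_succ, mul_comm]
  rw [h2] at h1
  simp only [sum_const, card_univ, smul_eq_mul, mul_one] at h1
  rw [h1]

theorem card_S_pos (𝒩 : Net S C) : 0 < Fintype.card S := by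
  have := 𝒩.ne
  exact Fintype.card_pos

theorem n_pos (𝒩 : Net S C) : 0 < 𝒩.n := by
  have h1 := 𝒩.card_S_pos
  rw [𝒩.card_S] at h1
  rcases Nat.eq_zero_or_pos 𝒩.n with h | h
  · rw [h, zero_pow (by have := 𝒩.rpos; omega)] at h1
    omega
  · exact h

theorem card_C (𝒩 : Net S C) : Fintype.card C = 𝒩.n * Fintype.card S := by
  rw [← card_univ, card_eq_sum_card_fiberwise (f := 𝒩.s) (t := univ) (by simp),
    sum_congr rfl fun x _ => 𝒩.cs x]
  simp [mul_comm]

/-! ### Linearity -/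

theorem F_sum {ι : Type} (𝒩 : Net S C) (f : C → A) (a : A) (I : Finset ι) (φ : ι → S → M) :
    𝒩.F f a (fun x => ∑ i ∈ I, φ i x) = fun y => ∑ i ∈ I, 𝒩.F f a (φ i) y := by
  funext y
  simp only [F_apply]
  rw [sum_comm]

theorem FW_sum {ι : Type} (𝒩 : Net S C) (f : C → A) (w : List A) (I : Finset ι) :
    ∀ φ : ι → S → M, 𝒩.FW f w (fun x => ∑ i ∈ I, φ i x) = fun y => ∑ i ∈ I, 𝒩.FW f w (φ i) y := by
  induction w with
  | nil => intro φ; rfl
  | cons a w ih => intro φ; rw [FW_cons, F_sum, ih]; rfl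

theorem F_smul (𝒩 : Net S C) (f : C → A) (a : A) (c : ℕ) (φ : S → ℕ) :
    𝒩.F f a (fun x => c * φ x) = fun y => c * 𝒩.F f a φ y := by
  funext y
  simp only [F_apply, mul_sum]

theorem FW_smul (𝒩 : Net S C) (f : C → A) (w : List A) (c : ℕ) : ∀ φ : S → ℕ,
    𝒩.FW f w (fun x => c * φ x) = fun y => c * 𝒩.FW f w φ y := by
  induction w with
  | nil => intro φ; rfl
  | cons a w ih => intro φ; rw [FW_cons, F_smul, ih]; rfl

/-- The sum over all words of length `l`. -/
theorem sum_FW [Fintype A] (𝒩 : Net S C) (f : C → A) (l : ℕ) : ∀ (φ : S → M) (y : S),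
    ∑ w : Fin l → A, 𝒩.FW f (List.ofFn w) φ y = (𝒩.T)^[l] φ y := by
  induction l with
  | zero => intro φ y; simp
  | succ l ih =>
    intro φ y
    rw [← Equiv.sum_comp (Fin.consEquiv fun _ : Fin (l + 1) => A), Fintype.sum_prod_type]
    have h1 : ∀ (a : A) (w : Fin l → A),
        𝒩.FW f (List.ofFn ((Fin.consEquiv fun _ : Fin (l + 1) => A) (a, w))) φ y
          = 𝒩.FW f (List.ofFn w) (𝒩.F f a φ) y := by
      intro a w
      have : List.ofFn ((Fin.consEquiv fun _ : Fin (l + 1) => A) (a, w)) = a :: List.ofFn w := by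
        rw [List.ofFn_succ]
        simp [Fin.consEquiv]
      rw [this, FW_cons]
    simp only [h1]
    rw [sum_comm, Function.iterate_succ_apply]
    rw [← ih (𝒩.T φ) y]
    refine sum_congr rfl fun w _ => ?_
    have h2 : 𝒩.T φ = fun x => ∑ a, 𝒩.F f a φ x := by
      funext x
      rw [sum_F]
    rw [h2, FW_sum]

/-! ### Duality -/

theorem dual (𝒩 : Net S C) {R : Type} [CommSemiring R] (f : C → A) (a : A) (φ ψ : S → R) :
    ∑ y, 𝒩.F f a φ y * ψ y = ∑ x, φ x * 𝒩.rev.F f a ψ x := by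
  have h1 : ∀ y, 𝒩.F f a φ y * ψ y = ∑ e with 𝒩.t e = y, if f e = a then φ (𝒩.s e) * ψ (𝒩.t e) else 0 := by
    intro y
    rw [F_apply, sum_mul, ← sum_filter, filter_filter]
    refine sum_congr rfl fun e he => ?_
    rw [(mem_filter.1 he).2.1]
  have h2 : ∀ x, φ x * 𝒩.rev.F f a ψ x = ∑ e with 𝒩.s e = x, if f e = a then φ (𝒩.s e) * ψ (𝒩.t e) else 0 := by
    intro x
    rw [F_apply, mul_sum, ← sum_filter, filter_filter]
    refine sum_congr rfl fun e he => ?_
    have := (mem_filter.1 he).2.1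
    rw [rev_s, this]
  simp only [h1, h2]
  rw [sum_fiberwise univ 𝒩.t, sum_fiberwise univ 𝒩.s]

theorem dualW (𝒩 : Net S C) {R : Type} [CommSemiring R] (f : C → A) (w : List A) :
    ∀ φ ψ : S → R, ∑ y, 𝒩.FW f w φ y * ψ y = ∑ x, φ x * 𝒩.rev.FW f w.reverse ψ x := by
  induction w with
  | nil => intro φ ψ; rfl
  | cons a w ih =>
    intro φ ψ
    rw [FW_cons, ih, List.reverse_cons, FW_append, FW_cons, FW_nil, dual]

/-! ### Monotonicity -/

theorem F_le_T (𝒩 : Net S C) (f : C → A) (a : A) (φ : S → ℕ) (y : S) : 𝒩.F f a φ y ≤ 𝒩.T φ y := by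
  rw [F_apply, T_apply]
  apply sum_le_sum_of_subset
  intro e he
  rw [mem_filter] at he ⊢
  exact ⟨he.1, he.2.1⟩

theorem FW_mono (𝒩 : Net S C) (f : C → A) (w : List A) : ∀ {φ ψ : S → ℕ}, (∀ x, φ x ≤ ψ x) →
    ∀ y, 𝒩.FW f w φ y ≤ 𝒩.FW f w ψ y := by
  induction w with
  | nil => intro φ ψ h; exact h
  | cons a w ih => intro φ ψ h; exact ih fun y => sum_le_sum fun e _ => h _

end Net

/-- The next set of states: the ends of the cells with label `a` starting in `P`. -/
def fw {S C A : Type} [Fintype S] [Fintype C] (𝒩 : Net S C) (f : C → A) (P : Finset S) (a : A) :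
    Finset S :=
  univ.filter fun y => ∃ e, 𝒩.t e = y ∧ 𝒩.s e ∈ P ∧ f e = a

/-- The number of cells from `P` to `y`. -/
def inn {S C : Type} [Fintype S] [Fintype C] (𝒩 : Net S C) (P : Finset S) (y : S) : ℕ :=
  #{e | 𝒩.t e = y ∧ 𝒩.s e ∈ P}

/-- A system of sets of states for the labelling `f`: forward images stay of constant size `p`,
with at most one incoming cell for each label, and the sets cover the states evenly. -/
structure Sys {S C A : Type} [Fintype S] [Fintype C] (𝒩 : Net S C) (f : C → A) (p : ℕ)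
    (W : Type) [Fintype W] (P : W → Finset S) : Prop where
  ne : Nonempty W
  le : ∀ w (u : List A) y, 𝒩.FW f u (ind (P w)) y ≤ 1
  tot : ∀ w (u : List A), ∑ y, 𝒩.FW f u (ind (P w)) y = p
  cov : ∀ x, Fintype.card S * #{w | x ∈ P w} = p * Fintype.card W

/-- Two sets of states in general position: every path label leads from `P` to `Y` exactly once. -/
def Cross {S C A : Type} [Fintype S] [Fintype C] (𝒩 : Net S C) (f : C → A) (P Y : Finset S) : Prop :=
  ∀ u : List A, ∑ y, 𝒩.FW f u (ind P) y * ind Y y = 1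

end

end AW
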