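import Pool.Agent.Lib_c1afad_aw.Net
import Pool.Agent.Lib_c1afad_aw.Ex

/-!
# Systems of sets of states
-/

open Finset

namespace AW

open scoped Classical

noncomputable section

variable {S C A : Type} [Fintype S] [Fintype C]

theorem F_ind (𝒩 : Net S C) (f : C → A) (a : A) (P : Finset S) (y : S) :
    𝒩.F f a (ind P) y = #{e | 𝒩.t e = y ∧ 𝒩.s e ∈ P ∧ f e = a} := by
  simp only [Net.F_apply, ind]
  rw [← sum_filter, filter_filter, sum_const, smul_eq_mul, mul_one]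
  congr 1
  ext e
  simp only [mem_filter, mem_univ, true_and]
  tauto

theorem T_ind (𝒩 : Net S C) (P : Finset S) (y : S) : 𝒩.T (ind P) y = inn 𝒩 P y := by
  simp only [Net.T_apply, ind, inn]
  rw [← sum_filter, filter_filter, sum_const, smul_eq_mul, mul_one]

theorem mem_fw {𝒩 : Net S C} {f : C → A} {P : Finset S} {a : A} {y : S} :
    y ∈ fw 𝒩 f P a ↔ ∃ e, 𝒩.t e = y ∧ 𝒩.s e ∈ P ∧ f e = a := by simp [fw]

theorem ind_fw {𝒩 : Net S C} {f : C → A} {P : Finset S} {a : A} (h : ∀ y, 𝒩.F f a (ind P) y ≤ 1) :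
    ind (fw 𝒩 f P a) = 𝒩.F f a (ind P) := by
  funext y
  have h1 := h y
  rw [F_ind] at h1 ⊢
  unfold ind
  split_ifs with h2
  · obtain ⟨e, he⟩ := mem_fw.1 h2
    have : 0 < #{e | 𝒩.t e = y ∧ 𝒩.s e ∈ P ∧ f e = a} := card_pos.2 ⟨e, by simp [he]⟩
    omega
  · symm
    rw [card_eq_zero, filter_eq_empty_iff]
    intro e _ he
    exact h2 (mem_fw.2 ⟨e, he⟩)

theorem sum_ind (P : Finset S) : ∑ x, ind P x = #P := by
  simp [ind]

section sys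

variable {𝒩 : Net S C} {f : C → A} {p : ℕ} {W : Type} [Fintype W] {P : W → Finset S}

theorem Sys.card (h : Sys 𝒩 f p W P) (w : W) : #(P w) = p := by
  have := h.tot w []
  rwa [Net.FW_nil, sum_ind] at this

theorem Sys.le_one (h : Sys 𝒩 f p W P) (w : W) (a : A) (y : S) : 𝒩.F f a (ind (P w)) y ≤ 1 :=
  h.le w [a] y

theorem Sys.injOn (h : Sys 𝒩 f p W P) (w : W) (y : S) :
    Set.InjOn f {e | 𝒩.t e = y ∧ 𝒩.s e ∈ P w} := by
  intro e he e' he' hee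
  have h1 := h.le_one w (f e) y
  rw [F_ind] at h1
  exact card_le_one.1 h1 e (by simpa using ⟨he.1, he.2⟩) e' (by simpa using ⟨he'.1, he'.2, hee.symm⟩)

/-- [AW-S1] The next generation. -/
theorem Sys.next [Fintype A] (hA : Fintype.card A = 𝒩.n) (h : Sys 𝒩 f p W P) :
    Sys 𝒩 f p (W × A) fun q => fw 𝒩 f (P q.1) q.2 := by
  have hA' : Nonempty A := Fintype.card_pos_iff.1 (hA ▸ 𝒩.n_pos)
  have hW := h.ne
  refine ⟨inferInstance, fun q u y => ?_, fun q u => ?_, fun x => ?_⟩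
  · rw [ind_fw (h.le_one q.1 q.2)]
    exact h.le q.1 (q.2 :: u) y
  · rw [ind_fw (h.le_one q.1 q.2)]
    exact h.tot q.1 (q.2 :: u)
  · have h1 : #{q : W × A | x ∈ fw 𝒩 f (P q.1) q.2} = ∑ w, ∑ a, ind (fw 𝒩 f (P w) a) x := by
      rw [card_filter, Fintype.sum_prod_type]
      rfl
    have h2 : ∀ w, ∑ a, ind (fw 𝒩 f (P w) a) x = 𝒩.T (ind (P w)) x := by
      intro w
      rw [← Net.sum_F 𝒩 f]
      exact sum_congr rfl fun a _ => by rw [ind_fw (h.le_one w a)]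
    have h3 : ∑ w, 𝒩.T (ind (P w)) x = ∑ e with 𝒩.t e = x, #{w | 𝒩.s e ∈ P w} := by
      simp only [Net.T_apply]
      rw [sum_comm]
      refine sum_congr rfl fun e _ => ?_
      rw [card_filter]
      rfl
    rw [h1, sum_congr rfl fun w _ => h2 w, h3, mul_sum, sum_congr rfl fun e _ => h.cov _, sum_const,
      𝒩.ct, Fintype.card_prod, hA, smul_eq_mul]
    ring

theorem Cross.symm {P Y : Finset S} (h : Cross 𝒩 f P Y) : Cross 𝒩.rev f Y P := by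
  intro u
  have h1 := h u.reverse
  rw [Net.dualW, List.reverse_reverse] at h1
  rw [← h1]
  exact sum_congr rfl fun x _ => mul_comm _ _

/-- [AW-S2] -/
theorem Cross.next {P Y : Finset S} {a : A} (h : Cross 𝒩 f P Y) (hP : ∀ y, 𝒩.F f a (ind P) y ≤ 1) :
    Cross 𝒩 f (fw 𝒩 f P a) Y := by
  intro u
  rw [ind_fw hP]
  exact h (a :: u)

theorem Cross.inter {P Y : Finset S} (h : Cross 𝒩 f P Y) : #(P ∩ Y) = 1 := by
  have h1 := h []
  rw [Net.FW_nil] at h1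
  rw [← h1, ← sum_ind]
  refine sum_congr rfl fun x _ => ?_
  simp only [ind, mem_inter]
  split_ifs <;> simp_all

/-- [AW-S3] Exactly one cell with each label goes from `P` to `Y`. -/
theorem Cross.rainbow {P Y : Finset S} (h : Cross 𝒩 f P Y) (a : A) :
    #{e | 𝒩.s e ∈ P ∧ 𝒩.t e ∈ Y ∧ f e = a} = 1 := by
  have h1 := h [a]
  rw [Net.FW_cons, Net.FW_nil] at h1
  rw [← h1, card_eq_sum_card_fiberwise (f := 𝒩.t) (t := univ) (by simp)]
  refine sum_congr rfl fun y _ => ?_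
  rw [F_ind, filter_filter]
  unfold ind
  split_ifs with hy
  · rw [mul_one]
    congr 1
    ext e
    simp only [mem_filter, mem_univ, true_and]
    constructor
    · rintro ⟨⟨h1, h2, h3⟩, h4⟩
      exact ⟨h4, h1, h3⟩
    · rintro ⟨h1, h2, h3⟩
      exact ⟨⟨h2, h1 ▸ hy, h3⟩, h1⟩
  · rw [mul_zero, card_eq_zero, filter_eq_empty_iff]
    rintro e _ ⟨⟨h1, h2, h3⟩, h4⟩
    exact hy (h4 ▸ h2)

theorem Cross.injOn {P Y : Finset S} (h : Cross 𝒩 f P Y) :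
    Set.InjOn f {e | 𝒩.s e ∈ P ∧ 𝒩.t e ∈ Y} := by
  intro e he e' he' hee
  exact card_le_one.1 (h.rainbow (f e)).le e (by simpa using he)
    e' (by simpa using ⟨he'.1, he'.2, hee.symm⟩)

theorem Cross.exists {P Y : Finset S} (h : Cross 𝒩 f P Y) (a : A) :
    ∃ e, 𝒩.s e ∈ P ∧ 𝒩.t e ∈ Y ∧ f e = a := by
  have h1 := h.rainbow a
  obtain ⟨e, he⟩ := card_pos.1 (h1 ▸ Nat.one_pos)
  exact ⟨e, by simpa using he⟩

theorem Cross.card [Fintype A] (hA : Fintype.card A = 𝒩.n) {P Y : Finset S} (h : Cross 𝒩 f P Y) :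
    #{e | 𝒩.s e ∈ P ∧ 𝒩.t e ∈ Y} = 𝒩.n := by
  rw [card_eq_sum_card_fiberwise (f := f) (t := univ) (by simp), ← hA, ← card_univ, card_eq_sum_ones]
  refine sum_congr rfl fun a _ => ?_
  rw [filter_filter]
  have := h.rainbow a
  simpa only [and_assoc] using this

end sys

/-- The normalized second moment of the number of incoming cells. -/
def alpha {W : Type} [Fintype W] (𝒩 : Net S C) (L : ℝ) (P : W → Finset S) (y : S) : ℝ :=
  L * Ex fun w => ((inn 𝒩 (P w) y : ℝ) / 𝒩.n) ^ 2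

/-- The probability that `P w` contains `x'` given that it contains `x`. -/
def kap {W : Type} [Fintype W] (L : ℝ) (P : W → Finset S) (x x' : S) : ℝ :=
  L * Ex fun w => if x ∈ P w ∧ x' ∈ P w then (1 : ℝ) else 0

section sysreal

variable {𝒩 : Net S C} {f : C → A} {p L : ℕ} {W : Type} [Fintype W] {P : W → Finset S}

/-- [AW-S4] -/
theorem Sys.mem_prob (h : Sys 𝒩 f p W P) (hpL : p * L = Fintype.card S) (x : S) :
    Ex (fun w => if x ∈ P w then (1 : ℝ) else 0) = 1 / L := by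
  have hS := 𝒩.card_S_pos
  have hW := h.ne
  have hp : p ≠ 0 := by rintro rfl; simp at hpL; omega
  have hL : L ≠ 0 := by rintro rfl; simp at hpL; omega
  have hW0 : (Fintype.card W : ℝ) ≠ 0 := by exact_mod_cast Fintype.card_ne_zero
  have hp0 : (p : ℝ) ≠ 0 := by exact_mod_cast hp
  have hL0 : (L : ℝ) ≠ 0 := by exact_mod_cast hL
  rw [Ex_ite_card, div_eq_div_iff hW0 hL0]
  have h1 := h.cov x
  rw [← hpL] at h1
  have h2 : (p : ℝ) * L * #{w | x ∈ P w} = p * Fintype.card W := by exact_mod_cast h1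
  apply mul_left_cancel₀ hp0
  linarith

theorem Sys.kap_self (h : Sys 𝒩 f p W P) (hpL : p * L = Fintype.card S) (x : S) :
    kap L P x x = 1 := by
  have hS := 𝒩.card_S_pos
  have hL : L ≠ 0 := by rintro rfl; simp at hpL; omega
  have hL0 : (L : ℝ) ≠ 0 := by exact_mod_cast hL
  simp only [kap, and_self]
  rw [h.mem_prob hpL]
  field_simp

theorem kap_symm (L : ℝ) (P : W → Finset S) (x x' : S) : kap L P x x' = kap L P x' x := by
  simp only [kap, and_comm]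

theorem kap_nonneg (L : ℕ) (P : W → Finset S) (x x' : S) : 0 ≤ kap L P x x' := by
  unfold kap
  have := Ex_nonneg (g := fun w => if x ∈ P w ∧ x' ∈ P w then (1 : ℝ) else 0)
    fun w => by split_ifs <;> norm_num
  positivity

theorem Sys.kap_le (h : Sys 𝒩 f p W P) (hpL : p * L = Fintype.card S) (x x' : S) :
    kap L P x x' ≤ 1 := by
  rw [← h.kap_self hpL x]
  unfold kap
  apply mul_le_mul_of_nonneg_left _ (Nat.cast_nonneg L)
  apply Ex_mono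
  intro w
  split_ifs <;> simp_all

theorem inn_le (𝒩 : Net S C) (P : Finset S) (y : S) : inn 𝒩 P y ≤ 𝒩.n := by
  unfold inn
  rw [← 𝒩.ct y]
  apply card_le_card
  intro e he
  simp only [mem_filter, mem_univ, true_and] at he ⊢
  exact he.1

theorem inn_eq_sum (𝒩 : Net S C) (P : Finset S) (y : S) :
    (inn 𝒩 P y : ℝ) = ∑ e with 𝒩.t e = y, if 𝒩.s e ∈ P then (1 : ℝ) else 0 := by
  rw [inn, ← sum_filter, filter_filter]
  simp

/-- [AW-S5] -/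
theorem Sys.Ex_inn (h : Sys 𝒩 f p W P) (hpL : p * L = Fintype.card S) (y : S) :
    Ex (fun w => (inn 𝒩 (P w) y : ℝ) / 𝒩.n) = 1 / L := by
  have hn : (𝒩.n : ℝ) ≠ 0 := by exact_mod_cast 𝒩.n_pos.ne'
  simp only [inn_eq_sum]
  rw [Ex_div, Ex_sum, sum_congr rfl fun e _ => h.mem_prob hpL (𝒩.s e), sum_const, 𝒩.ct,
    nsmul_eq_mul]
  field_simp

theorem alpha_nonneg (L : ℕ) (P : W → Finset S) (y : S) : 0 ≤ alpha 𝒩 L P y := by
  unfold alpha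
  have := Ex_nonneg (g := fun w => ((inn 𝒩 (P w) y : ℝ) / 𝒩.n) ^ 2) fun w => by positivity
  positivity

theorem Sys.alpha_le (h : Sys 𝒩 f p W P) (hpL : p * L = Fintype.card S) (y : S) :
    alpha 𝒩 L P y ≤ 1 := by
  have hS := 𝒩.card_S_pos
  have hL : L ≠ 0 := by rintro rfl; simp at hpL; omega
  have hL0 : (L : ℝ) ≠ 0 := by exact_mod_cast hL
  have hn : (0 : ℝ) < 𝒩.n := by exact_mod_cast 𝒩.n_pos
  have h1 : (1 : ℝ) = L * Ex (fun w => (inn 𝒩 (P w) y : ℝ) / 𝒩.n) := by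
    rw [h.Ex_inn hpL]
    field_simp
  rw [h1]
  apply mul_le_mul_of_nonneg_left _ (Nat.cast_nonneg L)
  apply Ex_mono
  intro w
  have h2 : (inn 𝒩 (P w) y : ℝ) / 𝒩.n ≤ 1 := by
    rw [div_le_one hn]
    exact_mod_cast inn_le 𝒩 (P w) y
  have h3 : 0 ≤ (inn 𝒩 (P w) y : ℝ) / 𝒩.n := by positivity
  nlinarith

/-- [AW-S6] The second moment as a sum of the pair probabilities. -/
theorem alpha_eq_kap (L : ℝ) (P : W → Finset S) (y : S) :
    (𝒩.n : ℝ) ^ 2 * alpha 𝒩 L P y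
      = ∑ e with 𝒩.t e = y, ∑ e' with 𝒩.t e' = y, kap L P (𝒩.s e) (𝒩.s e') := by
  have hn : (𝒩.n : ℝ) ≠ 0 := by exact_mod_cast 𝒩.n_pos.ne'
  simp only [alpha, kap, ← mul_sum, ← Ex_sum]
  rw [mul_left_comm, ← Ex_mul]
  congr 1
  apply Ex_congr
  intro w
  rw [div_pow, mul_div_cancel₀ _ (pow_ne_zero 2 hn), inn_eq_sum, sq, sum_mul_sum]
  refine sum_congr rfl fun e _ => sum_congr rfl fun e' _ => ?_
  split_ifs <;> simp_all

/-- [AW-S7] The cells from `P` to `y` and from `x` to `Y` span a rectangle. -/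
theorem rect_le [Fintype A] (hA : Fintype.card A = 𝒩.n) {P Y : Finset S} (h : Cross 𝒩 f P Y)
    (e : C) : inn 𝒩 P (𝒩.t e) * inn 𝒩.rev Y (𝒩.s e) ≤ 𝒩.n := by
  rw [← h.card hA]
  unfold inn
  rw [← card_product]
  have hex : ∀ q : C × C, ∃ e₃, 𝒩.t q.1 = 𝒩.t e → 𝒩.s q.2 = 𝒩.s e →
      𝒩.s e₃ = 𝒩.s q.1 ∧ 𝒩.t e₃ = 𝒩.t q.2 := by
    intro q
    by_cases h1 : 𝒩.t q.1 = 𝒩.t e ∧ 𝒩.s q.2 = 𝒩.s e
    · obtain ⟨e₃, h3⟩ := 𝒩.rect q.1 q.2 e h1.1 h1.2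
      exact ⟨e₃, fun _ _ => h3⟩
    · exact ⟨e, fun h2 h3 => absurd ⟨h2, h3⟩ h1⟩
  choose g hg using hex
  apply card_le_card_of_injOn g
  · intro q hq
    simp only [coe_product, Set.mem_prod, mem_coe, mem_filter, mem_univ, true_and, Net.rev_t,
      Net.rev_s] at hq
    obtain ⟨h3, h4⟩ := hg q hq.1.1 hq.2.1
    simp only [coe_filter, mem_univ, true_and, Set.mem_setOf_eq, h3, h4]
    exact ⟨hq.1.2, hq.2.2⟩
  · intro q hq q' hq' hqq
    simp only [coe_product, Set.mem_prod, mem_coe, mem_filter, mem_univ, true_and, Net.rev_t,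
      Net.rev_s] at hq hq'
    obtain ⟨h3, h4⟩ := hg q hq.1.1 hq.2.1
    obtain ⟨h3', h4'⟩ := hg q' hq'.1.1 hq'.2.1
    rw [hqq] at h3 h4
    refine Prod.ext (𝒩.inj _ _ (h3.symm.trans h3') (hq.1.1.trans hq'.1.1.symm))
      (𝒩.inj _ _ (hq.2.1.trans hq'.2.1.symm) (h4.symm.trans h4'))

/-- [AW-S8] -/
theorem alpha_mul_le [Fintype A] (hA : Fintype.card A = 𝒩.n) (h : Sys 𝒩 f p W P)
    {V : Type} [Fintype V] {Y : V → Finset S} (h' : Sys 𝒩.rev f L V Y)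
    (hpL : p * L = Fintype.card S) (hc : ∀ w v, Cross 𝒩 f (P w) (Y v)) (e : C) :
    alpha 𝒩 L P (𝒩.t e) * alpha 𝒩.rev p Y (𝒩.s e) ≤ 1 / 𝒩.n := by
  have hS := 𝒩.card_S_pos
  have hp : p ≠ 0 := by rintro rfl; simp at hpL; omega
  have hL : L ≠ 0 := by rintro rfl; simp at hpL; omega
  have hp0 : (p : ℝ) ≠ 0 := by exact_mod_cast hp
  have hL0 : (L : ℝ) ≠ 0 := by exact_mod_cast hL
  have hn : (0 : ℝ) < 𝒩.n := by exact_mod_cast 𝒩.n_pos
  have e1 : alpha 𝒩 L P (𝒩.t e) * alpha 𝒩.rev p Y (𝒩.s e) = L * p * Ex fun q : W × V =>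
      ((inn 𝒩 (P q.1) (𝒩.t e) : ℝ) / 𝒩.n) ^ 2 * ((inn 𝒩.rev (Y q.2) (𝒩.s e) : ℝ) / 𝒩.n) ^ 2 := by
    rw [Ex_prod_mul (fun w => ((inn 𝒩 (P w) (𝒩.t e) : ℝ) / 𝒩.n) ^ 2)
      (fun v => ((inn 𝒩.rev (Y v) (𝒩.s e) : ℝ) / 𝒩.n) ^ 2)]
    simp only [alpha, Net.rev_n]
    ring
  have e2 : (1 : ℝ) / 𝒩.n = L * p * Ex fun q : W × V => (1 / 𝒩.n) *
      (((inn 𝒩 (P q.1) (𝒩.t e) : ℝ) / 𝒩.n) * ((inn 𝒩.rev (Y q.2) (𝒩.s e) : ℝ) / 𝒩.n)) := by
    rw [Ex_mul, Ex_prod_mul (fun w => ((inn 𝒩 (P w) (𝒩.t e) : ℝ) / 𝒩.n))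
      (fun v => ((inn 𝒩.rev (Y v) (𝒩.s e) : ℝ) / 𝒩.n)), h.Ex_inn hpL]
    have := h'.Ex_inn (L := p) (by rw [mul_comm]; exact hpL) (𝒩.s e)
    rw [Net.rev_n] at this
    rw [this]
    field_simp
  rw [e1, e2]
  apply mul_le_mul_of_nonneg_left _ (by positivity)
  apply Ex_mono
  rintro ⟨w, v⟩
  have h1 : (inn 𝒩 (P w) (𝒩.t e) : ℝ) * inn 𝒩.rev (Y v) (𝒩.s e) ≤ 𝒩.n := by
    exact_mod_cast rect_le hA (hc w v) e
  have h2 : (inn 𝒩 (P w) (𝒩.t e) : ℝ) / 𝒩.n * (inn 𝒩.rev (Y v) (𝒩.s e) / 𝒩.n) ≤ 1 / 𝒩.n := by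
    rw [div_mul_div_comm, div_le_div_iff₀ (by positivity) hn]
    nlinarith
  have h3 : 0 ≤ (inn 𝒩 (P w) (𝒩.t e) : ℝ) / 𝒩.n * (inn 𝒩.rev (Y v) (𝒩.s e) / 𝒩.n) := by positivity
  simp only
  rw [← mul_pow]
  nlinarith

/-- [AW-S9] Given `x ∈ P` and `y ∈ Y` for the two ends of a cell, the expected number of cells from
`P` to `Y` is `n`. -/
theorem sum_kap_kap [Fintype A] (hA : Fintype.card A = 𝒩.n) (h : Sys 𝒩 f p W P)
    {V : Type} [Fintype V] {Y : V → Finset S} (h' : Sys 𝒩.rev f L V Y)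
    (hpL : p * L = Fintype.card S) (hc : ∀ w v, Cross 𝒩 f (P w) (Y v)) (e : C) :
    ∑ e', kap L P (𝒩.s e) (𝒩.s e') * kap p Y (𝒩.t e) (𝒩.t e') = 𝒩.n := by
  have hS := 𝒩.card_S_pos
  have hp : p ≠ 0 := by rintro rfl; simp at hpL; omega
  have hL : L ≠ 0 := by rintro rfl; simp at hpL; omega
  have hp0 : (p : ℝ) ≠ 0 := by exact_mod_cast hp
  have hL0 : (L : ℝ) ≠ 0 := by exact_mod_cast hL
  have e1 : ∀ e', kap L P (𝒩.s e) (𝒩.s e') * kap p Y (𝒩.t e) (𝒩.t e') = L * p * Ex fun q : W × V =>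
      (if 𝒩.s e ∈ P q.1 ∧ 𝒩.s e' ∈ P q.1 then (1 : ℝ) else 0) *
        (if 𝒩.t e ∈ Y q.2 ∧ 𝒩.t e' ∈ Y q.2 then (1 : ℝ) else 0) := by
    intro e'
    rw [Ex_prod_mul (fun w => if 𝒩.s e ∈ P w ∧ 𝒩.s e' ∈ P w then (1 : ℝ) else 0)
      (fun v => if 𝒩.t e ∈ Y v ∧ 𝒩.t e' ∈ Y v then (1 : ℝ) else 0)]
    simp only [kap]
    ring
  simp only [e1]
  rw [← mul_sum, ← Ex_sum]
  have e2 : ∀ q : W × V, (∑ e', (if 𝒩.s e ∈ P q.1 ∧ 𝒩.s e' ∈ P q.1 then (1 : ℝ) else 0) *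
        (if 𝒩.t e ∈ Y q.2 ∧ 𝒩.t e' ∈ Y q.2 then (1 : ℝ) else 0))
      = ((if 𝒩.s e ∈ P q.1 then (1 : ℝ) else 0) * 𝒩.n) * (if 𝒩.t e ∈ Y q.2 then (1 : ℝ) else 0) := by
    intro q
    have h1 : (𝒩.n : ℝ) = ∑ e', if 𝒩.s e' ∈ P q.1 ∧ 𝒩.t e' ∈ Y q.2 then (1 : ℝ) else 0 := by
      rw [← (hc q.1 q.2).card hA]
      simp
    rw [h1, mul_sum, sum_mul]
    refine sum_congr rfl fun e' _ => ?_
    split_ifs <;> simp_all
  rw [Ex_congr e2, Ex_prod_mul (fun w => (if 𝒩.s e ∈ P w then (1 : ℝ) else 0) * 𝒩.n)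
    (fun v => (if 𝒩.t e ∈ Y v then (1 : ℝ) else 0)), Ex_mul_right, h.mem_prob hpL,
    h'.mem_prob (L := p) (by rw [mul_comm]; exact hpL)]
  field_simp

end sysreal

/-- The deficiency of a pair of systems. -/
def Del {W V : Type} [Fintype W] [Fintype V] (𝒩 : Net S C) (L p : ℝ) (P : W → Finset S)
    (Y : V → Finset S) : ℝ :=
  (∑ e, ∑ e', kap L P (𝒩.s e) (𝒩.s e') * kap p Y (𝒩.t e) (𝒩.t e')
    * (1 - kap L P (𝒩.s e) (𝒩.s e'))) / 𝒩.n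

end

end AW
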