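import Pool.Agent.Lib_c1afad_ap.Main2
import Pool.Agent.Lib_c1afad_aw.Final

/-!
# Window two: the sharper rate
-/

namespace AW

/-- A rule of window two as a rule on words of length two. -/
def toW {A : Type} (g : A → A → A) : (Fin (0 + 2) → A) → A := fun v => g (v 0) (v 1)

theorem toW_bijective {A : Type} : Function.Bijective (toW (A := A)) := by
  refine ⟨fun g g' h => ?_, fun f => ⟨fun a b => f ![a, b], ?_⟩⟩
  · funext a b
    have := congrFun h ![a, b]
    simpa [toW] using this
  · funext v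
    show f ![v 0, v 1] = f v
    congr 1
    funext i
    match i with
    | 0 => rfl
    | 1 => rfl

theorem CAw_toW {A : Type} (g : A → A → A) : CAw 0 (toW g) = PermCA.CA g := by
  funext x i
  simp [CAw, toW, PermCA.CA]

theorem lpermW_toW {A : Type} (g : A → A → A) : LPermW 0 (toW g) ↔ PermCA.LPerm g := by
  have h1 : ∀ (u : Fin (0 + 1) → A) (a : A), toW g (Fin.cons a u) = g a (u 0) := fun u a => rfl
  constructor
  · intro h b
    have := h fun _ => b
    simpa only [h1] using this
  · intro h u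
    simp only [h1]
    exact h (u 0)

theorem rpermW_toW {A : Type} (g : A → A → A) : RPermW 0 (toW g) ↔ PermCA.RPerm g := by
  have h1 : ∀ (u : Fin (0 + 1) → A) (a : A), toW g (Fin.snoc (α := fun _ => A) u a) = g (u 0) a :=
    fun u a => rfl
  constructor
  · intro h b
    have := h fun _ => b
    simpa only [h1] using this
  · intro h u
    simp only [h1]
    exact h (u 0)

theorem image_badR (n : ℕ) : toW '' PermCA.BadR n = BadW 0 n := by
  ext f
  obtain ⟨g, rfl⟩ := toW_bijective.2 f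
  rw [toW_bijective.1.mem_set_image]
  show (Function.Surjective (PermCA.CA g) ∧ ¬ PermCA.LPerm g ∧ ¬ PermCA.RPerm g) ↔
    (Function.Surjective (CAw 0 (toW g)) ∧ ¬ LPermW 0 (toW g) ∧ ¬ RPermW 0 (toW g))
  rw [CAw_toW, lpermW_toW, rpermW_toW]

theorem image_transR (n : ℕ) : toW '' PermCA.TransR n = TransW 0 n := by
  ext f
  obtain ⟨g, rfl⟩ := toW_bijective.2 f
  rw [toW_bijective.1.mem_set_image]
  show PermCA.Transitive (PermCA.CA g) ↔ PermCA.Transitive (CAw 0 (toW g))
  rw [CAw_toW]

/-- For window two the rate is `2 ^ (-(1 - ε) n ^ 2)`. -/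
theorem two {ε : ℝ} (hε : 0 < ε) : ∃ n₀ : ℕ, ∀ n : ℕ, n₀ ≤ n →
    ((BadW 0 n).ncard : ℝ) ≤ 2 ^ (-((1 - ε) * (n : ℝ) ^ 2)) * ((TransW 0 n).ncard : ℝ) := by
  obtain ⟨n₀, -, hn₀⟩ := PermCA.bad_trans hε
  refine ⟨n₀, fun n hn => ?_⟩
  rw [← image_badR, ← image_transR, Set.ncard_image_of_injective _ toW_bijective.1,
    Set.ncard_image_of_injective _ toW_bijective.1]
  exact hn₀ n hn

end AW
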