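import Pool.Agent.Lib_c1afad_aw.WordDefs

/-!
# [AW-W1], [AW-W2] Mixing for words
-/

open Finset

namespace AW

open scoped Classical

noncomputable section

variable {A : Type}

private theorem mem_flt_WordA {C : Type} [Fintype C] {p : C → Prop} {i : DecidablePred p} {e : C} :
    e ∈ @Finset.filter C p i univ ↔ p e := by
  simp

/-- One step: sum over the first letter of the cell. -/
private theorem opT_WordA [Fintype A] (k : ℕ) (M : Type) [AddCommMonoid M]
    (φ : (Fin (k + 1) → A) → M) (y : Fin (k + 1) → A) :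
    opT (fun e : Fin (k + 2) → A => Fin.init (α := fun _ => A) e)
      (fun e : Fin (k + 2) → A => Fin.tail (α := fun _ => A) e) φ y =
      ∑ a : A, φ (Fin.init (α := fun _ => A) (Fin.cons (α := fun _ => A) a y)) := by
  unfold opT
  refine Finset.sum_nbij' (fun e => e 0) (fun a => Fin.cons (α := fun _ => A) a y) ?_ ?_ ?_ ?_ ?_
  · intro e _
    exact mem_univ _
  · intro a _
    exact mem_flt_WordA.2 (Fin.tail_cons _ _)
  · intro e he
    have he1 := mem_flt_WordA.1 he
    have he2 : Fin.tail (α := fun _ => A) e = y := he1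
    show Fin.cons (e 0) y = e
    rw [← he2]
    exact Fin.cons_self_tail e
  · intro a _
    rfl
  · intro e he
    have he1 := mem_flt_WordA.1 he
    have he2 : Fin.tail (α := fun _ => A) e = y := he1
    have h1 : Fin.cons (α := fun _ => A) (e 0) y = e := by
      rw [← he2]
      exact Fin.cons_self_tail e
    show φ (Fin.init (α := fun _ => A) e) = φ (Fin.init (α := fun _ => A) (Fin.cons (α := fun _ => A) (e 0) y))
    rw [h1]

/-- The first `k + 1` letters of the word `w y`. -/
private def comb_WordA (k j : ℕ) (w : Fin j → A) (y : Fin (k + 1) → A) : Fin (k + 1) → A :=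
  fun i => if h : (i : ℕ) < j then w ⟨i, h⟩ else y ⟨i - j, by omega⟩

private theorem comb_cons_WordA (k j : ℕ) (a : A) (w : Fin j → A) (y : Fin (k + 1) → A) :
    Fin.init (α := fun _ => A) (Fin.cons (α := fun _ => A) a (comb_WordA k j w y)) =
      comb_WordA k (j + 1) (Fin.cons (α := fun _ => A) a w) y := by
  funext i
  show (Fin.cons (α := fun _ => A) a (comb_WordA k j w y) : Fin (k + 2) → A) i.castSucc = _
  rcases i with ⟨i, hi⟩
  rcases i with _ | i
  · show a = _
    unfold comb_WordA
    rw [dif_pos (Nat.succ_pos j)]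
    rfl
  · show comb_WordA k j w y ⟨i, by omega⟩ = _
    unfold comb_WordA
    by_cases h : i < j
    · rw [dif_pos h, dif_pos (by simpa using h)]
      rfl
    · rw [dif_neg h, dif_neg (by simpa using h)]
      congr 1
      apply Fin.ext
      show i - j = i + 1 - (j + 1)
      omega

private theorem iter_WordA [Fintype A] (k : ℕ) (M : Type) [AddCommMonoid M] (j : ℕ) :
    ∀ (φ : (Fin (k + 1) → A) → M) (y : Fin (k + 1) → A),
    (opT (fun e : Fin (k + 2) → A => Fin.init (α := fun _ => A) e)
      (fun e : Fin (k + 2) → A => Fin.tail (α := fun _ => A) e))^[j] φ y =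
      ∑ w : Fin j → A, φ (comb_WordA k j w y) := by
  induction j with
  | zero =>
    intro φ y
    rw [Function.iterate_zero, id, Fintype.sum_unique]
    rfl
  | succ j ih =>
    intro φ y
    rw [Function.iterate_succ_apply, ih, ← Equiv.sum_comp (Fin.consEquiv fun _ : Fin (j + 1) => A),
      Fintype.sum_prod_type, sum_comm]
    refine sum_congr rfl fun w _ => ?_
    rw [opT_WordA]
    refine sum_congr rfl fun a _ => ?_
    rw [comb_cons_WordA]
    rfl

/-- [AW-W1] `T^[j] φ y` is the sum of `φ x` over the words `x` with `x (i + j) = y i` whenever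
`i + j < k + 1` (induction on `j ≤ k + 1`); for `j = k + 1` there is no condition. -/
theorem word_mixT [Fintype A] (k : ℕ) (M : Type) [AddCommMonoid M] (φ : (Fin (k + 1) → A) → M)
    (y : Fin (k + 1) → A) :
    (opT (fun e : Fin (k + 2) → A => Fin.init (α := fun _ => A) e)
      (fun e : Fin (k + 2) → A => Fin.tail (α := fun _ => A) e))^[k + 1] φ y = ∑ x, φ x := by
  rw [iter_WordA]
  refine sum_congr rfl fun w _ => ?_
  congr 1
  funext i
  unfold comb_WordA
  rw [dif_pos i.2]

/-- [AW-W2] The same in the other direction, from `word_mixT` by reversing words (`Fin.rev`). -/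
theorem word_mixS [Fintype A] (k : ℕ) (M : Type) [AddCommMonoid M] (φ : (Fin (k + 1) → A) → M)
    (y : Fin (k + 1) → A) :
    (opT (fun e : Fin (k + 2) → A => Fin.tail (α := fun _ => A) e)
      (fun e : Fin (k + 2) → A => Fin.init (α := fun _ => A) e))^[k + 1] φ y = ∑ x, φ x := by
  let T : ((Fin (k + 1) → A) → M) → (Fin (k + 1) → A) → M :=
    opT (fun e : Fin (k + 2) → A => Fin.init (α := fun _ => A) e)
      (fun e : Fin (k + 2) → A => Fin.tail (α := fun _ => A) e)
  let T' : ((Fin (k + 1) → A) → M) → (Fin (k + 1) → A) → M :=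
    opT (fun e : Fin (k + 2) → A => Fin.tail (α := fun _ => A) e)
      (fun e : Fin (k + 2) → A => Fin.init (α := fun _ => A) e)
  let c : ((Fin (k + 1) → A) → M) → (Fin (k + 1) → A) → M := fun φ x => φ (x ∘ Fin.rev)
  have hrr : ∀ {n : ℕ} (x : Fin n → A), (x ∘ Fin.rev) ∘ Fin.rev = x := by
    intro n x
    funext i
    simp
  have hinit : ∀ e : Fin (k + 2) → A, Fin.init (α := fun _ => A) (e ∘ Fin.rev) =
      Fin.tail (α := fun _ => A) e ∘ Fin.rev := by
    intro e
    funext i
    show e (Fin.rev i.castSucc) = e (Fin.rev i).succ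
    rw [Fin.rev_castSucc]
  have htail : ∀ e : Fin (k + 2) → A, Fin.tail (α := fun _ => A) (e ∘ Fin.rev) =
      Fin.init (α := fun _ => A) e ∘ Fin.rev := by
    intro e
    funext i
    show e (Fin.rev i.succ) = e (Fin.rev i).castSucc
    rw [Fin.rev_succ]
  have hsemi : Function.Semiconj c T' T := by
    intro ψ
    funext x
    simp only [c, T, T', opT]
    refine Finset.sum_nbij' (fun e => e ∘ Fin.rev) (fun e => e ∘ Fin.rev) ?_ ?_ ?_ ?_ ?_
    · intro e he
      have he1 := mem_flt_WordA.1 he
      have he2 : Fin.init (α := fun _ => A) e = x ∘ Fin.rev := he1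
      refine mem_flt_WordA.2 ?_
      show Fin.tail (α := fun _ => A) (e ∘ Fin.rev) = x
      rw [htail, he2, hrr]
    · intro e he
      have he1 := mem_flt_WordA.1 he
      have he2 : Fin.tail (α := fun _ => A) e = x := he1
      refine mem_flt_WordA.2 ?_
      show Fin.init (α := fun _ => A) (e ∘ Fin.rev) = x ∘ Fin.rev
      rw [hinit, he2]
    · intro e _
      exact hrr e
    · intro e _
      exact hrr e
    · intro e _
      show ψ (Fin.tail (α := fun _ => A) e) =
        ψ (Fin.init (α := fun _ => A) (e ∘ Fin.rev) ∘ Fin.rev)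
      rw [hinit, hrr]
  have h1 := congrFun (hsemi.iterate_right (k + 1) φ) (y ∘ Fin.rev)
  have h2 : c (T'^[k + 1] φ) (y ∘ Fin.rev) = T'^[k + 1] φ y := by
    show T'^[k + 1] φ ((y ∘ Fin.rev) ∘ Fin.rev) = _
    rw [hrr]
  rw [h2] at h1
  have h3 := word_mixT k M (c φ) (y ∘ Fin.rev)
  show T'^[k + 1] φ y = _
  rw [h1]
  refine h3.trans ?_
  exact Finset.sum_nbij' (fun x => x ∘ Fin.rev) (fun x => x ∘ Fin.rev) (fun _ _ => mem_univ _)
    (fun _ _ => mem_univ _) (fun x _ => hrr x) (fun x _ => hrr x) (fun _ _ => rfl)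

end

end AW
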