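import Pool.Agent.Lib_c1afad_aw.WordA

/-!
# [AW-W3] The net of words
-/

open Finset

namespace AW

open scoped Classical

noncomputable section

variable {A : Type}

private theorem init_snoc_WordB {k : ℕ} (x : Fin (k + 1) → A) (a : A) :
    Fin.init (α := fun _ => A) (Fin.snoc (α := fun _ => A) x a) = x :=
  Fin.init_snoc (α := fun _ => A) a x

private theorem cs_WordB [Fintype A] (k : ℕ) (x : Fin (k + 1) → A) :
    #{e : Fin (k + 2) → A | Fin.init (α := fun _ => A) e = x} = Fintype.card A := by
  have h : ({e : Fin (k + 2) → A | Fin.init (α := fun _ => A) e = x} : Finset (Fin (k + 2) → A))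
      = univ.image fun a : A => Fin.snoc (α := fun _ => A) x a := by
    ext e
    simp only [mem_filter, mem_univ, true_and, mem_image]
    constructor
    · intro h
      refine ⟨e (Fin.last _), ?_⟩
      rw [← h]
      exact Fin.snoc_init_self (α := fun _ => A) e
    · rintro ⟨a, rfl⟩
      exact init_snoc_WordB x a
  rw [h, card_image_of_injective, card_univ]
  intro a b hab
  have := congrFun hab (Fin.last _)
  simpa using this

private theorem ct_WordB [Fintype A] (k : ℕ) (y : Fin (k + 1) → A) :
    #{e : Fin (k + 2) → A | Fin.tail (α := fun _ => A) e = y} = Fintype.card A := by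
  have h : ({e : Fin (k + 2) → A | Fin.tail (α := fun _ => A) e = y} : Finset (Fin (k + 2) → A))
      = univ.image fun a : A => Fin.cons (α := fun _ => A) a y := by
    ext e
    simp only [mem_filter, mem_univ, true_and, mem_image]
    constructor
    · intro h
      refine ⟨e 0, ?_⟩
      rw [← h]
      exact Fin.cons_self_tail (α := fun _ => A) e
    · rintro ⟨a, rfl⟩
      exact Fin.tail_cons (α := fun _ => A) a y
  rw [h, card_image_of_injective, card_univ]
  intro a b hab
  have := congrFun hab 0
  simpa using this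

private theorem rect_WordB (k : ℕ) (e₁ e₂ e : Fin (k + 2) → A)
    (h1 : Fin.tail (α := fun _ => A) e₁ = Fin.tail (α := fun _ => A) e)
    (h2 : Fin.init (α := fun _ => A) e₂ = Fin.init (α := fun _ => A) e) :
    ∃ e₃ : Fin (k + 2) → A, Fin.init (α := fun _ => A) e₃ = Fin.init (α := fun _ => A) e₁ ∧
      Fin.tail (α := fun _ => A) e₃ = Fin.tail (α := fun _ => A) e₂ := by
  refine ⟨Fin.snoc (α := fun _ => A) (Fin.init (α := fun _ => A) e₁) (e₂ (Fin.last _)),
    init_snoc_WordB _ _, ?_⟩
  funext i
  refine Fin.lastCases ?_ (fun j => ?_) i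
  · show Fin.snoc (α := fun _ => A) (Fin.init (α := fun _ => A) e₁) (e₂ (Fin.last _)) (Fin.last (k + 1)) = e₂ (Fin.last (k + 1))
    rw [Fin.snoc_last]
  · show Fin.snoc (α := fun _ => A) (Fin.init (α := fun _ => A) e₁) (e₂ (Fin.last _))
      (Fin.castSucc (Fin.succ j)) = e₂ (Fin.castSucc (Fin.succ j))
    rw [Fin.snoc_castSucc]
    have e1 : e₁ (Fin.castSucc (Fin.succ j)) = e (Fin.castSucc (Fin.succ j)) :=
      congrFun h1 (Fin.castSucc j)
    have e2 : e₂ (Fin.castSucc (Fin.succ j)) = e (Fin.castSucc (Fin.succ j)) :=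
      congrFun h2 (Fin.succ j)
    show e₁ (Fin.castSucc (Fin.succ j)) = _
    rw [e1, e2]

/-- [AW-W3] The net of words. -/
def wordNet (A : Type) [Fintype A] [Nonempty A] (k : ℕ) : Net (Fin (k + 1) → A) (Fin (k + 2) → A) where
  n := Fintype.card A
  r := k + 1
  s := fun e => Fin.init (α := fun _ => A) e
  t := fun e => Fin.tail (α := fun _ => A) e
  rpos := by omega
  ne := inferInstance
  inj := by
    intro e e' h1 h2
    funext i
    refine Fin.cases ?_ (fun j => ?_) i
    · exact congrFun h1 0
    · exact congrFun h2 j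
  cs := fun x => by convert cs_WordB k x
  ct := fun y => by convert ct_WordB k y
  rect := rect_WordB k
  mixT := word_mixT k
  mixS := word_mixS k

end

end AW
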