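import Pool.Agent.Lib_c1afad_aw.WordB

/-!
# [AW-W4] Surjective cellular automata give full labellings
-/

open Finset

namespace AW

open scoped Classical

noncomputable section

variable {A : Type}

private theorem path_WordC [Fintype A] [Nonempty A] (k : ℕ) (f : (Fin (k + 2) → A) → A)
    (x : ℤ → A) : ∀ (w : List A) (φ : (Fin (k + 1) → A) → ℕ) (s : ℤ),
    φ (fun j : Fin (k + 1) => x (s + (j : ℕ))) ≠ 0 →
    (∀ (i : ℕ) (hi : i < w.length), f (fun j : Fin (k + 2) => x (s + i + (j : ℕ))) = w[i]) →
    (wordNet A k).FW f w φ (fun j : Fin (k + 1) => x (s + w.length + (j : ℕ))) ≠ 0 := by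
  intro w
  induction w with
  | nil =>
    intro φ s h0 _
    simpa using h0
  | cons a w ih =>
    intro φ s h0 h
    rw [Net.FW_cons]
    have h1 := h 0 (by simp)
    simp only [Nat.cast_zero, add_zero, List.getElem_cons_zero] at h1
    have h2 := ih ((wordNet A k).F f a φ) (s + 1) (by
      rw [Net.F_apply]
      intro hz
      rw [sum_eq_zero_iff] at hz
      refine h0 (hz (fun j : Fin (k + 2) => x (s + (j : ℕ))) ?_)
      refine (@mem_filter _ _ (_) _ _).2 ⟨mem_univ _, ?_, h1⟩
      show Fin.tail (α := fun _ => A) (fun j : Fin (k + 2) => x (s + (j : ℕ))) = _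
      funext j
      show x (s + ((Fin.succ j : Fin (k + 2)) : ℕ)) = x (s + 1 + (j : ℕ))
      congr 1
      rw [Fin.val_succ]
      push_cast
      ring) (by
      intro i hi
      have := h (i + 1) (by simp; omega)
      simp only [List.getElem_cons_succ] at this
      rw [← this]
      congr 1
      funext j
      congr 1
      push_cast
      ring)
    have h3 : (fun j : Fin (k + 1) => x (s + ((a :: w).length : ℕ) + (j : ℕ)))
        = fun j : Fin (k + 1) => x (s + 1 + (w.length : ℕ) + (j : ℕ)) := by
      funext j
      congr 1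
      rw [List.length_cons]
      push_cast
      ring
    rw [h3]
    exact h2

/-- [AW-W4] A surjective cellular automaton has a full rule: follow the word
`x (i), .., x (i + k)` along a preimage `x` of a point containing the given word. -/
theorem full_of_surjective [Fintype A] [Nonempty A] (k : ℕ) {f : (Fin (k + 2) → A) → A}
    (h : Function.Surjective (CAw k f)) : Full (wordNet A k) f := by
  intro w
  obtain ⟨x, hx⟩ := h fun i : ℤ => w.getD i.toNat (Classical.arbitrary A)
  refine ⟨_, path_WordC k f x w (fun _ => 1) 0 one_ne_zero ?_⟩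
  intro i hi
  have h1 := congrFun hx (i : ℤ)
  simp only [CAw, Int.toNat_natCast] at h1
  rw [zero_add, h1]
  simp [List.getD_eq_getElem?_getD, hi]

theorem lpermW_of_permT [Fintype A] [Nonempty A] (k : ℕ) {f : (Fin (k + 2) → A) → A}
    (h : PermT (wordNet A k) f) : LPermW k f := by
  intro u
  rw [← Finite.injective_iff_bijective]
  intro a b hab
  have h1 : (Fin.cons a u : Fin (k + 2) → A) = Fin.cons b u :=
    h u (show Fin.tail (α := fun _ => A) (Fin.cons a u) = u from Fin.tail_cons (α := fun _ => A) a u)
      (show Fin.tail (α := fun _ => A) (Fin.cons b u) = u from Fin.tail_cons (α := fun _ => A) b u) hab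
  have h2 := congrFun h1 0
  simpa using h2

theorem rpermW_of_permT [Fintype A] [Nonempty A] (k : ℕ) {f : (Fin (k + 2) → A) → A}
    (h : PermT (wordNet A k).rev f) : RPermW k f := by
  intro u
  rw [← Finite.injective_iff_bijective]
  intro a b hab
  have h1 : (Fin.snoc (α := fun _ => A) u a : Fin (k + 2) → A) = Fin.snoc (α := fun _ => A) u b :=
    h u (show Fin.init (α := fun _ => A) (Fin.snoc (α := fun _ => A) u a) = u from
        Fin.init_snoc (α := fun _ => A) a u)
      (show Fin.init (α := fun _ => A) (Fin.snoc (α := fun _ => A) u b) = u from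
        Fin.init_snoc (α := fun _ => A) b u) hab
  have h2 := congrFun h1 (Fin.last _)
  simpa using h2

end

end AW
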