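import Pool.Agent.Lib_c1afad_aw.MinDefs

/-!
# Cellular automata of window `k + 2`
-/

open Finset

namespace AW

open scoped Classical

noncomputable section

/-- The cellular automaton with the local rule `f` of window `k + 2`:
`(F x) i = f (x i, x (i + 1), .., x (i + k + 1))`. -/
def CAw {A : Type} (k : ℕ) (f : (Fin (k + 2) → A) → A) (x : ℤ → A) : ℤ → A :=
  fun i => f fun j => x (i + (j : ℕ))

/-- Left permutive: a permutation in the first variable. -/
def LPermW {A : Type} (k : ℕ) (f : (Fin (k + 2) → A) → A) : Prop :=
  ∀ u : Fin (k + 1) → A, Function.Bijective fun a => f (Fin.cons a u)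

/-- Right permutive: a permutation in the last variable. -/
def RPermW {A : Type} (k : ℕ) (f : (Fin (k + 2) → A) → A) : Prop :=
  ∀ u : Fin (k + 1) → A, Function.Bijective fun a => f (Fin.snoc u a)

end

end AW
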